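import Pool.Agent.H431.OC.Base

/-!
# Lower bounds for the heights of the values of some rational functions
-/

set_option autoImplicit false

namespace Pool.Agent.H431.OC

open NumberField IsDedekindDomain Height Pool.Agent.Q290.NF IntermediateField

variable {k : Type} [Field k] [NumberField k]

/-- linear maps over `k` -/
theorem lin_le {ι ι' : Type} [Fintype ι] [Finite ι'] (A : ι' × ι → k) :
    ∃ C : ℝ, 0 ≤ C ∧ ∀ (M : Type) [Field M] [NumberField M] [Algebra k M] (x : ι → M),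
      logHeight (fun j => ∑ i, algebraMap k M (A (j, i)) * x i) ≤
        logHeight x + Module.finrank ℚ M * C := by
  refine ⟨Real.log (Nat.card ι) + logHeight A, ?_, ?_⟩
  · exact add_nonneg (Real.log_natCast_nonneg _) (logHeight_nonneg _)
  · intro M _ _ _ x
    have h1 := logHeight_linearMap_apply_le (fun p => algebraMap k M (A p)) x
    rw [NumberField.totalWeight_eq_finrank, Pool.Agent.Helper259.HtExt.logHeight_ext] at h1
    have h2 : (Module.finrank k M : ℝ) ≤ Module.finrank ℚ M := by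
      have h := Module.finrank_mul_finrank ℚ k M
      have h3 : 0 < Module.finrank ℚ k := Module.finrank_pos
      have h4 : Module.finrank k M ≤ Module.finrank ℚ M := by
        rw [← h]
        exact Nat.le_mul_of_pos_left _ h3
      exact_mod_cast h4
    have h3 := mul_le_mul_of_nonneg_right h2 (logHeight_nonneg A)
    rw [mul_add]
    linarith

theorem ht_cube {M : Type} [Field M] [NumberField M] (T : M) :
    logHeight ![T ^ 3, 1] = 3 * logHeight₁ T := by
  rw [← logHeight₁_eq_logHeight, logHeight₁_pow]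
  norm_num

theorem ne_T {M : Type} [Field M] (T : M) : (![T, 1] : Fin 2 → M) ≠ 0 := by
  intro h
  have := congrFun h 1
  simp at this

/-- the function `T + m / T` -/
theorem ht_jouk (m : k) (hm : m ≠ 0) : ∃ C : ℝ, 0 ≤ C ∧
    ∀ (M : Type) [Field M] [NumberField M] [Algebra k M] (T : M), T ≠ 0 →
      2 * logHeight₁ T ≤ logHeight₁ (T + algebraMap k M m / T) + Module.finrank ℚ M * C := by
  obtain ⟨C, hC, H⟩ := lin_le (k := k) (ι := Fin 2 × Fin 2) (ι' := Fin 2)
    (fun p => (![![![1, 0], ![0, -m]], ![![0, 1 / m], ![-(1 / m), 0]]] : Fin 2 → Fin 2 → Fin 2 → k)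
      p.1 p.2.1 p.2.2)
  refine ⟨C, hC, fun M _ _ _ T hT => ?_⟩
  obtain ⟨m', hm'⟩ : ∃ m' : M, m' = algebraMap k M m := ⟨_, rfl⟩
  have hm0 : m' ≠ 0 := by
    rw [hm']
    exact (map_ne_zero _).2 hm
  have h1 := H M (fun q : Fin 2 × Fin 2 => (![T ^ 2 + m', T] : Fin 2 → M) q.1 *
    (![T, 1] : Fin 2 → M) q.2)
  have hne : (![T ^ 2 + m', T] : Fin 2 → M) ≠ 0 := by
    intro h
    have := congrFun h 1
    simp at this
    exact hT this
  rw [logHeight_fun_mul_eq hne (ne_T T)] at h1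
  have e1 : (fun j : Fin 2 => ∑ i : Fin 2 × Fin 2, algebraMap k M
      ((![![![1, 0], ![0, -m]], ![![0, 1 / m], ![-(1 / m), 0]]] : Fin 2 → Fin 2 → Fin 2 → k)
      j i.1 i.2) * ((![T ^ 2 + m', T] : Fin 2 → M) i.1 * (![T, 1] : Fin 2 → M) i.2)) =
      ![T ^ 3, 1] := by
    funext j
    rw [Fintype.sum_prod_type]
    fin_cases j
    · simp [Fin.sum_univ_two, ← hm']
      ring
    · simp [Fin.sum_univ_two, ← hm']
      field_simp
      ring
  rw [e1, ht_cube, ← logHeight₁_eq_logHeight, ← logHeight₁_div_eq_logHeight] at h1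
  have e2 : (T ^ 2 + m') / T = T + m' / T := by
    field_simp
  rw [e2] at h1
  rw [← hm']
  linarith

/-- the two points `P + s` and `P - s` -/
theorem ht_pair (c p g : k) (hc : c ≠ 0) : ∃ C : ℝ, 0 ≤ C ∧
    ∀ (M : Type) [Field M] [NumberField M] [Algebra k M] (T y z : M), T ≠ 0 →
      T ^ 2 * (y + z) = algebraMap k M p * T + algebraMap k M c →
      T ^ 2 * (y * z) = -(algebraMap k M c) * (T + algebraMap k M g) →
      2 * logHeight₁ T ≤ logHeight₁ y + logHeight₁ z + Module.finrank ℚ M * C := by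
  by_cases hg : g = 0
  · -- `1` from the sum and the product
    obtain ⟨C, hC, H⟩ := lin_le (k := k) (ι := (Fin 2 × Fin 2) × Fin 2) (ι' := Fin 2)
      (fun q => (![![![![0, 0], ![0, 0]], ![![0, 0], ![1, 0]]],
        ![![![0, p / c ^ 2], ![0, 1 / c]], ![![0, 1 / c], ![0, 0]]]] :
          Fin 2 → Fin 2 → Fin 2 → Fin 2 → k) q.1 q.2.1.1 q.2.1.2 q.2.2)
    refine ⟨C, hC, fun M _ _ _ T y z hT h1 h2 => ?_⟩
    obtain ⟨c', hc'⟩ : ∃ c' : M, c' = algebraMap k M c := ⟨_, rfl⟩
    obtain ⟨p', hp'⟩ : ∃ p' : M, p' = algebraMap k M p := ⟨_, rfl⟩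
    have hc0 : c' ≠ 0 := by
      rw [hc']
      exact (map_ne_zero _).2 hc
    rw [← hc', ← hp'] at h1
    rw [← hc', hg, map_zero, add_zero] at h2
    have h3 := H M (fun q : (Fin 2 × Fin 2) × Fin 2 =>
      ((![y, 1] : Fin 2 → M) q.1.1 * (![z, 1] : Fin 2 → M) q.1.2) * (![T, 1] : Fin 2 → M) q.2)
    have hne : (fun a : Fin 2 × Fin 2 => (![y, 1] : Fin 2 → M) a.1 * (![z, 1] : Fin 2 → M) a.2) ≠
        0 := by
      intro h
      have := congrFun h (1, 1)
      simp at this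
    rw [logHeight_fun_mul_eq (x := fun a : Fin 2 × Fin 2 =>
      (![y, 1] : Fin 2 → M) a.1 * (![z, 1] : Fin 2 → M) a.2) hne (ne_T T),
      logHeight_fun_mul_eq (ne_T y) (ne_T z)] at h3
    have e1 : (fun j : Fin 2 => ∑ i : (Fin 2 × Fin 2) × Fin 2, algebraMap k M
        ((![![![![0, 0], ![0, 0]], ![![0, 0], ![1, 0]]],
        ![![![0, p / c ^ 2], ![0, 1 / c]], ![![0, 1 / c], ![0, 0]]]] :
          Fin 2 → Fin 2 → Fin 2 → Fin 2 → k) j i.1.1 i.1.2 i.2) *
        (((![y, 1] : Fin 2 → M) i.1.1 * (![z, 1] : Fin 2 → M) i.1.2) *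
          (![T, 1] : Fin 2 → M) i.2)) = (T ^ 2)⁻¹ • ![T ^ 3, 1] := by
      funext j
      rw [Fintype.sum_prod_type, Fintype.sum_prod_type]
      fin_cases j
      · simp [Fin.sum_univ_two]
        field_simp
      · simp [Fin.sum_univ_two, ← hc', ← hp']
        refine eq_inv_of_mul_eq_one_left ?_
        field_simp
        linear_combination p' * h2 + c' * h1
    rw [e1, logHeight_smul_eq_logHeight _ (inv_ne_zero (pow_ne_zero _ hT)), ht_cube,
      ← logHeight₁_eq_logHeight, ← logHeight₁_eq_logHeight, ← logHeight₁_eq_logHeight] at h3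
    linarith
  · obtain ⟨C, hC, H⟩ := lin_le (k := k) (ι := (Fin 2 × Fin 2) × Fin 2) (ι' := Fin 2)
      (fun q => (![![![![0, 0], ![0, 0]], ![![0, 0], ![1, 0]]],
        ![![![1 / (c * g ^ 2), -(1 / (c * g))], ![0, 0]], ![![0, 0], ![0, 1 / g ^ 2]]]] :
          Fin 2 → Fin 2 → Fin 2 → Fin 2 → k) q.1 q.2.1.1 q.2.1.2 q.2.2)
    refine ⟨C, hC, fun M _ _ _ T y z hT h1 h2 => ?_⟩
    obtain ⟨c', hc'⟩ : ∃ c' : M, c' = algebraMap k M c := ⟨_, rfl⟩
    obtain ⟨g', hg'⟩ : ∃ g' : M, g' = algebraMap k M g := ⟨_, rfl⟩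
    have hc0 : c' ≠ 0 := by
      rw [hc']
      exact (map_ne_zero _).2 hc
    have hg0 : g' ≠ 0 := by
      rw [hg']
      exact (map_ne_zero _).2 hg
    rw [← hc', ← hg'] at h2
    have h3 := H M (fun q : (Fin 2 × Fin 2) × Fin 2 =>
      ((![y, 1] : Fin 2 → M) q.1.1 * (![z, 1] : Fin 2 → M) q.1.2) * (![T, 1] : Fin 2 → M) q.2)
    have hne : (fun a : Fin 2 × Fin 2 => (![y, 1] : Fin 2 → M) a.1 * (![z, 1] : Fin 2 → M) a.2) ≠
        0 := by
      intro h
      have := congrFun h (1, 1)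
      simp at this
    rw [logHeight_fun_mul_eq (x := fun a : Fin 2 × Fin 2 =>
      (![y, 1] : Fin 2 → M) a.1 * (![z, 1] : Fin 2 → M) a.2) hne (ne_T T),
      logHeight_fun_mul_eq (ne_T y) (ne_T z)] at h3
    have e1 : (fun j : Fin 2 => ∑ i : (Fin 2 × Fin 2) × Fin 2, algebraMap k M
        ((![![![![0, 0], ![0, 0]], ![![0, 0], ![1, 0]]],
        ![![![1 / (c * g ^ 2), -(1 / (c * g))], ![0, 0]], ![![0, 0], ![0, 1 / g ^ 2]]]] :
          Fin 2 → Fin 2 → Fin 2 → Fin 2 → k) j i.1.1 i.1.2 i.2) *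
        (((![y, 1] : Fin 2 → M) i.1.1 * (![z, 1] : Fin 2 → M) i.1.2) *
          (![T, 1] : Fin 2 → M) i.2)) = (T ^ 2)⁻¹ • ![T ^ 3, 1] := by
      funext j
      rw [Fintype.sum_prod_type, Fintype.sum_prod_type]
      fin_cases j
      · simp [Fin.sum_univ_two]
        field_simp
      · simp [Fin.sum_univ_two, ← hc', ← hg']
        refine eq_inv_of_mul_eq_one_left ?_
        field_simp
        linear_combination (T - g') * h2
    rw [e1, logHeight_smul_eq_logHeight _ (inv_ne_zero (pow_ne_zero _ hT)), ht_cube,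
      ← logHeight₁_eq_logHeight, ← logHeight₁_eq_logHeight, ← logHeight₁_eq_logHeight] at h3
    linarith

/-- constants -/
theorem ht_shift (a : k) : ∃ C : ℝ, 0 ≤ C ∧
    ∀ (M : Type) [Field M] [NumberField M] [Algebra k M] (x : M),
      logHeight₁ x ≤ logHeight₁ (x - algebraMap k M a) + Module.finrank ℚ M * C ∧
      logHeight₁ (x - algebraMap k M a) ≤ logHeight₁ x + Module.finrank ℚ M * C := by
  obtain ⟨C, hC, H⟩ := height_const a
  have hl : 0 ≤ Real.log 2 := Real.log_nonneg (by norm_num)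
  refine ⟨C + Real.log 2, by positivity, fun M _ _ _ x => ?_⟩
  have h0 := H M
  have h1 := ht_sub x (algebraMap k M a)
  have h2 := ht_add (x - algebraMap k M a) (algebraMap k M a)
  rw [sub_add_cancel] at h2
  rw [mul_add]
  constructor <;> linarith

theorem ht_scale (a : k) (ha : a ≠ 0) : ∃ C : ℝ, 0 ≤ C ∧
    ∀ (M : Type) [Field M] [NumberField M] [Algebra k M] (x : M),
      logHeight₁ x ≤ logHeight₁ (algebraMap k M a * x) + Module.finrank ℚ M * C ∧
      logHeight₁ (algebraMap k M a * x) ≤ logHeight₁ x + Module.finrank ℚ M * C := by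
  obtain ⟨C, hC, H⟩ := height_const a
  refine ⟨C, hC, fun M _ _ _ x => ?_⟩
  have h0 := H M
  have h1 := ht_mul (algebraMap k M a) x
  have h2 := ht_mul (algebraMap k M a)⁻¹ (algebraMap k M a * x)
  rw [logHeight₁_inv, inv_mul_cancel_left₀ ((map_ne_zero _).2 ha)] at h2
  constructor <;> linarith

end Pool.Agent.H431.OC
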