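import Pool.Agent.H431.OC.Red

/-!
# The compositum with a fixed number field
-/

set_option autoImplicit false

namespace Pool.Agent.H431.OC

open NumberField IsDedekindDomain Height Pool.Agent.Q290.NF IntermediateField Polynomial

/-- the compositum with a fixed number field -/
theorem compositum (F : Type) [Field F] [NumberField F] : ∃ C : ℝ, 0 ≤ C ∧
    ∀ (M : Type) [Field M] [NumberField M], ∃ (E : Type) (_ : Field E) (_ : NumberField E)
      (_ : Algebra M E) (_ : Algebra F E), Module.finrank M E ≤ Module.finrank ℚ F ∧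
      DD E ≤ Module.finrank M E * (DD M + Module.finrank ℚ M * C) := by
  obtain ⟨α, hα⟩ := Field.exists_primitive_element ℚ F
  obtain ⟨n, hn0, hnα⟩ : ∃ n : ℤ, n ≠ 0 ∧ IsIntegral ℤ (n • α) := by
    have hα : IsAlgebraic ℤ α :=
      (IsFractionRing.isAlgebraic_iff ℤ ℚ F).2 (Algebra.IsAlgebraic.isAlgebraic α)
    exact hα.exists_integral_multiple
  obtain ⟨θ, hθ⟩ : ∃ θ : 𝓞 F, (θ : F) = n • α := ⟨⟨n • α, hnα⟩, rfl⟩
  have hgen : ℚ⟮(θ : F)⟯ = ⊤ := by
    rw [← hα]
    apply le_antisymm
    · rw [hα]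
      exact le_top
    · rw [adjoin_simple_le_iff]
      have h1 : α = (n : F)⁻¹ * (θ : F) := by
        rw [hθ, zsmul_eq_mul, inv_mul_cancel_left₀]
        exact_mod_cast hn0
      rw [h1]
      exact mul_mem (inv_mem (intCast_mem _ n)) (mem_adjoin_simple_self ℚ _)
  obtain ⟨q, hq⟩ : ∃ q : ℤ[X], q = minpoly ℤ θ := ⟨_, rfl⟩
  have hqθ : aeval θ q = 0 := by rw [hq]; exact minpoly.aeval ℤ θ
  have hint : IsIntegral ℤ θ := Algebra.IsIntegral.isIntegral θ
  have hmin : minpoly ℚ (θ : F) = q.map (algebraMap ℤ ℚ) := by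
    rw [hq]
    exact minpoly.isIntegrallyClosed_eq_field_fractions ℚ F hint
  have hq' : aeval θ (derivative q) ≠ 0 := by
    intro h0
    have h1 : (minpoly ℚ (θ : F)).Separable := Algebra.IsSeparable.isSeparable ℚ (θ : F)
    have h2 := h1.aeval_derivative_ne_zero (minpoly.aeval ℚ (θ : F))
    rw [hmin, derivative_map, aeval_map_algebraMap] at h2
    apply h2
    have h3 : aeval (θ : F) (derivative q) = ((aeval θ (derivative q) : 𝓞 F) : F) :=
      aeval_algebraMap_apply F θ (derivative q)
    rw [h3, h0]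
    rfl
  obtain ⟨γ, hγ⟩ : ∃ γ : 𝓞 F, γ = aeval θ (derivative q) := ⟨_, rfl⟩
  rw [← hγ] at hq'
  refine ⟨|Real.log |(Algebra.norm ℚ (γ : F) : ℝ)| / Module.finrank ℚ F|, abs_nonneg _, ?_⟩
  intro M _ _
  let φ : F →ₐ[ℚ] AlgebraicClosure M := IsAlgClosed.lift
  have hθi : IsIntegral ℤ (φ (θ : F)) := map_isIntegral_int φ.toRingHom θ.isIntegral_coe
  have hθM : IsIntegral M (φ (θ : F)) := hθi.tower_top
  let E := M⟮φ (θ : F)⟯
  have hE : Module.Finite M E := adjoin.finiteDimensional hθM
  have nE : NumberField E := NumberField.of_module_finite M E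
  have hmem : ∀ z : F, φ z ∈ M⟮φ (θ : F)⟯ := by
    have h1 : (⊤ : IntermediateField ℚ F) ≤
        IntermediateField.comap φ (M⟮φ (θ : F)⟯.restrictScalars ℚ) := by
      rw [← hgen, adjoin_simple_le_iff]
      exact mem_adjoin_simple_self M _
    intro z
    exact h1 (mem_top (x := z))
  let ψ : F →+* E := φ.toRingHom.codRestrict E.toSubfield.toSubring hmem
  let aFE : Algebra F E := ψ.toAlgebra
  refine ⟨E, inferInstance, nE, inferInstance, aFE, ?_, ?_⟩
  · have h1 : Module.finrank M E = (minpoly M (φ (θ : F))).natDegree := adjoin.finrank hθM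
    rw [h1]
    have hθQ : IsIntegral ℚ (φ (θ : F)) := hθi.tower_top
    have h2 : (minpoly M (φ (θ : F))).natDegree ≤
        ((minpoly ℚ (φ (θ : F))).map (algebraMap ℚ M)).natDegree := by
      refine natDegree_le_of_dvd (minpoly.dvd_map_of_isScalarTower ℚ M _) ?_
      exact (Polynomial.map_ne_zero (minpoly.ne_zero hθQ))
    rw [natDegree_map, minpoly.algHom_eq φ φ.toRingHom.injective] at h2
    exact h2.trans (minpoly.natDegree_le _)
  · have hψ : ∀ z : F, ((algebraMap F E z : E) : AlgebraicClosure M) = φ z := fun z => rfl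
    obtain ⟨β, hβ⟩ : ∃ β : 𝓞 E, β = algebraMap (𝓞 F) (𝓞 E) θ := ⟨_, rfl⟩
    have hβE : (β : E) = algebraMap F E (θ : F) := by
      rw [hβ]
      exact (IsScalarTower.algebraMap_apply (𝓞 F) (𝓞 E) E θ).symm.trans
        (IsScalarTower.algebraMap_apply (𝓞 F) F E θ)
    have hβgen : (β : E) = AdjoinSimple.gen M (φ (θ : F)) := by
      apply Subtype.ext
      rw [hβE, hψ]
      rfl
    have hadj : M⟮(β : E)⟯ = ⊤ := by
      rw [hβgen]
      exact gen_top hθM
    have hroot : aeval β (q.map (algebraMap ℤ (𝓞 M))) = 0 := by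
      rw [aeval_map_algebraMap, hβ, aeval_algebraMap_apply, hqθ, map_zero]
    have hder : aeval β (derivative (q.map (algebraMap ℤ (𝓞 M)))) =
        algebraMap (𝓞 F) (𝓞 E) γ := by
      rw [derivative_map, aeval_map_algebraMap, hβ, aeval_algebraMap_apply, hγ]
    have h1 := Pool.Agent.Y733.VR.ld_le M E β hadj (q.map (algebraMap ℤ (𝓞 M))) hroot (by
      rw [hder]
      intro h0
      exact hq' (FaithfulSMul.algebraMap_injective (𝓞 F) (𝓞 E) (by rw [h0, map_zero])))
    rw [hder] at h1
    have e1 : ((algebraMap (𝓞 F) (𝓞 E) γ : 𝓞 E) : E) = algebraMap F E (γ : F) :=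
      (IsScalarTower.algebraMap_apply (𝓞 F) (𝓞 E) E γ).symm.trans
        (IsScalarTower.algebraMap_apply (𝓞 F) F E γ)
    have hFE : Module.finrank ℚ F * Module.finrank F E = Module.finrank ℚ E :=
      Module.finrank_mul_finrank ℚ F E
    have hME : Module.finrank ℚ M * Module.finrank M E = Module.finrank ℚ E :=
      Module.finrank_mul_finrank ℚ M E
    have e2 : Algebra.norm ℚ (algebraMap F E (γ : F)) =
        (Algebra.norm ℚ (γ : F)) ^ Module.finrank F E := by
      rw [← Algebra.norm_norm (S := F), Algebra.norm_algebraMap, map_pow]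
    rw [e1, e2] at h1
    push_cast at h1
    rw [abs_pow, Real.log_pow] at h1
    unfold Pool.Agent.Y733.VR.ld at h1
    have pF : (0 : ℝ) < Module.finrank ℚ F := by exact_mod_cast Module.finrank_pos
    have pM : (0 : ℝ) < Module.finrank ℚ M := by exact_mod_cast Module.finrank_pos
    have pFE : (0 : ℝ) < Module.finrank F E := by exact_mod_cast Module.finrank_pos
    have pME : (0 : ℝ) < Module.finrank M E := by exact_mod_cast Module.finrank_pos
    have r1 : (Module.finrank ℚ E : ℝ) = Module.finrank ℚ F * Module.finrank F E := by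
      exact_mod_cast hFE.symm
    have r2 : (Module.finrank ℚ E : ℝ) = Module.finrank ℚ M * Module.finrank M E := by
      exact_mod_cast hME.symm
    obtain ⟨G, hG⟩ : ∃ G : ℝ, G = Real.log |(Algebra.norm ℚ (γ : F) : ℝ)| := ⟨_, rfl⟩
    rw [← hG] at h1 ⊢
    have h2 : (Module.finrank F E : ℝ) * G / Module.finrank ℚ E ≤
        |G / Module.finrank ℚ F| := by
      rw [r1]
      have : (Module.finrank F E : ℝ) * G / (Module.finrank ℚ F * Module.finrank F E) =
          G / Module.finrank ℚ F := by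
        field_simp
      rw [this]
      exact le_abs_self _
    have h3 : Real.log |(discr E : ℝ)| / Module.finrank ℚ E ≤
        Real.log |(discr M : ℝ)| / Module.finrank ℚ M + |G / Module.finrank ℚ F| :=
      h1.trans (by linarith)
    rw [r2, div_le_iff₀ (mul_pos pM pME)] at h3
    refine h3.trans (le_of_eq ?_)
    unfold DD
    field_simp

end Pool.Agent.H431.OC
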