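import Pool.Agent.H431.OC.Log3
import Pool.Agent.H431.OC.Compositum

/-!
# All number fields
-/

set_option autoImplicit false

namespace Pool.Agent.H431.OC

open NumberField IsDedekindDomain Height Pool.Agent.Q290.NF IntermediateField

/-- weighted sums in extensions -/
theorem sm_ext {M E : Type} [Field M] [NumberField M] [Field E] [NumberField E] [Algebra M E]
    {f : HeightOneSpectrum (𝓞 E) → ℝ} {g : HeightOneSpectrum (𝓞 M) → ℝ}
    (hf : (Function.support f).Finite) (hg : (Function.support g).Finite) (hg0 : ∀ v, 0 ≤ g v)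
    (H : ∀ (v : HeightOneSpectrum (𝓞 M)) (w : HeightOneSpectrum (𝓞 E)) (e : ℕ), e ≠ 0 →
      (∀ z : M, ord w (algebraMap M E z) = e * ord v z) → f w ≤ e * g v) :
    sm f ≤ Module.finrank M E * sm g := by
  classical
  obtain ⟨W, hW⟩ : ∃ W, W = hf.toFinset := ⟨_, rfl⟩
  obtain ⟨R, hR⟩ : ∃ R, R = W.image (fun w => w.under (𝓞 M)) ∪ hg.toFinset := ⟨_, rfl⟩
  have hsf : sm f = ∑ w ∈ W, f w * ell w := by
    unfold sm
    refine finsum_eq_sum_of_support_subset _ fun w hw => ?_
    rw [hW, Set.Finite.coe_toFinset]
    exact left_ne_zero_of_mul hw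
  have hsg : sm g = ∑ v ∈ R, g v * ell v := by
    unfold sm
    refine finsum_eq_sum_of_support_subset _ fun v hv => ?_
    have h1 : v ∈ Function.support g := left_ne_zero_of_mul hv
    rw [hR, Finset.mem_coe, Finset.mem_union, Set.Finite.mem_toFinset]
    exact Or.inr h1
  have hfib : ∑ w ∈ W, f w * ell w = ∑ v ∈ R, ∑ w ∈ W with w.under (𝓞 M) = v, f w * ell w := by
    have hmaps : ∀ w ∈ W, w.under (𝓞 M) ∈ R := by
      intro w hw
      rw [hR, Finset.mem_union]
      exact Or.inl (Finset.mem_image_of_mem _ hw)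
    exact (Finset.sum_fiberwise_of_maps_to hmaps (fun w => f w * ell w)).symm
  rw [hsf, hsg, hfib, Finset.mul_sum]
  refine Finset.sum_le_sum fun v _ => ?_
  refine local_bound v _ (fun w hw => ?_) f (hg0 v) (fun w hw => ?_)
  · rw [Finset.mem_filter] at hw
    rw [← hw.2]
    exact ⟨rfl⟩
  · rw [Finset.mem_filter] at hw
    have hl : w.asIdeal.LiesOver v.asIdeal := by
      rw [← hw.2]
      exact ⟨rfl⟩
    exact H v w _ (ram_ne v w hl) (fun z => ord_above v w hl z)

/-- **all number fields** -/
theorem L6 {F : Type} [Field F] [NumberField F]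
    (h : ∀ (ν : ℕ) (ε : ℝ), 0 < ε → ∃ C : ℝ, 0 ≤ C ∧
    ∀ (M : Type) [Field M] [NumberField M] [Algebra F M], Module.finrank ℚ M ≤ ν → ∀ t : M,
      (1 - ε) * logHeight₁ t ≤ DD M + sm (w3 t) + Module.finrank ℚ M * C)
    (ν : ℕ) {ε : ℝ} (hε : 0 < ε) : ∃ C : ℝ, 0 ≤ C ∧
    ∀ (M : Type) [Field M] [NumberField M], Module.finrank ℚ M ≤ ν → ∀ t : M,
      (1 - ε) * logHeight₁ t ≤ DD M + sm (w3 t) + Module.finrank ℚ M * C := by
  obtain ⟨C1, hC1, H1⟩ := h (ν * Module.finrank ℚ F) ε hε
  obtain ⟨C2, hC2, H2⟩ := compositum F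
  refine ⟨C1 + C2, by positivity, fun M _ _ hM t => ?_⟩
  obtain ⟨E, i1, i2, i3, i4, hdeg, hdisc⟩ := H2 M
  have hdE : Module.finrank ℚ M * Module.finrank M E = Module.finrank ℚ E :=
    Module.finrank_mul_finrank ℚ M E
  have hdE' : (Module.finrank ℚ E : ℝ) = Module.finrank ℚ M * Module.finrank M E := by
    exact_mod_cast hdE.symm
  have h1 := H1 E (by rw [← hdE]; exact Nat.mul_le_mul hM hdeg) (algebraMap M E t)
  have h2 : sm (w3 (algebraMap M E t)) ≤ Module.finrank M E * sm (w3 t) := by
    refine sm_ext (supp_w3 _) (supp_w3 _) (fun v => w3_nonneg t v) fun v w e he hvw => ?_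
    have e1 : ord w (algebraMap M E t - 1) = e * ord v (t - 1) := by
      rw [← hvw, map_sub, map_one]
    have e2 : -ord w (algebraMap M E t) = e * -ord v t := by
      rw [hvw]
      ring
    have r1 := po_mul_le he (ord v t)
    have r2 := po_mul_le he (ord v (t - 1))
    have r3 := po_mul_le he (-ord v t)
    have he1 : (1 : ℝ) ≤ e := by exact_mod_cast Nat.one_le_iff_ne_zero.2 he
    have h0 := w3_nonneg t v
    have h3 : w3 (algebraMap M E t) w ≤ w3 t v := by
      unfold w3
      rw [e1, e2, hvw t]
      linarith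
    nlinarith
  rw [ht_ext] at h1
  have pME : (0 : ℝ) < Module.finrank M E := by exact_mod_cast Module.finrank_pos
  rw [hdE'] at h1
  have h4 : (Module.finrank M E : ℝ) * ((1 - ε) * logHeight₁ t) ≤
      Module.finrank M E * (DD M + sm (w3 t) + Module.finrank ℚ M * (C1 + C2)) := by
    have e1 : (Module.finrank M E : ℝ) * ((1 - ε) * logHeight₁ t) =
      (1 - ε) * (Module.finrank M E * logHeight₁ t) := by ring
    rw [e1]
    refine h1.trans ?_
    have : (Module.finrank M E : ℝ) * (DD M + sm (w3 t) + Module.finrank ℚ M * (C1 + C2)) =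
      Module.finrank M E * (DD M + Module.finrank ℚ M * C2) + Module.finrank M E * sm (w3 t) +
      Module.finrank ℚ M * Module.finrank M E * C1 := by ring
    rw [this]
    linarith
  exact le_of_mul_le_mul_left h4 pME

open Classical in
theorem wt_eq {M : Type} [Field M] [NumberField M] (P : HeightOneSpectrum (𝓞 M) → Prop) :
    wt P = sm (fun v => if P v then 1 else 0) := by
  unfold wt sm
  refine finsum_congr fun v => ?_
  show ind P v = (if P v then 1 else 0) * ell v
  by_cases h : P v
  · rw [ind_pos h, if_pos h, one_mul]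
  · rw [ind_neg h, if_neg h, zero_mul]

open Classical in
/-- the three points `0`, `1`, `-1` -/
theorem near_ineq {M : Type} [Field M] [NumberField M] (t : M) (h0 : t ≠ 0) (h1 : t ≠ 1)
    (h2 : t ≠ -1) : sm (w3 (2 * t / (1 + t))) ≤ wt (fun v => Near t v) +
      Module.finrank ℚ M * (3 * Real.log 2) := by
  have n1 : t - 1 ≠ 0 := sub_ne_zero.2 h1
  have n2 : 1 + t ≠ 0 := fun h => h2 (by linear_combination h)
  have hfin : (Function.support fun v : HeightOneSpectrum (𝓞 M) =>
      if Near t v then (1 : ℝ) else 0).Finite := by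
    refine (fin_near ⟨h0, h1, h2⟩).subset fun v hv => ?_
    rw [Function.mem_support, ne_eq, ite_eq_right_iff, Classical.not_imp] at hv
    exact hv.1
  rw [wt_eq]
  have h3 := sm_le_bad (M := M) (N := 2) two_ne_zero (B := 3) (by norm_num)
    (g := w3 (2 * t / (1 + t))) (h := fun v => if Near t v then 1 else 0) (supp_w3 _) hfin
    (fun v hv => by
      have hv2 : ord v (2 : M) = 0 := by exact_mod_cast hv
      have two0 : (2 : M) ≠ 0 := two_ne_zero
      have o1 : ord v (2 * t / (1 + t)) = ord v t - ord v (1 + t) := by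
        rw [ord_div v (mul_ne_zero two0 h0) n2, ord_mul v two0 h0, hv2, zero_add]
      have o2 : ord v (2 * t / (1 + t) - 1) = ord v (t - 1) - ord v (1 + t) := by
        have e : 2 * t / (1 + t) - 1 = (t - 1) / (1 + t) := by
          field_simp
          ring
        rw [e, ord_div v n1 n2]
      have hw : w3 (2 * t / (1 + t)) v = po (ord v t - ord v (1 + t)) +
          po (ord v (t - 1) - ord v (1 + t)) + po (ord v (1 + t) - ord v t) := by
        unfold w3
        rw [o1, o2, neg_sub]
      have hN : Near t v ↔ (0 < ord v t ∨ 0 < ord v (t - 1) ∨ 0 < ord v (1 + t)) := by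
        unfold Near
        rw [ord_pos_iff v h0, ord_pos_iff v n1, ord_pos_iff v n2, add_comm 1 t]
      show w3 (2 * t / (1 + t)) v ≤ if Near t v then 1 else 0
      rw [hw]
      have hone : ord v (1 : M) = 0 := ord_one v
      rcases lt_trichotomy (ord v t) 0 with ht | ht | ht
      · have a1 := (ord_sub_eq v (y := 1) h0 (Or.inr (by rw [hone]; exact ht))).1
        have a2 := (ord_add_eq v (y := 1) h0 (Or.inr (by rw [hone]; exact ht))).1
        rw [add_comm] at a2
        rw [a1, a2, sub_self, po_nonpos le_rfl]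
        split_ifs <;> norm_num
      · -- `t` is a unit
        have g1 : 0 ≤ ord v (t - 1) := sub_nonneg' v ht.ge hone.ge
        have g2 : 0 ≤ ord v (1 + t) := add_nonneg' v hone.ge ht.ge
        rcases lt_or_ge 0 (ord v (1 + t)) with hc | hc
        · have hb : ord v (t - 1) = 0 := by
            have a1 := (ord_sub_eq v (x := 2) (y := 1 + t) two0
              (Or.inr (by rw [hv2]; exact hc))).1
            have e : (2 : M) - (1 + t) = 1 - t := by ring
            rw [e, hv2, ord_sub_comm] at a1
            exact a1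
          rw [if_pos (hN.2 (Or.inr (Or.inr hc))), ht, hb,
            po_nonpos (n := 0 - ord v (1 + t)) (by omega), zero_add, zero_add]
          exact po_le _
        · have hc0 : ord v (1 + t) = 0 := le_antisymm hc g2
          rw [hc0, ht, sub_zero, sub_zero, po_nonpos le_rfl, zero_add, add_zero]
          rcases lt_or_ge 0 (ord v (t - 1)) with hb | hb
          · rw [if_pos (hN.2 (Or.inr (Or.inl hb)))]
            exact po_le _
          · rw [po_nonpos hb]
            split_ifs <;> norm_num
      · have a1 : ord v (t - 1) = 0 := by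
          have := (ord_sub_eq v (x := 1) (y := t) one_ne_zero
            (Or.inr (by rw [hone]; exact ht))).1
          rw [ord_sub_comm, this, hone]
        have a2 : ord v (1 + t) = 0 := by
          have := (ord_add_eq v (x := 1) (y := t) one_ne_zero
            (Or.inr (by rw [hone]; exact ht))).1
          rw [this, hone]
        rw [if_pos (hN.2 (Or.inl ht)), a1, a2, sub_zero, sub_zero, zero_sub,
          po_nonpos (n := 0) le_rfl, po_nonpos (n := -ord v t) (by omega), add_zero, add_zero]
        exact po_le _)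
    (fun v => by
      have r1 := po_le (ord v (2 * t / (1 + t)))
      have r2 := po_le (ord v (2 * t / (1 + t) - 1))
      have r3 := po_le (-ord v (2 * t / (1 + t)))
      unfold w3
      linarith)
    (fun v => by
      show (0 : ℝ) ≤ if Near t v then 1 else 0
      split_ifs <;> norm_num)
  exact_mod_cast h3

end Pool.Agent.H431.OC
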