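import Pool.Agent.H431.OC.Quad

/-!
# Bad primes, heights, and the inequalities
-/

set_option autoImplicit false

namespace Pool.Agent.H431.OC

open NumberField IsDedekindDomain Height Pool.Agent.Q290.NF IntermediateField

/-- `log |disc M|` -/
noncomputable def DD (M : Type) [Field M] [NumberField M] : ℝ := Real.log |(discr M : ℝ)|

theorem DD_nonneg (M : Type) [Field M] [NumberField M] : 0 ≤ DD M :=
  Pool.Agent.Results.MP_44a246_nt.ThinSetsSuffice.logDisc_nonneg M

/-- the field of a square root -/
theorem exists_quad (M : Type) [Field M] [NumberField M] (a : M) :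
    ∃ (E : Type) (_ : Field E) (_ : NumberField E) (_ : Algebra M E) (x : E),
      x ^ 2 = algebraMap M E a ∧ Module.finrank M E ≤ 2 ∧ M⟮x⟯ = ⊤ := by
  obtain ⟨x, hx⟩ := IsAlgClosed.exists_pow_nat_eq (algebraMap M (AlgebraicClosure M) a)
    (n := 2) (by norm_num)
  obtain ⟨ix, fx⟩ := finrank_simple (l := 2) (by norm_num) x a hx
  let F := M⟮x⟯
  have hF : Module.Finite M F := adjoin.finiteDimensional ix
  have nF : NumberField F := NumberField.of_module_finite M F
  refine ⟨F, inferInstance, nF, inferInstance, AdjoinSimple.gen M x, ?_, fx, gen_top ix⟩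
  apply (algebraMap F (AlgebraicClosure M)).injective
  rw [map_pow, AdjoinSimple.algebraMap_gen, hx, ← IsScalarTower.algebraMap_apply]

section bad

variable {k : Type} [Field k] [NumberField k]

/-- outside the primes dividing `N` the nonzero element `s` is a unit -/
theorem exists_bad1 (s : k) (hs : s ≠ 0) : ∃ N : ℕ, N ≠ 0 ∧
    ∀ (M : Type) [Field M] [NumberField M] [Algebra k M] (v : HeightOneSpectrum (𝓞 M)),
      ord v (N : M) = 0 → ord v (algebraMap k M s) = 0 := by
  have key : ∀ a : 𝓞 k, a ≠ 0 → ∃ N : ℕ, N ≠ 0 ∧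
      ∀ (M : Type) [Field M] [NumberField M] [Algebra k M] (v : HeightOneSpectrum (𝓞 M)),
      ord v (N : M) = 0 → ord v (algebraMap k M (algebraMap (𝓞 k) k a)) = 0 := by
    intro a ha
    refine ⟨Ideal.absNorm (Ideal.span {a}), ?_, ?_⟩
    · rw [Ne, Ideal.absNorm_eq_zero_iff, Ideal.span_singleton_eq_bot]
      exact ha
    · intro M _ _ _ v hv
      have h1 := Ideal.absNorm_mem (Ideal.span {a})
      rw [Ideal.mem_span_singleton'] at h1
      obtain ⟨b, hb⟩ := h1
      have ha0 : algebraMap k M (algebraMap (𝓞 k) k a) ≠ 0 := by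
        rw [(map_ne_zero _)]
        exact fun h => ha ((FaithfulSMul.algebraMap_injective (𝓞 k) k) (by rw [h, map_zero]))
      have hint : ∀ z : 𝓞 k, 0 ≤ ord v (algebraMap k M (algebraMap (𝓞 k) k z)) := by
        intro z
        rw [ord_nonneg_iff]
        have e : algebraMap k M (algebraMap (𝓞 k) k z) =
            algebraMap (𝓞 M) M (algebraMap (𝓞 k) (𝓞 M) z) := by
          rw [← IsScalarTower.algebraMap_apply, ← IsScalarTower.algebraMap_apply]
        rw [e]
        exact v.valuation_le_one (K := M) _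
      have e1 : ((Ideal.absNorm (Ideal.span {a}) : ℕ) : M) =
          algebraMap k M (algebraMap (𝓞 k) k b) * algebraMap k M (algebraMap (𝓞 k) k a) := by
        rw [← map_mul, ← map_mul, hb, map_natCast, map_natCast]
      have hb0 : algebraMap k M (algebraMap (𝓞 k) k b) ≠ 0 := by
        intro h
        rw [h, zero_mul, Nat.cast_eq_zero, Ideal.absNorm_eq_zero_iff,
          Ideal.span_singleton_eq_bot] at e1
        exact ha e1
      rw [e1, ord_mul v hb0 ha0] at hv
      have h2 := hint a
      have h3 := hint b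
      omega
  obtain ⟨a, b, hb, hab⟩ := IsFractionRing.div_surjective (A := 𝓞 k) s
  have hb0 : b ≠ 0 := nonZeroDivisors.ne_zero hb
  have ha0 : a ≠ 0 := by
    rintro rfl
    rw [map_zero, zero_div] at hab
    exact hs hab.symm
  obtain ⟨N1, h1, H1⟩ := key a ha0
  obtain ⟨N2, h2, H2⟩ := key b hb0
  refine ⟨N1 * N2, mul_ne_zero h1 h2, ?_⟩
  intro M _ _ _ v hv
  have n1 : ((N1 : ℕ) : M) ≠ 0 := Nat.cast_ne_zero.2 h1
  have n2 : ((N2 : ℕ) : M) ≠ 0 := Nat.cast_ne_zero.2 h2
  push_cast at hv
  rw [ord_mul v n1 n2] at hv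
  have p1 := nat_nonneg v N1
  have p2 := nat_nonneg v N2
  have q1 := H1 M v (by omega)
  have q2 := H2 M v (by omega)
  have i := FaithfulSMul.algebraMap_injective (𝓞 k) k
  have ha' : algebraMap k M (algebraMap (𝓞 k) k a) ≠ 0 := by
    rw [(map_ne_zero _)]
    exact fun h => ha0 (i (by rw [h, map_zero]))
  have hb' : algebraMap k M (algebraMap (𝓞 k) k b) ≠ 0 := by
    rw [(map_ne_zero _)]
    exact fun h => hb0 (i (by rw [h, map_zero]))
  rw [← hab, map_div₀, ord_div v ha' hb', q1, q2, sub_zero]

/-- outside the primes dividing `N` the nonzero elements of `s` are units and all elements are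
integral -/
theorem exists_bad (s : Finset k) : ∃ N : ℕ, N ≠ 0 ∧
    ∀ (M : Type) [Field M] [NumberField M] [Algebra k M] (v : HeightOneSpectrum (𝓞 M)),
      ord v (N : M) = 0 → ∀ a ∈ s, ord v (algebraMap k M a) = 0 := by
  classical
  induction s using Finset.induction_on with
  | empty => exact ⟨1, one_ne_zero, fun M _ _ _ v _ a ha => absurd ha (Finset.notMem_empty a)⟩
  | insert a s _ ih =>
    obtain ⟨N, hN, H⟩ := ih
    by_cases ha : a = 0
    · refine ⟨N, hN, fun M _ _ _ v hv b hb => ?_⟩
      rcases Finset.mem_insert.1 hb with h | h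
      · rw [h, ha, map_zero, ord_zero]
      · exact H M v hv b h
    · obtain ⟨N1, hN1, H1⟩ := exists_bad1 a ha
      refine ⟨N1 * N, mul_ne_zero hN1 hN, fun M _ _ _ v hv b hb => ?_⟩
      have n1 : ((N1 : ℕ) : M) ≠ 0 := Nat.cast_ne_zero.2 hN1
      have n2 : ((N : ℕ) : M) ≠ 0 := Nat.cast_ne_zero.2 hN
      push_cast at hv
      rw [ord_mul v n1 n2] at hv
      have p1 := nat_nonneg v N1
      have p2 := nat_nonneg v N
      rcases Finset.mem_insert.1 hb with h | h
      · rw [h]
        exact H1 M v (by omega)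
      · exact H M v (by omega) b h

/-- the height of an element of `k` in the fields `M` -/
theorem height_const (s : k) : ∃ C : ℝ, 0 ≤ C ∧
    ∀ (M : Type) [Field M] [NumberField M] [Algebra k M],
      logHeight₁ (algebraMap k M s) ≤ Module.finrank ℚ M * C := by
  refine ⟨logHeight₁ s, zero_le_logHeight₁ _, fun M _ _ _ => ?_⟩
  rw [ht_ext]
  refine mul_le_mul_of_nonneg_right ?_ (zero_le_logHeight₁ _)
  have h := Module.finrank_mul_finrank ℚ k M
  have h1 : 0 < Module.finrank ℚ k := Module.finrank_pos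
  have h2 : Module.finrank k M ≤ Module.finrank ℚ M := by
    rw [← h]
    exact Nat.le_mul_of_pos_left _ h1
  exact_mod_cast h2

end bad

section heights

variable {M : Type} [Field M] [NumberField M]

theorem ht_add (x y : M) : logHeight₁ (x + y) ≤ logHeight₁ x + logHeight₁ y +
    Module.finrank ℚ M * Real.log 2 := by
  have h := logHeight₁_add_le x y
  rw [NumberField.totalWeight_eq_finrank] at h
  linarith

theorem ht_sub (x y : M) : logHeight₁ (x - y) ≤ logHeight₁ x + logHeight₁ y +
    Module.finrank ℚ M * Real.log 2 := by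
  have h := logHeight₁_sub_le x y
  rw [NumberField.totalWeight_eq_finrank] at h
  linarith

theorem ht_mul (x y : M) : logHeight₁ (x * y) ≤ logHeight₁ x + logHeight₁ y :=
  logHeight₁_mul_le x y

theorem ht_div (x y : M) : logHeight₁ (x / y) ≤ logHeight₁ x + logHeight₁ y := by
  rw [div_eq_mul_inv]
  have := logHeight₁_mul_le x y⁻¹
  rwa [logHeight₁_inv] at this

theorem ht_nonneg (x : M) : 0 ≤ logHeight₁ x := zero_le_logHeight₁ _

end heights

end Pool.Agent.H431.OC
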