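import Pool.Agent.H431.OC.Hyp

/-!
# The points of an elliptic curve
-/

set_option autoImplicit false

namespace Pool.Agent.H431.OC

open NumberField IsDedekindDomain Height Pool.Agent.Q290.NF IntermediateField

section algebra

variable {F : Type} [Field F]

/-- the third point on a line through the point with the coordinates `(0, σ)` -/
theorem third (T w σ s p y : F) (hT : T ≠ 0) (hw : w ^ 2 = T ^ 3 + s * T ^ 2 + p * T + σ ^ 2)
    (hy : T ^ 2 * y = p * T + 2 * σ ^ 2 - 2 * σ * w) :
    y ^ 3 + s * y ^ 2 + p * y + σ ^ 2 = (σ + (w - σ) / T * y) ^ 2 := by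
  obtain ⟨m, hm⟩ : ∃ m : F, m = (w - σ) / T := ⟨_, rfl⟩
  have hmT : m * T = w - σ := by
    rw [hm]
    field_simp
  rw [← hm]
  have h1 : T * y = p - 2 * σ * m := by
    apply mul_left_cancel₀ hT
    linear_combination hy + 2 * σ * hmT
  have h2 : m ^ 2 = T + s + y := by
    apply mul_left_cancel₀ (pow_ne_zero 2 hT)
    linear_combination (m * T + w - σ) * hmT + hw - hy
  linear_combination -y * h1 - y ^ 2 * h2

/-- the product of the two values -/
theorem prod_pair (T w σ s p y z : F) (hT : T ≠ 0)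
    (hw : w ^ 2 = T ^ 3 + s * T ^ 2 + p * T + σ ^ 2)
    (hy : T ^ 2 * y = p * T + 2 * σ ^ 2 - 2 * σ * w)
    (hz : T ^ 2 * z = p * T + 2 * σ ^ 2 + 2 * σ * w) :
    T ^ 2 * (y * z) = p ^ 2 - 4 * σ ^ 2 * (T + s) := by
  apply mul_left_cancel₀ (pow_ne_zero 2 hT)
  linear_combination (T ^ 2 * z) * hy + (p * T + 2 * σ ^ 2 - 2 * σ * w) * hz - 4 * σ ^ 2 * hw

end algebra

section loc

variable {M : Type} [Field M] [NumberField M] (v : HeightOneSpectrum (𝓞 M))

theorem le_ord_mul {a b : M} (hb : b ≠ 0) (ha : 0 ≤ ord v a) :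
    a * b = 0 ∨ ord v b ≤ ord v (a * b) := by
  by_cases h : a = 0
  · left
    rw [h, zero_mul]
  · right
    rw [ord_mul v h hb]
    omega

/-- **the local inequality for the two points** -/
theorem loc_pair {x w y z μ s p σ β : M} (h2 : ord v (2 : M) = 0) (hσ0 : σ ≠ 0)
    (hσ : ord v σ = 0) (hp : 0 ≤ ord v p) (hs : 0 ≤ ord v s) (hμ : 0 ≤ ord v μ) (hT : x - μ ≠ 0)
    (hw : w ^ 2 = (x - μ) ^ 3 + s * (x - μ) ^ 2 + p * (x - μ) + σ ^ 2)
    (hy : (x - μ) ^ 2 * y = p * (x - μ) + 2 * σ ^ 2 - 2 * σ * w)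
    (hz : (x - μ) ^ 2 * z = p * (x - μ) + 2 * σ ^ 2 + 2 * σ * w)
    (hyz : (x - μ) ^ 2 * (y * z) = -(4 * σ ^ 2) * (x - β)) (hβ : x - β ≠ 0) :
    om 2 (ord v y) + om 2 (ord v z) ≤ 2 * om 4 (-ord v x) +
      1 / 2 * max 0 (ord v (x - β) : ℝ) := by
  have two0 : (2 : M) ≠ 0 := two_ne_zero
  rcases lt_or_ge (ord v x) 0 with hneg | hge
  · have hx0 : x ≠ 0 := by
      rintro rfl
      rw [ord_zero] at hneg
      exact lt_irrefl _ hneg
    have hTx : ord v (x - μ) = ord v x :=
      (ord_sub_eq v hx0 (Or.inr (lt_of_lt_of_le hneg hμ))).1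
    obtain ⟨T, hTd⟩ : ∃ T, T = x - μ := ⟨_, rfl⟩
    rw [← hTd] at hT hw hy hz hyz hTx
    obtain ⟨t, ht⟩ : ∃ t, t = ord v x := ⟨_, rfl⟩
    rw [← ht] at hneg hTx ⊢
    have hT2 : ord v (T ^ 2) = 2 * t := by rw [ord_pow, hTx]; rfl
    have hT3 : ord v (T ^ 3) = 3 * t := by rw [ord_pow, hTx]; rfl
    have hσ2 : ord v (σ ^ 2) = 0 := by rw [ord_pow, hσ, mul_zero]
    have hw2 : ord v (w ^ 2) = 3 * t ∧ w ^ 2 ≠ 0 := by
      have h1 : s * T ^ 2 + p * T + σ ^ 2 = 0 ∨ 2 * t ≤ ord v (s * T ^ 2 + p * T + σ ^ 2) := by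
        refine le_ord_add v (le_ord_add v ?_ ?_) ?_
        · have := le_ord_mul v (pow_ne_zero 2 hT) hs
          rwa [hT2] at this
        · rcases le_ord_mul v hT hp with h | h
          · exact Or.inl h
          · right
            omega
        · right
          omega
      have h3 := ord_add_eq v (x := T ^ 3) (y := s * T ^ 2 + p * T + σ ^ 2)
        (pow_ne_zero 3 hT) (by
          rcases h1 with h1 | h1
          · exact Or.inl h1
          · right
            omega)
      have e : T ^ 3 + (s * T ^ 2 + p * T + σ ^ 2) = w ^ 2 := by rw [hw]; ring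
      rw [e, hT3] at h3
      exact h3
    have hw0 : w ≠ 0 := fun h => hw2.2 (by rw [h]; ring)
    have hwo : 2 * ord v w = 3 * t := by
      have := hw2.1
      rw [ord_pow] at this
      exact this
    have hB0 : 2 * σ * w ≠ 0 := mul_ne_zero (mul_ne_zero two0 hσ0) hw0
    have hBo : ord v (2 * σ * w) = ord v w := by
      rw [ord_mul v (mul_ne_zero two0 hσ0) hw0, ord_mul v two0 hσ0, h2, hσ]
      ring
    have hA : p * T + 2 * σ ^ 2 = 0 ∨ t ≤ ord v (p * T + 2 * σ ^ 2) := by
      refine le_ord_add v ?_ ?_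
      · have := le_ord_mul v hT hp
        rwa [hTx] at this
      · right
        rw [ord_mul v two0 (pow_ne_zero 2 hσ0), h2, hσ2]
        omega
    have key : ∀ u : M, (T ^ 2 * u = p * T + 2 * σ ^ 2 - 2 * σ * w ∨
        T ^ 2 * u = p * T + 2 * σ ^ 2 + 2 * σ * w) → om 2 (ord v u) = om 4 (-t) := by
      intro u hu
      have h3 : ord v (T ^ 2 * u) = ord v w ∧ T ^ 2 * u ≠ 0 := by
        rcases hu with hu | hu
        · have h4 := ord_sub_eq v (x := 2 * σ * w) (y := p * T + 2 * σ ^ 2) hB0 (by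
            rcases hA with h | h
            · exact Or.inl h
            · right
              rw [hBo]
              omega)
          rw [hu]
          refine ⟨?_, ?_⟩
          · rw [ord_sub_comm, h4.1, hBo]
          · intro h
            apply h4.2
            linear_combination -h
        · have h4 := ord_add_eq v (x := 2 * σ * w) (y := p * T + 2 * σ ^ 2) hB0 (by
            rcases hA with h | h
            · exact Or.inl h
            · right
              rw [hBo]
              omega)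
          rw [hu, add_comm]
          rw [hBo] at h4
          exact h4
      have hu0 : u ≠ 0 := fun h => h3.2 (by rw [h, mul_zero])
      have h5 := h3.1
      rw [ord_mul v (pow_ne_zero 2 hT) hu0, hT2] at h5
      have h6 : -t = 2 * ord v u := by omega
      rw [h6]
      exact (om_double (r := 2) two_ne_zero (ord v u)).symm
    rw [key y (Or.inl hy), key z (Or.inr hz)]
    have := le_max_left (0 : ℝ) (ord v (x - β) : ℝ)
    linarith
  · -- `x` is integral
    obtain ⟨T, hTd⟩ : ∃ T, T = x - μ := ⟨_, rfl⟩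
    have hTo : 0 ≤ ord v T := by
      rw [hTd]
      exact sub_nonneg' v hge hμ
    rw [← hTd] at hT hw hy hz hyz
    have hwo : 0 ≤ ord v w := by
      have h1 : 0 ≤ ord v (w ^ 2) := by
        rw [hw]
        refine add_nonneg' v (add_nonneg' v (add_nonneg' v (pow_nonneg' v hTo 3)
          (mul_nonneg' v hs (pow_nonneg' v hTo 2))) (mul_nonneg' v hp hTo))
          (pow_nonneg' v hσ.ge 2)
      rw [ord_pow] at h1
      push_cast at h1
      omega
    have hA : 0 ≤ ord v (p * T + 2 * σ ^ 2) :=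
      add_nonneg' v (mul_nonneg' v hp hTo) (mul_nonneg' v h2.ge (pow_nonneg' v hσ.ge 2))
    have hB : 0 ≤ ord v (2 * σ * w) := mul_nonneg' v (mul_nonneg' v h2.ge hσ.ge) hwo
    have hyz0 : y * z ≠ 0 := by
      intro h
      rw [h, mul_zero] at hyz
      have : -(4 * σ ^ 2) * (x - β) ≠ 0 := by
        refine mul_ne_zero (neg_ne_zero.2 (mul_ne_zero (by norm_num) (pow_ne_zero 2 hσ0))) hβ
      exact this hyz.symm
    have hy0 : y ≠ 0 := left_ne_zero_of_mul hyz0
    have hz0 : z ≠ 0 := right_ne_zero_of_mul hyz0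
    have hyo : 0 ≤ 2 * ord v T + ord v y := by
      have h1 : 0 ≤ ord v (T ^ 2 * y) := by
        rw [hy]
        exact sub_nonneg' v hA hB
      rw [ord_mul v (pow_ne_zero 2 hT) hy0, ord_pow] at h1
      exact_mod_cast h1
    have hzo : 0 ≤ 2 * ord v T + ord v z := by
      have h1 : 0 ≤ ord v (T ^ 2 * z) := by
        rw [hz]
        exact add_nonneg' v hA hB
      rw [ord_mul v (pow_ne_zero 2 hT) hz0, ord_pow] at h1
      exact_mod_cast h1
    have h4 : ord v (4 : M) = 0 := by
      have e : (4 : M) = 2 ^ 2 := by norm_num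
      rw [e, ord_pow, h2, mul_zero]
    have hsum : ord v (x - β) = 2 * ord v T + ord v y + ord v z := by
      have h5 : ord v (T ^ 2 * (y * z)) = ord v (x - β) := by
        rw [hyz, ord_mul v (neg_ne_zero.2 (mul_ne_zero (by norm_num) (pow_ne_zero 2 hσ0))) hβ,
          ord_neg, ord_mul v (by norm_num) (pow_ne_zero 2 hσ0), h4, ord_pow, hσ]
        ring
      rw [← h5, ord_mul v (pow_ne_zero 2 hT) hyz0, ord_mul v hy0 hz0, ord_pow]
      push_cast
      ring
    have hom : 0 ≤ om 4 (-ord v x) := om_nonneg (by norm_num) _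
    have hsum' : (ord v (x - β) : ℝ) = 2 * (ord v T : ℝ) + ord v y + ord v z := by
      rw [hsum]
      push_cast
      ring
    have hTo' : (0 : ℝ) ≤ ord v T := by exact_mod_cast hTo
    have hyo' : (0 : ℝ) ≤ 2 * (ord v T : ℝ) + ord v y := by exact_mod_cast hyo
    have hzo' : (0 : ℝ) ≤ 2 * (ord v T : ℝ) + ord v z := by exact_mod_cast hzo
    rw [hsum']
    have hm : 2 * (ord v T : ℝ) + ord v y + ord v z ≤
      max 0 (2 * (ord v T : ℝ) + ord v y + ord v z) := le_max_right _ _
    have hm0 : (0 : ℝ) ≤ max 0 (2 * (ord v T : ℝ) + ord v y + ord v z) := le_max_left _ _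
    rcases le_or_gt (ord v y) 0 with h6 | h6
    · rw [om_nonpos 2 h6]
      rcases le_or_gt (ord v z) 0 with h7 | h7
      · rw [om_nonpos 2 h7]
        linarith
      · have h8 := om_two_le (ord v z)
        rw [max_eq_right (by exact_mod_cast h7.le)] at h8
        linarith
    · have h9 := om_two_le (ord v y)
      rw [max_eq_right (by exact_mod_cast h6.le)] at h9
      rcases le_or_gt (ord v z) 0 with h7 | h7
      · rw [om_nonpos 2 h7]
        linarith
      · have h8 := om_two_le (ord v z)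
        rw [max_eq_right (by exact_mod_cast h7.le)] at h8
        linarith

end loc

end Pool.Agent.H431.OC
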