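import Pool.Agent.H431.OC.Ell

/-!
# From the points of an elliptic curve to an orbifold line
-/

set_option autoImplicit false

namespace Pool.Agent.H431.OC

open NumberField IsDedekindDomain Height Pool.Agent.Q290.NF IntermediateField

variable {k : Type} [Field k] [NumberField k]

/-- **the second step**: the points with `(x - e₁) (x - e₂) (x - e₃)` a square, and the poles -/
theorem E1 {e1 e2 e3 mu sig : k} (hsig : sig ^ 2 = (mu - e1) * (mu - e2) * (mu - e3))
    (hs0 : sig ≠ 0)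
    (h : ∀ (ν : ℕ) (ε : ℝ), 0 < ε → ∃ C : ℝ, 0 ≤ C ∧
    ∀ (M : Type) [Field M] [NumberField M] [Algebra k M], Module.finrank ℚ M ≤ ν → ∀ X L : M,
      (X - algebraMap k M e1) * (X - algebraMap k M e2) * (X - algebraMap k M e3) = L ^ 2 →
      (1 / 2 - ε) * logHeight₁ X ≤ DD M + sm (fun v => om 2 (ord v (X - algebraMap k M mu))) +
        Module.finrank ℚ M * C) :
    ∀ (ν : ℕ) (ε : ℝ), 0 < ε → ∃ C : ℝ, 0 ≤ C ∧
    ∀ (M : Type) [Field M] [NumberField M] [Algebra k M], Module.finrank ℚ M ≤ ν → ∀ x w : M,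
      (x - algebraMap k M e1) * (x - algebraMap k M e2) * (x - algebraMap k M e3) = w ^ 2 →
      (1 / 4 - ε) * logHeight₁ x ≤ DD M + sm (fun v => om 4 (-ord v x)) +
        Module.finrank ℚ M * C := by
  classical
  intro ν ε hε
  by_cases hε1 : 1 / 4 ≤ ε
  · refine ⟨0, le_rfl, fun M _ _ _ hM x w hw => ?_⟩
    have h1 := DD_nonneg M
    have h2 : 0 ≤ sm (fun v : HeightOneSpectrum (𝓞 M) => om 4 (-ord v x)) :=
      sm_nonneg fun v => om_nonneg (by norm_num) _
    have h3 : (1 / 4 - ε) * logHeight₁ x ≤ 0 :=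
      mul_nonpos_of_nonpos_of_nonneg (by linarith) (ht_nonneg x)
    linarith
  rw [not_le] at hε1
  obtain ⟨C, hC, H⟩ := h ν ε hε
  obtain ⟨s, hs⟩ : ∃ s : k, s = 3 * mu - e1 - e2 - e3 := ⟨_, rfl⟩
  obtain ⟨p, hp⟩ : ∃ p : k, p = (mu - e1) * (mu - e2) + (mu - e1) * (mu - e3) +
    (mu - e2) * (mu - e3) := ⟨_, rfl⟩
  obtain ⟨β, hβ⟩ : ∃ β : k, β = (p / (2 * sig)) ^ 2 + mu - s := ⟨_, rfl⟩
  obtain ⟨N, hN, HN⟩ := exists_bad ({2, sig, p, s, mu} : Finset k)
  have two0 : (2 : k) ≠ 0 := two_ne_zero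
  obtain ⟨Cp, hCp, Hp⟩ := ht_pair (4 * sig ^ 2) (2 * p) (mu - β)
    (mul_ne_zero (by norm_num) (pow_ne_zero 2 hs0))
  obtain ⟨Cm, hCm, Hm⟩ := ht_shift mu
  obtain ⟨Cb, hCb, Hb⟩ := ht_shift β
  obtain ⟨Km, hKm, HKm⟩ := height_const mu
  obtain ⟨Kb, hKb, HKb⟩ := height_const β
  have hlN : 0 ≤ Real.log N := Real.log_natCast_nonneg _
  refine ⟨C + Real.log N + Cb + Cp + 4 * Cm + Km + Kb, by positivity, ?_⟩
  intro M _ _ _ hM x w hw
  have hd : (0 : ℝ) ≤ Module.finrank ℚ M := Nat.cast_nonneg _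
  have hDD := DD_nonneg M
  have hsm0 : 0 ≤ sm (fun v : HeightOneSpectrum (𝓞 M) => om 4 (-ord v x)) :=
    sm_nonneg fun v => om_nonneg (by norm_num) _
  have hsplit : (Module.finrank ℚ M : ℝ) * (C + Real.log N + Cb + Cp + 4 * Cm + Km + Kb) =
      Module.finrank ℚ M * C + Module.finrank ℚ M * Real.log N + Module.finrank ℚ M * Cb +
      Module.finrank ℚ M * Cp + 4 * (Module.finrank ℚ M * Cm) + Module.finrank ℚ M * Km +
      Module.finrank ℚ M * Kb := by ring
  rw [hsplit]
  have q1 : 0 ≤ Module.finrank ℚ M * C := mul_nonneg hd hC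
  have q2 : 0 ≤ Module.finrank ℚ M * Real.log N := mul_nonneg hd hlN
  have q3 : 0 ≤ Module.finrank ℚ M * Cb := mul_nonneg hd hCb
  have q4 : 0 ≤ Module.finrank ℚ M * Cp := mul_nonneg hd hCp
  have q5 : 0 ≤ Module.finrank ℚ M * Cm := mul_nonneg hd hCm
  have q6 : 0 ≤ Module.finrank ℚ M * Km := mul_nonneg hd hKm
  have q7 : 0 ≤ Module.finrank ℚ M * Kb := mul_nonneg hd hKb
  have hhx := ht_nonneg x
  by_cases hxm : x = algebraMap k M mu
  · have h1 := HKm M
    rw [← hxm] at h1
    have h2 : (1 / 4 - ε) * logHeight₁ x ≤ 1 * logHeight₁ x :=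
      mul_le_mul_of_nonneg_right (by linarith) hhx
    linarith
  by_cases hxb : x = algebraMap k M β
  · have h1 := HKb M
    rw [← hxb] at h1
    have h2 : (1 / 4 - ε) * logHeight₁ x ≤ 1 * logHeight₁ x :=
      mul_le_mul_of_nonneg_right (by linarith) hhx
    linarith
  -- the elements of `M`
  obtain ⟨μ', hμ'⟩ : ∃ μ' : M, μ' = algebraMap k M mu := ⟨_, rfl⟩
  obtain ⟨σ', hσ'⟩ : ∃ σ' : M, σ' = algebraMap k M sig := ⟨_, rfl⟩
  obtain ⟨s', hs'⟩ : ∃ s' : M, s' = algebraMap k M s := ⟨_, rfl⟩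
  obtain ⟨p', hp'⟩ : ∃ p' : M, p' = algebraMap k M p := ⟨_, rfl⟩
  obtain ⟨β', hβ'⟩ : ∃ β' : M, β' = algebraMap k M β := ⟨_, rfl⟩
  obtain ⟨a1, ha1⟩ : ∃ a1 : M, a1 = algebraMap k M e1 := ⟨_, rfl⟩
  obtain ⟨a2, ha2⟩ : ∃ a2 : M, a2 = algebraMap k M e2 := ⟨_, rfl⟩
  obtain ⟨a3, ha3⟩ : ∃ a3 : M, a3 = algebraMap k M e3 := ⟨_, rfl⟩
  have two0' : (2 : M) ≠ 0 := two_ne_zero
  have hσ0 : σ' ≠ 0 := by
    rw [hσ']
    exact (map_ne_zero _).2 hs0
  have es : s' = 3 * μ' - a1 - a2 - a3 := by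
    rw [hs', hs, hμ', ha1, ha2, ha3, map_sub, map_sub, map_sub, map_mul, map_ofNat]
  have ep : p' = (μ' - a1) * (μ' - a2) + (μ' - a1) * (μ' - a3) + (μ' - a2) * (μ' - a3) := by
    rw [hp', hp, hμ', ha1, ha2, ha3]
    simp only [map_sub, map_mul, map_add]
  have eσ : σ' ^ 2 = (μ' - a1) * (μ' - a2) * (μ' - a3) := by
    rw [hσ', hμ', ha1, ha2, ha3, ← map_pow, hsig]
    simp only [map_sub, map_mul]
  have eβ : β' = (p' / (2 * σ')) ^ 2 + μ' - s' := by
    rw [hβ', hβ, hs', hσ', hμ', hp', map_sub, map_add, map_pow, map_div₀, map_mul, map_ofNat]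
  rw [← ha1, ← ha2, ← ha3] at hw
  rw [← hμ'] at hxm
  rw [← hβ'] at hxb
  obtain ⟨T, hTd⟩ : ∃ T, T = x - μ' := ⟨_, rfl⟩
  have hT : T ≠ 0 := by
    rw [hTd]
    exact sub_ne_zero.2 hxm
  have hxT : x = T + μ' := by rw [hTd]; ring
  have hw' : w ^ 2 = T ^ 3 + s' * T ^ 2 + p' * T + σ' ^ 2 := by
    rw [← hw, hxT, eσ, ep, es]
    ring
  obtain ⟨y, hy⟩ : ∃ y, y = (p' * T + 2 * σ' ^ 2 - 2 * σ' * w) / T ^ 2 := ⟨_, rfl⟩
  obtain ⟨z, hz⟩ : ∃ z, z = (p' * T + 2 * σ' ^ 2 + 2 * σ' * w) / T ^ 2 := ⟨_, rfl⟩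
  have hy' : T ^ 2 * y = p' * T + 2 * σ' ^ 2 - 2 * σ' * w := by
    rw [hy]
    field_simp
  have hz' : T ^ 2 * z = p' * T + 2 * σ' ^ 2 + 2 * σ' * w := by
    rw [hz]
    field_simp
  have hyz := prod_pair T w σ' s' p' y z hT hw' hy' hz'
  have hcub : ∀ u : M, (μ' + u - a1) * (μ' + u - a2) * (μ' + u - a3) =
      u ^ 3 + s' * u ^ 2 + p' * u + σ' ^ 2 := by
    intro u
    rw [eσ, ep, es]
    ring
  have hL1 := third T w σ' s' p' y hT hw' hy'
  have hL2 := third T w (-σ') s' p' z hT (by rw [hw']; ring) (by rw [hz']; ring)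
  have hyz' : T ^ 2 * (y * z) = -(4 * σ' ^ 2) * (x - β') := by
    rw [hyz, eβ, hxT]
    field_simp
    ring
  have H1 := H M hM (μ' + y) (σ' + (w - σ') / T * y) (by
    rw [← ha1, ← ha2, ← ha3, hcub, hL1])
  have H2 := H M hM (μ' + z) (-σ' + (w - -σ') / T * z) (by
    rw [← ha1, ← ha2, ← ha3, hcub, ← hL2]
    ring)
  rw [← hμ'] at H1 H2
  have e1' : μ' + y - μ' = y := by ring
  have e2' : μ' + z - μ' = z := by ring
  rw [e1'] at H1
  rw [e2'] at H2
  -- heights
  have P1 := Hp M T y z hT (by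
    rw [map_mul, map_mul, map_pow, ← hσ', ← hp', map_ofNat, map_ofNat]
    linear_combination hy' + hz') (by
    rw [map_mul, map_pow, map_sub, ← hσ', ← hμ', ← hβ', map_ofNat, hyz', hxT]
    ring)
  have P2 := (Hm M (μ' + y)).2
  have P3 := (Hm M (μ' + z)).2
  rw [← hμ', e1'] at P2
  rw [← hμ', e2'] at P3
  have P4 := (Hm M x).1
  rw [← hμ', ← hTd] at P4
  have P5 := (Hb M x).2
  rw [← hβ'] at P5
  -- the weights
  have hS : (Function.support fun v : HeightOneSpectrum (𝓞 M) =>
      2 * om 4 (-ord v x) + 1 / 2 * max 0 (ord v (x - β') : ℝ)).Finite :=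
    supp_add (supp_smul 2 (supp_om' 4 x)) (supp_smul _ (supp_zeros _))
  have S1 := sm_le_bad (M := M) hN (B := 2) (by norm_num)
    (g := fun v => om 2 (ord v y) + om 2 (ord v z))
    (h := fun v => 2 * om 4 (-ord v x) + 1 / 2 * max 0 (ord v (x - β') : ℝ))
    (supp_add (supp_om 2 y) (supp_om 2 z)) hS (fun v hv => by
      have hb := HN M v hv
      have b2 := hb 2 (by simp)
      have bσ := hb sig (by simp)
      have bp := hb p (by simp)
      have bs := hb s (by simp)
      have bμ := hb mu (by simp)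
      rw [map_ofNat] at b2
      rw [← hσ'] at bσ
      rw [← hp'] at bp
      rw [← hs'] at bs
      rw [← hμ'] at bμ
      rw [hTd] at hw' hy' hz' hyz' hT
      exact loc_pair v b2 hσ0 bσ bp.ge bs.ge bμ.ge hT hw' hy' hz' hyz' (sub_ne_zero.2 hxb))
    (fun v => by
      have r1 := om_le_one 2 (ord v y)
      have r2 := om_le_one 2 (ord v z)
      linarith)
    (fun v => by
      have r1 := om_nonneg (m := 4) (by norm_num) (-ord v x)
      have r2 := le_max_left (0 : ℝ) (ord v (x - β') : ℝ)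
      linarith)
  rw [sm_add (supp_om 2 y) (supp_om 2 z), sm_add (supp_smul 2 (supp_om' 4 x))
    (supp_smul _ (supp_zeros _)), sm_smul, sm_smul] at S1
  have S2 := zeros_le (x - β')
  -- the end
  have F1 : (1 / 2 - ε) * (logHeight₁ (μ' + y) + logHeight₁ (μ' + z)) ≥
      (1 / 2 - ε) * (2 * logHeight₁ x - (Module.finrank ℚ M * Cp + 4 * (Module.finrank ℚ M * Cm)))
      := by
    refine mul_le_mul_of_nonneg_left ?_ (by linarith)
    linarith
  have F2 : (1 / 2 - ε) * (Module.finrank ℚ M * Cp + 4 * (Module.finrank ℚ M * Cm)) ≤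
      1 * (Module.finrank ℚ M * Cp + 4 * (Module.finrank ℚ M * Cm)) :=
    mul_le_mul_of_nonneg_right (by linarith) (by positivity)
  nlinarith

/-- **the third step**: all points of the line -/
theorem E2 {e1 e2 e3 : k}
    (h : ∀ (ν : ℕ) (ε : ℝ), 0 < ε → ∃ C : ℝ, 0 ≤ C ∧
    ∀ (M : Type) [Field M] [NumberField M] [Algebra k M], Module.finrank ℚ M ≤ ν → ∀ x w : M,
      (x - algebraMap k M e1) * (x - algebraMap k M e2) * (x - algebraMap k M e3) = w ^ 2 →
      (1 / 4 - ε) * logHeight₁ x ≤ DD M + sm (fun v => om 4 (-ord v x)) +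
        Module.finrank ℚ M * C) :
    ∀ (ν : ℕ) (ε : ℝ), 0 < ε → ∃ C : ℝ, 0 ≤ C ∧
    ∀ (M : Type) [Field M] [NumberField M] [Algebra k M], Module.finrank ℚ M ≤ ν → ∀ x : M,
      (1 / 4 - ε) * logHeight₁ x ≤ DD M + sm (fun v => om 4 (-ord v x) +
        om 2 (ord v (x - algebraMap k M e1)) + om 2 (ord v (x - algebraMap k M e2)) +
        om 2 (ord v (x - algebraMap k M e3))) + Module.finrank ℚ M * C := by
  classical
  intro ν ε hε
  obtain ⟨C, hC, H⟩ := h (ν * 2) ε hε
  obtain ⟨N, hN, HN⟩ := exists_bad ({e1, e2, e3} : Finset k)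
  have hl : 0 ≤ Real.log 2 := Real.log_nonneg (by norm_num)
  have hlN : 0 ≤ Real.log N := Real.log_natCast_nonneg _
  refine ⟨C + Real.log N + 3 * Real.log 2, by positivity, ?_⟩
  intro M _ _ _ hM x
  have hd : (0 : ℝ) ≤ Module.finrank ℚ M := Nat.cast_nonneg _
  obtain ⟨a1, ha1⟩ : ∃ a1 : M, a1 = algebraMap k M e1 := ⟨_, rfl⟩
  obtain ⟨a2, ha2⟩ : ∃ a2 : M, a2 = algebraMap k M e2 := ⟨_, rfl⟩
  obtain ⟨a3, ha3⟩ : ∃ a3 : M, a3 = algebraMap k M e3 := ⟨_, rfl⟩
  rw [← ha1, ← ha2, ← ha3]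
  obtain ⟨g0, hg0⟩ : ∃ g0 : HeightOneSpectrum (𝓞 M) → ℝ, g0 = fun v => om 4 (-ord v x) +
        om 2 (ord v (x - a1)) + om 2 (ord v (x - a2)) + om 2 (ord v (x - a3)) := ⟨_, rfl⟩
  rw [← hg0]
  have hg0s : (Function.support g0).Finite := by
    rw [hg0]
    exact supp_add (supp_add (supp_add (supp_om' 4 x) (supp_om 2 _)) (supp_om 2 _)) (supp_om 2 _)
  have hg04 : ∀ v, om 4 (-ord v x) ≤ g0 v := by
    intro v
    rw [hg0]
    have r1 := om_nonneg two_ne_zero (ord v (x - a1))
    have r2 := om_nonneg two_ne_zero (ord v (x - a2))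
    have r3 := om_nonneg two_ne_zero (ord v (x - a3))
    show _ ≤ om 4 (-ord v x) + om 2 (ord v (x - a1)) + om 2 (ord v (x - a2)) +
      om 2 (ord v (x - a3))
    linarith
  have hg00 : ∀ v, 0 ≤ g0 v := fun v => (om_nonneg (by norm_num) _).trans (hg04 v)
  obtain ⟨a, ha⟩ : ∃ a : M, a = (x - a1) * (x - a2) * (x - a3) := ⟨_, rfl⟩
  have q1 : 0 ≤ Module.finrank ℚ M * C := mul_nonneg hd hC
  have q2 : 0 ≤ Module.finrank ℚ M * Real.log N := mul_nonneg hd hlN
  have q3 : 0 ≤ Module.finrank ℚ M * Real.log 2 := mul_nonneg hd hl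
  by_cases ha0 : a = 0
  · have h1 := H M (hM.trans (Nat.le_mul_of_pos_right _ (by norm_num))) x 0 (by
      rw [← ha1, ← ha2, ← ha3, ← ha, ha0]
      ring)
    have h2 : sm (fun v : HeightOneSpectrum (𝓞 M) => om 4 (-ord v x)) ≤ sm g0 :=
      sm_mono (supp_om' 4 x) hg0s hg04
    have e : (Module.finrank ℚ M : ℝ) * (C + Real.log N + 3 * Real.log 2) =
      Module.finrank ℚ M * C + Module.finrank ℚ M * Real.log N +
      3 * (Module.finrank ℚ M * Real.log 2) := by ring
    rw [e]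
    linarith
  obtain ⟨E, i1, i2, i3, z, hz, hdeg, hadj⟩ := exists_quad M a
  let _ : Algebra k E := ((algebraMap M E).comp (algebraMap k M)).toAlgebra
  have htow : ∀ u : k, algebraMap k E u = algebraMap M E (algebraMap k M u) := fun u => rfl
  obtain ⟨n, hn⟩ : ∃ n : ℝ, n = (Module.finrank M E : ℝ) := ⟨_, rfl⟩
  have hn1 : 1 ≤ n := by
    rw [hn]
    exact_mod_cast Module.finrank_pos (R := M) (M := E)
  have hdE : (Module.finrank ℚ E : ℝ) = Module.finrank ℚ M * n := by
    rw [hn]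
    exact_mod_cast (Module.finrank_mul_finrank ℚ M E).symm
  have hνE : Module.finrank ℚ E ≤ ν * 2 := by
    rw [← Module.finrank_mul_finrank ℚ M E]
    exact Nat.mul_le_mul hM hdeg
  have h1 := H E hνE (algebraMap M E x) z (by
    rw [hz, ha, ha1, ha2, ha3, htow, htow, htow, ← map_sub, ← map_sub, ← map_sub, ← map_mul,
      ← map_mul])
  have hp1 : x - a1 ≠ 0 := by
    intro h0
    apply ha0
    rw [ha, h0]
    ring
  have hp2 : x - a2 ≠ 0 := by
    intro h0
    apply ha0
    rw [ha, h0]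
    ring
  have hp3 : x - a3 ≠ 0 := by
    intro h0
    apply ha0
    rw [ha, h0]
    ring
  have horda : ∀ v : HeightOneSpectrum (𝓞 M), ord v a = ord v (x - a1) + ord v (x - a2) +
      ord v (x - a3) := by
    intro v
    rw [ha, ord_mul v (mul_ne_zero hp1 hp2) hp3, ord_mul v hp1 hp2]
  have hNs := supp_zeros (K := M) (N : M)
  have h2 := quad_ineq (k := M) (F := E) z a ha0 hz hadj (B := 1) zero_le_one
    (fun w => om 4 (-ord w (algebraMap M E x)))
    (fun v => g0 v + max 0 (ord v (N : M) : ℝ)) (supp_om' 4 _) (supp_add hg0s hNs)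
    (fun w => om_nonneg (by norm_num) _) (fun w => om_le_one _ _)
    (fun v => add_nonneg (hg00 v) (le_max_left _ _)) (by
      intro v w e he hv2 hvw
      have hmx := le_max_left (0 : ℝ) (ord v (N : M) : ℝ)
      have ew : -ord w (algebraMap M E x) = (e : ℤ) * (-ord v x) := by
        rw [hvw]
        ring
      have he1 : (1 : ℝ) ≤ e := by exact_mod_cast Nat.one_le_iff_ne_zero.2 he
      refine ⟨fun _ => ?_, fun ho he2 => ?_⟩
      · rw [ew]
        have h3 := om_mul_le (r := 4) (by norm_num) he (-ord v x)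
        have h4 := hg04 v
        have h5 := hg00 v
        nlinarith
      · by_cases hvN : ord v (N : M) = 0
        · have hb := HN M v hvN
          have b1 := hb e1 (by simp)
          have b2 := hb e2 (by simp)
          have b3 := hb e3 (by simp)
          rw [← ha1] at b1
          rw [← ha2] at b2
          rw [← ha3] at b3
          rw [horda] at ho
          have r1 := om_nonneg two_ne_zero (ord v (x - a1))
          have r2 := om_nonneg two_ne_zero (ord v (x - a2))
          have r3 := om_nonneg two_ne_zero (ord v (x - a3))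
          have r4 := om_nonneg (m := 4) (by norm_num) (-ord v x)
          have hgv : g0 v = om 4 (-ord v x) + om 2 (ord v (x - a1)) + om 2 (ord v (x - a2)) +
            om 2 (ord v (x - a3)) := by rw [hg0]
          rw [ew, he2]
          rcases lt_or_ge (ord v x) 0 with hneg | hge
          · have hx0 : x ≠ 0 := by
              rintro rfl
              rw [ord_zero] at hneg
              exact lt_irrefl _ hneg
            have hsub : ∀ b : M, ord v b = 0 → ord v (x - b) = ord v x := fun b hb' =>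
              (ord_sub_eq v hx0 (Or.inr (by rw [hb']; exact hneg))).1
            rw [hsub _ b1, hsub _ b2, hsub _ b3] at ho
            have ho' : Odd (-ord v x) := by
              rw [Int.odd_iff] at ho ⊢
              omega
            have h5 := om_odd (r := 2) two_ne_zero (n := -ord v x) (by omega) ho'
            have h6 : om 4 (((2 : ℕ) : ℤ) * -ord v x) = om 2 (-ord v x) :=
              om_double (r := 2) two_ne_zero (-ord v x)
            rw [h6]
            have h7 : om (2 * 2) (-ord v x) = om 4 (-ord v x) := rfl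
            rw [h7] at h5
            linarith
          · have hsub : ∀ b : M, ord v b = 0 → 0 ≤ ord v (x - b) := fun b hb' =>
              sub_nonneg' v hge hb'.ge
            have g1 := hsub _ b1
            have g2 := hsub _ b2
            have g3 := hsub _ b3
            have h6 : om 4 (((2 : ℕ) : ℤ) * -ord v x) = 0 := om_nonpos _ (by omega)
            rw [h6]
            have h7 : Odd (ord v (x - a1)) ∨ Odd (ord v (x - a2)) ∨ Odd (ord v (x - a3)) := by
              rw [Int.odd_iff] at ho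
              rw [Int.odd_iff, Int.odd_iff, Int.odd_iff]
              omega
            rcases h7 with h7 | h7 | h7
            · have h8 : 0 < ord v (x - a1) := by
                rcases h7 with ⟨m, hm⟩
                omega
              have := om_two_odd h8 h7
              linarith
            · have h8 : 0 < ord v (x - a2) := by
                rcases h7 with ⟨m, hm⟩
                omega
              have := om_two_odd h8 h7
              linarith
            · have h8 : 0 < ord v (x - a3) := by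
                rcases h7 with ⟨m, hm⟩
                omega
              have := om_two_odd h8 h7
              linarith
        · have h5 : (1 : ℝ) ≤ ord v (N : M) := by
            have h6 := nat_nonneg v N
            have h7 : 1 ≤ ord v (N : M) := by omega
            exact_mod_cast h7
          have h6 : (1 : ℝ) ≤ max 0 (ord v (N : M) : ℝ) := le_max_of_le_right h5
          have h7 := om_le_one 4 (-ord w (algebraMap M E x))
          have h8 := hg00 v
          linarith)
  rw [sm_add hg0s hNs, ← hn] at h2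
  have h3 := (zeros_le (K := M) (N : M)).trans (height_nat hN)
  rw [ht_ext, ← hn, hdE] at h1
  have h4 : n * ((1 / 4 - ε) * logHeight₁ x) ≤ n * (DD M + sm g0 +
      Module.finrank ℚ M * (C + Real.log N + 3 * Real.log 2)) := by
    have h5 := mul_le_mul_of_nonneg_left h3 (by linarith : (0 : ℝ) ≤ n)
    have e3 : n * ((1 / 4 - ε) * logHeight₁ x) = (1 / 4 - ε) * (n * logHeight₁ x) := by ring
    rw [e3]
    refine h1.trans ?_
    have e4 : DD E = Real.log |(discr E : ℝ)| := rfl
    have e5 : DD M = Real.log |(discr M : ℝ)| := rfl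
    rw [e4, e5]
    nlinarith
  exact le_of_mul_le_mul_left h4 (by linarith)

end Pool.Agent.H431.OC
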