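import Pool.Agent.H431.OC.Compositum

/-!
# From the orbifold line to the Fermat curves
-/

set_option autoImplicit false

namespace Pool.Agent.H431.OC

open NumberField IsDedekindDomain Height Pool.Agent.Q290.NF IntermediateField Polynomial

/-- the Fermat curves of large degree -/
theorem fermat_of_W {F : Type} [Field F] [NumberField F] (h : W F 4 4 4) (j r : ℕ) :
    ∃ C : ℝ, ∀ (M : Type) [Field M] [NumberField M], Module.finrank ℚ M ≤ r →
      ∀ x y : M, x ^ (4 * 2 ^ j) + y ^ (4 * 2 ^ j) = 1 →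
        (((4 * 2 ^ j : ℕ) : ℝ) - 4) * logHeight₁ x ≤ DD M + Module.finrank ℚ M * C := by
  obtain ⟨l, hl⟩ : ∃ l : ℕ, l = 4 * 2 ^ j := ⟨_, rfl⟩
  have hl0 : l ≠ 0 := by
    rw [hl]
    exact mul_ne_zero (by norm_num) (pow_ne_zero _ two_ne_zero)
  have hl' : (0 : ℝ) < l := by exact_mod_cast Nat.pos_of_ne_zero hl0
  have hW := W_diag h j
  rw [← hl] at hW ⊢
  obtain ⟨C1, hC1, H1⟩ := hW (r * Module.finrank ℚ F) (1 / l) (by positivity)
  obtain ⟨C2, hC2, H2⟩ := compositum F
  refine ⟨C1 + C2, fun M _ _ hM x y hxy => ?_⟩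
  obtain ⟨E, i1, i2, i3, i4, hdeg, hdisc⟩ := H2 M
  have hdE : Module.finrank ℚ M * Module.finrank M E = Module.finrank ℚ E :=
    Module.finrank_mul_finrank ℚ M E
  have hdE' : (Module.finrank ℚ E : ℝ) = Module.finrank ℚ M * Module.finrank M E := by
    exact_mod_cast hdE.symm
  have h1 := H1 E (by rw [← hdE]; exact Nat.mul_le_mul hM hdeg) (algebraMap M E x ^ l)
  have hw : sm (wgt l l l (algebraMap M E x ^ l)) = 0 := by
    have h3 : ∀ v : HeightOneSpectrum (𝓞 E), wgt l l l (algebraMap M E x ^ l) v = 0 := by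
      intro v
      have e1 : algebraMap M E x ^ l - 1 = -(algebraMap M E y ^ l) := by
        have : algebraMap M E x ^ l + algebraMap M E y ^ l = 1 := by
          rw [← map_pow, ← map_pow, ← map_add, hxy, map_one]
        linear_combination this
      unfold wgt
      rw [e1, ord_neg, ord_pow, ord_pow, om_self hl0, om_self hl0, ← mul_neg, om_self hl0]
      ring
    unfold sm
    simp only [h3, zero_mul, finsum_zero]
  rw [hw, add_zero, logHeight₁_pow, ht_ext] at h1
  have pME : (0 : ℝ) < Module.finrank M E := by exact_mod_cast Module.finrank_pos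
  have e2 : (1 - 1 / (l : ℝ) - 1 / (l : ℝ) - 1 / (l : ℝ) - 1 / l) *
      (l * (Module.finrank M E * logHeight₁ x)) =
      Module.finrank M E * (((l : ℝ) - 4) * logHeight₁ x) := by
    field_simp
    ring
  rw [e2, hdE'] at h1
  have h4 : (Module.finrank M E : ℝ) * (((l : ℝ) - 4) * logHeight₁ x) ≤
      Module.finrank M E * (DD M + Module.finrank ℚ M * (C1 + C2)) := by
    refine h1.trans ?_
    have : (Module.finrank M E : ℝ) * (DD M + Module.finrank ℚ M * (C1 + C2)) =
      Module.finrank M E * (DD M + Module.finrank ℚ M * C2) +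
      Module.finrank ℚ M * Module.finrank M E * C1 := by ring
    rw [this]
    linarith
  exact le_of_mul_le_mul_left h4 pME

/-- **one hyperelliptic curve** -/
theorem fermat_of_One {k : Type} [Field k] [NumberField k] {f : k[X]} (hf : Squarefree f)
    (h5 : 5 ≤ f.natDegree) (h : One k f) (j r : ℕ) :
    ∃ C : ℝ, ∀ (M : Type) [Field M] [NumberField M], Module.finrank ℚ M ≤ r →
      ∀ x y : M, x ^ (4 * 2 ^ j) + y ^ (4 * 2 ^ j) = 1 →
        (((4 * 2 ^ j : ℕ) : ℝ) - 4) * logHeight₁ x ≤ DD M + Module.finrank ℚ M * C := by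
  obtain ⟨F, i1, i2, c, s, hc, hodd, hs5, hyp⟩ := Hyp_of_One hf h5 h
  obtain ⟨F', i1', i2', hW⟩ := W_of_Hyp hc hodd hs5 hyp
  exact fermat_of_W hW j r

end Pool.Agent.H431.OC
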