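import Pool.Agent.H431.OC.Push
import Pool.Agent.H431.OC.HtMaps

/-!
# From a hyperelliptic curve to the points of an elliptic curve
-/

set_option autoImplicit false

namespace Pool.Agent.H431.OC

open NumberField IsDedekindDomain Height Pool.Agent.Q290.NF IntermediateField

variable {k : Type} [Field k] [NumberField k]

/-- The height inequality `(κ - ε) h(x) ≤ d(P) + C` for the points `P = (x, y)` of bounded degree of
the curve `y ^ 2 = c ∏ (x - e)`, `e ∈ s`. -/
def Hyp (k : Type) [Field k] [NumberField k] (c : k) (s : Finset k) (κ : ℝ) : Prop :=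
  ∀ (ν : ℕ) (ε : ℝ), 0 < ε → ∃ C : ℝ, 0 ≤ C ∧
    ∀ (M : Type) [Field M] [NumberField M] [Algebra k M], Module.finrank ℚ M ≤ ν → ∀ x y : M,
      y ^ 2 = algebraMap k M c * ∏ e ∈ s, (x - algebraMap k M e) →
      (κ - ε) * logHeight₁ x ≤ DD M + Module.finrank ℚ M * C

/-- `1 / 2` for odd numbers -/
noncomputable def od (n : ℤ) : ℝ := if Odd n then 1 / 2 else 0

theorem od_odd {n : ℤ} (h : Odd n) : od n = 1 / 2 := if_pos h

theorem od_even {n : ℤ} (h : Even n) : od n = 0 := if_neg (Int.not_odd_iff_even.2 h)

theorem od_nonneg (n : ℤ) : 0 ≤ od n := by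
  unfold od
  split_ifs <;> norm_num

theorem od_le (n : ℤ) : od n ≤ 1 / 2 := by
  unfold od
  split_ifs <;> norm_num

theorem supp_od {M : Type} [Field M] [NumberField M] (x : M) :
    (Function.support fun v : HeightOneSpectrum (𝓞 M) => od (ord v x)).Finite := by
  by_cases hx : x = 0
  · refine Set.finite_empty.subset fun v hv => ?_
    rw [Function.mem_support, hx, ord_zero, od_even (by decide)] at hv
    exact hv rfl
  · refine (fin_ord hx).subset fun v hv h => ?_
    rw [Function.mem_support, h, od_even (by decide)] at hv
    exact hv rfl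

theorem om_two_le (n : ℤ) : om 2 n ≤ 1 / 2 * max 0 (n : ℝ) := by
  rcases lt_or_ge 0 n with h | h
  · have hn : (1 : ℝ) ≤ n := by exact_mod_cast h
    rw [max_eq_right (by linarith)]
    rcases Int.even_or_odd n with h1 | h1
    · rw [om_two_even h1]
      linarith
    · rw [om_two_odd h h1]
      linarith
  · rw [om_nonpos _ h]
    have := le_max_left (0 : ℝ) n
    linarith

section sumsupp

variable {M : Type} [Field M] [NumberField M] {ι : Type}

theorem supp_sum (r : Finset ι) (g : ι → HeightOneSpectrum (𝓞 M) → ℝ)
    (h : ∀ i ∈ r, (Function.support (g i)).Finite) :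
    (Function.support fun v => ∑ i ∈ r, g i v).Finite := by
  refine (Set.Finite.biUnion (Finset.finite_toSet r) h).subset fun v hv => ?_
  rw [Function.mem_support] at hv
  obtain ⟨i, hi, hne⟩ := Finset.exists_ne_zero_of_sum_ne_zero hv
  rw [Set.mem_iUnion₂]
  exact ⟨i, hi, hne⟩

theorem sm_sum (r : Finset ι) (g : ι → HeightOneSpectrum (𝓞 M) → ℝ)
    (h : ∀ i ∈ r, (Function.support (g i)).Finite) :
    sm (fun v => ∑ i ∈ r, g i v) = ∑ i ∈ r, sm (g i) := by
  classical
  induction r using Finset.induction_on with
  | empty =>
    simp only [Finset.sum_empty]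
    unfold sm
    simp
  | insert a r ha ih =>
    simp only [Finset.sum_insert ha]
    rw [sm_add (h a (Finset.mem_insert_self a r)) (supp_sum r g fun i hi =>
      h i (Finset.mem_insert_of_mem hi)), ih fun i hi => h i (Finset.mem_insert_of_mem hi)]

end sumsupp

/-- **the first step**: points with `(X - e₁) (X - e₂) (X - e₃)` a square -/
theorem R1 {c e1 e2 e3 mu : k} (hc : c ≠ 0) {r : Finset k} (hr : Odd r.card) (hmu : mu ∉ r)
    {s : Finset k} (hs : ∀ (M : Type) [Field M] [Algebra k M] (X : M),
      ∏ e ∈ s, (X - algebraMap k M e) = (X - algebraMap k M e1) * ((X - algebraMap k M e2) *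
        ((X - algebraMap k M e3) * ((X - algebraMap k M mu) *
          ∏ e ∈ r, (X - algebraMap k M e)))))
    (h : Hyp k c s (((r.card : ℝ) + 1) / 2)) :
    ∀ (ν : ℕ) (ε : ℝ), 0 < ε → ∃ C : ℝ, 0 ≤ C ∧
    ∀ (M : Type) [Field M] [NumberField M] [Algebra k M], Module.finrank ℚ M ≤ ν → ∀ X L : M,
      (X - algebraMap k M e1) * (X - algebraMap k M e2) * (X - algebraMap k M e3) = L ^ 2 →
      (1 / 2 - ε) * logHeight₁ X ≤ DD M + sm (fun v => om 2 (ord v (X - algebraMap k M mu))) +
        Module.finrank ℚ M * C := by
  classical
  intro ν ε hε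
  obtain ⟨C, hC, H⟩ := h (ν * 2) ε hε
  obtain ⟨N, hN, HN⟩ := exists_bad ({c, mu} ∪ r ∪ r.image (fun e => mu - e))
  have hconst : ∀ e : k, ∃ C : ℝ, 0 ≤ C ∧
    ∀ (M : Type) [Field M] [NumberField M] [Algebra k M] (x : M),
      logHeight₁ x ≤ logHeight₁ (x - algebraMap k M e) + Module.finrank ℚ M * C ∧
      logHeight₁ (x - algebraMap k M e) ≤ logHeight₁ x + Module.finrank ℚ M * C := ht_shift
  choose Ce hCe0 hCe using hconst
  have hl : 0 ≤ Real.log 2 := Real.log_nonneg (by norm_num)
  have hlN : 0 ≤ Real.log N := Real.log_natCast_nonneg _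
  have hS : 0 ≤ ∑ e ∈ r, Ce e := Finset.sum_nonneg fun e _ => hCe0 e
  refine ⟨C + 2 * Real.log 2 + 1 / 2 * Real.log N + 1 / 2 * ∑ e ∈ r, Ce e, by positivity, ?_⟩
  intro M _ _ _ hM X L hL
  obtain ⟨a, ha⟩ : ∃ a : M, a = algebraMap k M c * ((X - algebraMap k M mu) *
    ∏ e ∈ r, (X - algebraMap k M e)) := ⟨_, rfl⟩
  have hprod : algebraMap k M c * ∏ e ∈ s, (X - algebraMap k M e) = a * L ^ 2 := by
    rw [hs M X, ha, ← hL]
    ring
  have hd : (0 : ℝ) ≤ Module.finrank ℚ M := Nat.cast_nonneg _
  -- the inequality with `a`
  have key : ((r.card + 1) / 2 - ε) * logHeight₁ X ≤ DD M + sm (fun v => od (ord v a)) +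
      Module.finrank ℚ M * (C + 2 * Real.log 2) := by
    by_cases ha0 : a = 0
    · have h1 := H M (hM.trans (Nat.le_mul_of_pos_right _ (by norm_num))) X 0 (by
        rw [hprod, ha0]
        ring)
      have h2 : 0 ≤ sm (fun v : HeightOneSpectrum (𝓞 M) => od (ord v a)) :=
        sm_nonneg fun v => od_nonneg _
      have h3 : 0 ≤ (Module.finrank ℚ M : ℝ) * (2 * Real.log 2) := by positivity
      rw [mul_add]
      linarith
    · obtain ⟨E, i1, i2, i3, z, hz, hdeg, hadj⟩ := exists_quad M a
      let _ : Algebra k E := ((algebraMap M E).comp (algebraMap k M)).toAlgebra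
      have htow : ∀ u : k, algebraMap k E u = algebraMap M E (algebraMap k M u) := fun u => rfl
      obtain ⟨n, hn⟩ : ∃ n : ℝ, n = (Module.finrank M E : ℝ) := ⟨_, rfl⟩
      have hn1 : 1 ≤ n := by
        rw [hn]
        exact_mod_cast Module.finrank_pos (R := M) (M := E)
      have hdE : (Module.finrank ℚ E : ℝ) = Module.finrank ℚ M * n := by
        rw [hn]
        exact_mod_cast (Module.finrank_mul_finrank ℚ M E).symm
      have hνE : Module.finrank ℚ E ≤ ν * 2 := by
        rw [← Module.finrank_mul_finrank ℚ M E]
        exact Nat.mul_le_mul hM hdeg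
      have h1 := H E hνE (algebraMap M E X) (z * algebraMap M E L) (by
        rw [mul_pow, hz, ← map_pow, ← map_mul, ← hprod, map_mul, map_prod]
        simp only [htow, map_sub])
      have h2 := quad_ineq (k := M) (F := E) z a ha0 hz hadj (B := 0) le_rfl (fun _ => 0)
        (fun v => od (ord v a)) (by simp) (supp_od a)
        (fun _ => le_rfl) (fun _ => le_rfl) (fun v => od_nonneg _) (by
          intro v w e he hv2 hvw
          refine ⟨fun _ => mul_nonneg (Nat.cast_nonneg _) (od_nonneg _), fun ho _ => ?_⟩
          rw [od_odd ho]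
          norm_num)
      have h3 : sm (fun _ : HeightOneSpectrum (𝓞 E) => (0 : ℝ)) = 0 := by
        unfold sm
        simp
      rw [h3, add_zero, ← hn, zero_add] at h2
      rw [ht_ext, ← hn, hdE] at h1
      have h4 : n * ((((r.card : ℝ) + 1) / 2 - ε) * logHeight₁ X) ≤ n * (DD M +
          sm (fun v => od (ord v a)) + Module.finrank ℚ M * (C + 2 * Real.log 2)) := by
        unfold DD at h1 ⊢
        have e1 : n * ((((r.card : ℝ) + 1) / 2 - ε) * logHeight₁ X) =
          (((r.card : ℝ) + 1) / 2 - ε) * (n * logHeight₁ X) := by ring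
        have e2 : n * (Real.log |(discr M : ℝ)| + sm (fun v => od (ord v a)) +
            Module.finrank ℚ M * (C + 2 * Real.log 2)) = n * (Real.log |(discr M : ℝ)| +
            sm (fun v => od (ord v a)) + Module.finrank ℚ M * (2 * Real.log 2)) +
            Module.finrank ℚ M * n * C := by ring
        rw [e1, e2]
        linarith
      exact le_of_mul_le_mul_left h4 (by linarith)
  -- the weights
  have hw : sm (fun v : HeightOneSpectrum (𝓞 M) => od (ord v a)) ≤
      (sm (fun v => om 2 (ord v (X - algebraMap k M mu))) +
        1 / 2 * ∑ e ∈ r, logHeight₁ (X - algebraMap k M e)) +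
        Module.finrank ℚ M * (1 / 2 * Real.log N) := by
    have hsum : (Function.support fun v : HeightOneSpectrum (𝓞 M) =>
        ∑ e ∈ r, max 0 (ord v (X - algebraMap k M e) : ℝ)).Finite :=
      supp_sum r (fun e v => max 0 (ord v (X - algebraMap k M e) : ℝ))
        fun e _ => supp_zeros _
    have h1 := sm_le_bad (M := M) hN (B := 1 / 2) (by norm_num)
      (g := fun v => od (ord v a))
      (h := fun v => om 2 (ord v (X - algebraMap k M mu)) +
        1 / 2 * ∑ e ∈ r, max 0 (ord v (X - algebraMap k M e) : ℝ))
      (supp_od a) (supp_add (supp_om 2 _) (supp_smul _ hsum)) (fun v hv => ?_)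
      (fun v => od_le _) (fun v => ?_)
    · rw [sm_add (supp_om 2 _) (supp_smul _ hsum), sm_smul,
        sm_sum r (fun e v => max 0 (ord v (X - algebraMap k M e) : ℝ))
          (fun e _ => supp_zeros _)] at h1
      have h2 : ∑ e ∈ r, sm (fun v : HeightOneSpectrum (𝓞 M) =>
          max 0 (ord v (X - algebraMap k M e) : ℝ)) ≤
          ∑ e ∈ r, logHeight₁ (X - algebraMap k M e) :=
        Finset.sum_le_sum fun e _ => zeros_le _
      linarith
    · -- the local inequality
      have hbad := HN M v hv
      have hgc : ord v (algebraMap k M c) = 0 := hbad c (by simp)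
      have hgm : ord v (algebraMap k M mu) = 0 := hbad mu (by simp)
      have hge : ∀ e ∈ r, ord v (algebraMap k M e) = 0 := fun e he =>
        hbad e (by simp [he])
      have hgd : ∀ e ∈ r, ord v (algebraMap k M (mu - e)) = 0 := fun e he =>
        hbad (mu - e) (by
          rw [Finset.mem_union]
          exact Or.inr (Finset.mem_image_of_mem _ he))
      have hpos1 : 0 ≤ om 2 (ord v (X - algebraMap k M mu)) := om_nonneg two_ne_zero _
      have hpos2 : 0 ≤ ∑ e ∈ r, max 0 (ord v (X - algebraMap k M e) : ℝ) :=
        Finset.sum_nonneg fun e _ => le_max_left _ _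
      rcases Int.even_or_odd (ord v a) with hev | hodd
      · rw [od_even hev]
        linarith
      · rw [od_odd hodd]
        have ha0 : a ≠ 0 := by
          rintro h0
          rw [h0, ord_zero] at hodd
          exact absurd hodd (by decide)
        have hc0 : algebraMap k M c ≠ 0 := (map_ne_zero _).2 hc
        have hX1 : X - algebraMap k M mu ≠ 0 := by
          intro h0
          apply ha0
          rw [ha, h0]
          ring
        have hXr : ∏ e ∈ r, (X - algebraMap k M e) ≠ 0 := by
          intro h0
          apply ha0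
          rw [ha, h0]
          ring
        have hXe : ∀ e ∈ r, X - algebraMap k M e ≠ 0 := fun e he =>
          (Finset.prod_ne_zero_iff.1 hXr) e he
        have hordprod : ord v (∏ e ∈ r, (X - algebraMap k M e)) =
            ∑ e ∈ r, ord v (X - algebraMap k M e) := by
          have : ∀ r' : Finset k, r' ⊆ r → ord v (∏ e ∈ r', (X - algebraMap k M e)) =
              ∑ e ∈ r', ord v (X - algebraMap k M e) := by
            intro r'
            induction r' using Finset.induction_on with
            | empty =>
              intro _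
              rw [Finset.prod_empty, Finset.sum_empty, ord_one]
            | insert b r' hb ih =>
              intro hsub
              have hb' : b ∈ r := hsub (Finset.mem_insert_self _ _)
              have hsub' : r' ⊆ r := fun x hx => hsub (Finset.mem_insert_of_mem hx)
              rw [Finset.prod_insert hb, Finset.sum_insert hb, ord_mul v (hXe b hb')
                (Finset.prod_ne_zero_iff.2 fun e he => hXe e (hsub' he)), ih hsub']
          exact this r subset_rfl
        have horda : ord v a = ord v (X - algebraMap k M mu) +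
            ∑ e ∈ r, ord v (X - algebraMap k M e) := by
          rw [ha, ord_mul v hc0 (mul_ne_zero hX1 hXr), hgc, zero_add, ord_mul v hX1 hXr, hordprod]
        rcases lt_or_ge (ord v X) 0 with hneg | hge0
        · exfalso
          have hX0 : X ≠ 0 := by
            rintro rfl
            rw [ord_zero] at hneg
            exact lt_irrefl _ hneg
          have h3 : ∀ b : M, ord v b = 0 → ord v (X - b) = ord v X := fun b hb =>
            (ord_sub_eq v hX0 (Or.inr (by rw [hb]; exact hneg))).1
          rw [h3 _ hgm, Finset.sum_congr rfl fun e he => h3 _ (hge e he), Finset.sum_const,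
            nsmul_eq_mul] at horda
          have h4 : Even (ord v a) := by
            rw [horda]
            have h5 : ord v X + (r.card : ℤ) * ord v X = ((1 : ℤ) + r.card) * ord v X := by ring
            rw [h5]
            refine Even.mul_right ?_ _
            have : Odd (r.card : ℤ) := by exact_mod_cast hr
            exact odd_one.add_odd this
          exact absurd hodd (Int.not_odd_iff_even.2 h4)
        · have hnn : ∀ b : M, ord v b = 0 → 0 ≤ ord v (X - b) := fun b hb =>
            sub_nonneg' v hge0 hb.ge
          rcases lt_or_ge 0 (ord v (X - algebraMap k M mu)) with hp | hp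
          · have h3 : ∀ e ∈ r, ord v (X - algebraMap k M e) = 0 := by
              intro e he
              have h4 := hgd e he
              have hne : algebraMap k M (mu - e) ≠ 0 := by
                rw [(map_ne_zero _)]
                intro h0
                exact hmu (by rw [sub_eq_zero.1 h0]; exact he)
              have h5 := (ord_add_eq v (x := algebraMap k M (mu - e))
                (y := X - algebraMap k M mu) hne (Or.inr (by rw [h4]; exact hp))).1
              have e5 : algebraMap k M (mu - e) + (X - algebraMap k M mu) =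
                  X - algebraMap k M e := by
                rw [map_sub]
                ring
              rw [e5, h4] at h5
              exact h5
            rw [Finset.sum_congr rfl h3, Finset.sum_const_zero, add_zero] at horda
            rw [horda] at hodd
            have h6 := om_two_odd hp hodd
            linarith
          · have h3 : ord v (X - algebraMap k M mu) = 0 := le_antisymm hp (hnn _ hgm)
            rw [h3, zero_add] at horda
            have h4 : (1 : ℤ) ≤ ∑ e ∈ r, ord v (X - algebraMap k M e) := by
              have h5 : 0 ≤ ∑ e ∈ r, ord v (X - algebraMap k M e) :=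
                Finset.sum_nonneg fun e he => hnn _ (hge e he)
              rcases eq_or_lt_of_le h5 with h6 | h6
              · rw [← h6] at horda
                rw [horda] at hodd
                exact absurd hodd (by decide)
              · exact h6
            have h5 : (1 : ℝ) ≤ ∑ e ∈ r, max 0 (ord v (X - algebraMap k M e) : ℝ) := by
              have h6 : ((∑ e ∈ r, ord v (X - algebraMap k M e) : ℤ) : ℝ) ≤
                  ∑ e ∈ r, max 0 (ord v (X - algebraMap k M e) : ℝ) := by
                push_cast
                exact Finset.sum_le_sum fun e _ => le_max_right _ _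
              have h7 : (1 : ℝ) ≤ ((∑ e ∈ r, ord v (X - algebraMap k M e) : ℤ) : ℝ) := by
                exact_mod_cast h4
              linarith
            linarith
    · have hpos1 : 0 ≤ om 2 (ord v (X - algebraMap k M mu)) := om_nonneg two_ne_zero _
      have hpos2 : 0 ≤ ∑ e ∈ r, max 0 (ord v (X - algebraMap k M e) : ℝ) :=
        Finset.sum_nonneg fun e _ => le_max_left _ _
      show 0 ≤ _ + _
      linarith
  have h5 : ∑ e ∈ r, logHeight₁ (X - algebraMap k M e) ≤ r.card * logHeight₁ X +
      Module.finrank ℚ M * ∑ e ∈ r, Ce e := by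
    rw [Finset.mul_sum]
    have h6 : (r.card : ℝ) * logHeight₁ X = ∑ _e ∈ r, logHeight₁ X := by
      rw [Finset.sum_const, nsmul_eq_mul]
    rw [h6, ← Finset.sum_add_distrib]
    exact Finset.sum_le_sum fun e _ => (hCe e M X).2
  have e1 : (1 / 2 - ε) * logHeight₁ X = ((r.card + 1) / 2 - ε) * logHeight₁ X -
      1 / 2 * (r.card * logHeight₁ X) := by ring
  have e2 : (Module.finrank ℚ M : ℝ) * (C + 2 * Real.log 2 + 1 / 2 * Real.log N +
      1 / 2 * ∑ e ∈ r, Ce e) = Module.finrank ℚ M * (C + 2 * Real.log 2) +
      Module.finrank ℚ M * (1 / 2 * Real.log N) + 1 / 2 * (Module.finrank ℚ M *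
        ∑ e ∈ r, Ce e) := by ring
  rw [e1, e2]
  linarith

end Pool.Agent.H431.OC
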