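import Pool.Agent.H431.OC.Red

/-!
# Hyperelliptic curves with the divisor at infinity
-/

set_option autoImplicit false

namespace Pool.Agent.H431.OC

open NumberField IsDedekindDomain Height Pool.Agent.Q290.NF IntermediateField

/-- `1` for positive numbers -/
noncomputable def po (n : ℤ) : ℝ := if 0 < n then 1 else 0

theorem po_pos {n : ℤ} (h : 0 < n) : po n = 1 := if_pos h

theorem po_nonpos {n : ℤ} (h : n ≤ 0) : po n = 0 := if_neg (not_lt.2 h)

theorem po_nonneg (n : ℤ) : 0 ≤ po n := by
  unfold po
  split_ifs <;> norm_num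

theorem po_le (n : ℤ) : po n ≤ 1 := by
  unfold po
  split_ifs <;> norm_num

theorem po_le_max (n : ℤ) : po n ≤ max 0 (n : ℝ) := by
  rcases lt_or_ge 0 n with h | h
  · rw [po_pos h]
    exact le_max_of_le_right (by exact_mod_cast h)
  · rw [po_nonpos h]
    exact le_max_left _ _

section supp

variable {M : Type} [Field M] [NumberField M]

theorem supp_po (x : M) :
    (Function.support fun v : HeightOneSpectrum (𝓞 M) => po (ord v x)).Finite := by
  by_cases hx : x = 0
  · refine Set.finite_empty.subset fun v hv => ?_
    rw [Function.mem_support, hx, ord_zero, po_nonpos le_rfl] at hv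
    exact hv rfl
  · refine (fin_ord hx).subset fun v hv h => ?_
    rw [Function.mem_support, h, po_nonpos le_rfl] at hv
    exact hv rfl

theorem supp_po' (x : M) :
    (Function.support fun v : HeightOneSpectrum (𝓞 M) => po (-ord v x)).Finite := by
  have h := supp_po x⁻¹
  refine h.subset fun v hv => ?_
  rw [Function.mem_support] at hv ⊢
  rwa [ord_inv]

end supp

variable {k : Type} [Field k] [NumberField k]

/-- The truncated inequality `(κ - ε) h(x) ≤ N^(1)(∞, x) + d(P) + C` for the points `P = (x, y)` of
bounded degree of the curve `y ^ 2 = c ∏ (x - e)`, `e ∈ s`. -/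
def LHyp (k : Type) [Field k] [NumberField k] (c : k) (s : Finset k) (κ : ℝ) : Prop :=
  ∀ (ν : ℕ) (ε : ℝ), 0 < ε → ∃ C : ℝ, 0 ≤ C ∧
    ∀ (M : Type) [Field M] [NumberField M] [Algebra k M], Module.finrank ℚ M ≤ ν → ∀ x y : M,
      y ^ 2 = algebraMap k M c * ∏ e ∈ s, (x - algebraMap k M e) →
      (κ - ε) * logHeight₁ x ≤ DD M + sm (fun v => po (-ord v x)) + Module.finrank ℚ M * C

/-- **the first step**: points with `(X - e₁) (X - e₂) (X - e₃)` a square -/
theorem L1 {c e1 e2 e3 : k} (hc : c ≠ 0) {r : Finset k}
    {s : Finset k} (hs : ∀ (M : Type) [Field M] [Algebra k M] (X : M),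
      ∏ e ∈ s, (X - algebraMap k M e) = (X - algebraMap k M e1) * ((X - algebraMap k M e2) *
        ((X - algebraMap k M e3) * ∏ e ∈ r, (X - algebraMap k M e))))
    (h : LHyp k c s (((r.card : ℝ) + 1) / 2)) :
    ∀ (ν : ℕ) (ε : ℝ), 0 < ε → ∃ C : ℝ, 0 ≤ C ∧
    ∀ (M : Type) [Field M] [NumberField M] [Algebra k M], Module.finrank ℚ M ≤ ν → ∀ X L : M,
      (X - algebraMap k M e1) * (X - algebraMap k M e2) * (X - algebraMap k M e3) = L ^ 2 →
      (1 / 2 - ε) * logHeight₁ X ≤ DD M + sm (fun v => po (-ord v X)) +
        Module.finrank ℚ M * C := by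
  classical
  intro ν ε hε
  obtain ⟨C, hC, H⟩ := h (ν * 2) ε hε
  obtain ⟨N, hN, HN⟩ := exists_bad ({c} ∪ r)
  have hconst : ∀ e : k, ∃ C : ℝ, 0 ≤ C ∧
    ∀ (M : Type) [Field M] [NumberField M] [Algebra k M] (x : M),
      logHeight₁ x ≤ logHeight₁ (x - algebraMap k M e) + Module.finrank ℚ M * C ∧
      logHeight₁ (x - algebraMap k M e) ≤ logHeight₁ x + Module.finrank ℚ M * C := ht_shift
  choose Ce hCe0 hCe using hconst
  have hl : 0 ≤ Real.log 2 := Real.log_nonneg (by norm_num)
  have hlN : 0 ≤ Real.log N := Real.log_natCast_nonneg _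
  have hS : 0 ≤ ∑ e ∈ r, Ce e := Finset.sum_nonneg fun e _ => hCe0 e
  refine ⟨C + 3 * Real.log 2 + Real.log N + 1 / 2 * ∑ e ∈ r, Ce e, by positivity, ?_⟩
  intro M _ _ _ hM X L hL
  obtain ⟨a, ha⟩ : ∃ a : M, a = algebraMap k M c * ∏ e ∈ r, (X - algebraMap k M e) := ⟨_, rfl⟩
  have hprod : algebraMap k M c * ∏ e ∈ s, (X - algebraMap k M e) = a * L ^ 2 := by
    rw [hs M X, ha, ← hL]
    ring
  have hd : (0 : ℝ) ≤ Module.finrank ℚ M := Nat.cast_nonneg _
  have hNs := supp_zeros (K := M) (N : M)
  have hsum : (Function.support fun v : HeightOneSpectrum (𝓞 M) =>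
      ∑ e ∈ r, max 0 (ord v (X - algebraMap k M e) : ℝ)).Finite :=
    supp_sum r (fun e v => max 0 (ord v (X - algebraMap k M e) : ℝ))
      fun e _ => supp_zeros _
  have hS1 : 0 ≤ ∑ e ∈ r, logHeight₁ (X - algebraMap k M e) :=
    Finset.sum_nonneg fun e _ => ht_nonneg _
  -- the inequality with the heights
  have key : ((r.card + 1) / 2 - ε) * logHeight₁ X ≤ DD M + (sm (fun v => po (-ord v X)) +
      1 / 2 * ∑ e ∈ r, logHeight₁ (X - algebraMap k M e)) +
      Module.finrank ℚ M * (C + 3 * Real.log 2 + Real.log N) := by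
    by_cases ha0 : a = 0
    · have h1 := H M (hM.trans (Nat.le_mul_of_pos_right _ (by norm_num))) X 0 (by
        rw [hprod, ha0]
        ring)
      have h3 : 0 ≤ (Module.finrank ℚ M : ℝ) * (3 * Real.log 2 + Real.log N) := by positivity
      have h4 : (Module.finrank ℚ M : ℝ) * (C + 3 * Real.log 2 + Real.log N) =
        Module.finrank ℚ M * C + Module.finrank ℚ M * (3 * Real.log 2 + Real.log N) := by ring
      rw [h4]
      linarith
    · obtain ⟨E, i1, i2, i3, z, hz, hdeg, hadj⟩ := exists_quad M a
      let _ : Algebra k E := ((algebraMap M E).comp (algebraMap k M)).toAlgebra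
      have htow : ∀ u : k, algebraMap k E u = algebraMap M E (algebraMap k M u) := fun u => rfl
      obtain ⟨n, hn⟩ : ∃ n : ℝ, n = (Module.finrank M E : ℝ) := ⟨_, rfl⟩
      have hn1 : 1 ≤ n := by
        rw [hn]
        exact_mod_cast Module.finrank_pos (R := M) (M := E)
      have hdE : (Module.finrank ℚ E : ℝ) = Module.finrank ℚ M * n := by
        rw [hn]
        exact_mod_cast (Module.finrank_mul_finrank ℚ M E).symm
      have hνE : Module.finrank ℚ E ≤ ν * 2 := by
        rw [← Module.finrank_mul_finrank ℚ M E]
        exact Nat.mul_le_mul hM hdeg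
      have h1 := H E hνE (algebraMap M E X) (z * algebraMap M E L) (by
        rw [mul_pow, hz, ← map_pow, ← map_mul, ← hprod, map_mul, map_prod]
        simp only [htow, map_sub])
      have hc0 : algebraMap k M c ≠ 0 := (map_ne_zero _).2 hc
      have hXr : ∏ e ∈ r, (X - algebraMap k M e) ≠ 0 := by
        intro h0
        apply ha0
        rw [ha, h0]
        ring
      have hXe : ∀ e ∈ r, X - algebraMap k M e ≠ 0 := fun e he =>
        (Finset.prod_ne_zero_iff.1 hXr) e he
      have hordprod : ∀ v : HeightOneSpectrum (𝓞 M), ord v (∏ e ∈ r, (X - algebraMap k M e)) =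
          ∑ e ∈ r, ord v (X - algebraMap k M e) := by
        intro v
        have : ∀ r' : Finset k, r' ⊆ r → ord v (∏ e ∈ r', (X - algebraMap k M e)) =
            ∑ e ∈ r', ord v (X - algebraMap k M e) := by
          intro r'
          induction r' using Finset.induction_on with
          | empty =>
            intro _
            rw [Finset.prod_empty, Finset.sum_empty, ord_one]
          | insert b r' hb ih =>
            intro hsub
            have hb' : b ∈ r := hsub (Finset.mem_insert_self _ _)
            have hsub' : r' ⊆ r := fun x hx => hsub (Finset.mem_insert_of_mem hx)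
            rw [Finset.prod_insert hb, Finset.sum_insert hb, ord_mul v (hXe b hb')
              (Finset.prod_ne_zero_iff.2 fun e he => hXe e (hsub' he)), ih hsub']
        exact this r subset_rfl
      have h2 := quad_ineq (k := M) (F := E) z a ha0 hz hadj (B := 1) zero_le_one
        (fun w => po (-ord w (algebraMap M E X)))
        (fun v => (po (-ord v X) + 1 / 2 * ∑ e ∈ r, max 0 (ord v (X - algebraMap k M e) : ℝ)) +
          max 0 (ord v (N : M) : ℝ))
        (supp_po' _) (supp_add (supp_add (supp_po' X) (supp_smul _ hsum)) hNs)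
        (fun _ => po_nonneg _) (fun _ => po_le _)
        (fun v => by
          have r1 := po_nonneg (-ord v X)
          have r2 : 0 ≤ ∑ e ∈ r, max 0 (ord v (X - algebraMap k M e) : ℝ) :=
            Finset.sum_nonneg fun e _ => le_max_left _ _
          have r3 := le_max_left (0 : ℝ) (ord v (N : M) : ℝ)
          linarith) (by
          intro v w e he hv2 hvw
          have r1 := po_nonneg (-ord v X)
          have r2 : 0 ≤ ∑ e ∈ r, max 0 (ord v (X - algebraMap k M e) : ℝ) :=
            Finset.sum_nonneg fun e _ => le_max_left _ _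
          have r3 := le_max_left (0 : ℝ) (ord v (N : M) : ℝ)
          have he1 : (1 : ℝ) ≤ e := by exact_mod_cast Nat.one_le_iff_ne_zero.2 he
          have he1' : (0 : ℤ) < e := by exact_mod_cast Nat.pos_of_ne_zero he
          have hpw : po (-ord w (algebraMap M E X)) = po (-ord v X) := by
            rw [hvw]
            rcases lt_or_ge (ord v X) 0 with hneg | hge
            · rw [po_pos (n := -ord v X) (by omega), po_pos (n := -(↑e * ord v X)) (by nlinarith)]
            · rw [po_nonpos (n := -ord v X) (by omega),
                po_nonpos (n := -(↑e * ord v X)) (by nlinarith)]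
          rw [hpw]
          refine ⟨fun _ => ?_, fun ho _ => ?_⟩
          · nlinarith
          · by_cases hvN : ord v (N : M) = 0
            · have hb := HN M v hvN
              have hgc : ord v (algebraMap k M c) = 0 := hb c (by simp)
              have hge' : ∀ e ∈ r, ord v (algebraMap k M e) = 0 := fun e he =>
                hb e (by simp [he])
              rcases lt_or_ge (ord v X) 0 with hneg | hge
              · rw [po_pos (by omega)]
                linarith
              · have h4 : (1 : ℤ) ≤ ∑ e ∈ r, ord v (X - algebraMap k M e) := by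
                  have h5 : 0 ≤ ∑ e ∈ r, ord v (X - algebraMap k M e) :=
                    Finset.sum_nonneg fun e he => sub_nonneg' v hge (hge' e he).ge
                  rcases eq_or_lt_of_le h5 with h6 | h6
                  · rw [ha, ord_mul v hc0 hXr, hgc, hordprod, ← h6] at ho
                    exact absurd ho (by decide)
                  · exact h6
                have h5 : (1 : ℝ) ≤ ∑ e ∈ r, max 0 (ord v (X - algebraMap k M e) : ℝ) := by
                  have h6 : ((∑ e ∈ r, ord v (X - algebraMap k M e) : ℤ) : ℝ) ≤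
                      ∑ e ∈ r, max 0 (ord v (X - algebraMap k M e) : ℝ) := by
                    push_cast
                    exact Finset.sum_le_sum fun e _ => le_max_right _ _
                  have h7 : (1 : ℝ) ≤ ((∑ e ∈ r, ord v (X - algebraMap k M e) : ℤ) : ℝ) := by
                    exact_mod_cast h4
                  linarith
                have h6 := po_le (-ord v X)
                linarith
            · have h5 : (1 : ℝ) ≤ ord v (N : M) := by
                have h6 := nat_nonneg v N
                have h7 : 1 ≤ ord v (N : M) := by omega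
                exact_mod_cast h7
              have h6 : (1 : ℝ) ≤ max 0 (ord v (N : M) : ℝ) := le_max_of_le_right h5
              have h7 := po_le (-ord v X)
              linarith)
      rw [sm_add (supp_add (supp_po' X) (supp_smul _ hsum)) hNs,
        sm_add (supp_po' X) (supp_smul _ hsum), sm_smul,
        sm_sum r (fun e v => max 0 (ord v (X - algebraMap k M e) : ℝ))
          (fun e _ => supp_zeros _), ← hn] at h2
      have h3 := (zeros_le (K := M) (N : M)).trans (height_nat hN)
      have h3' : ∑ e ∈ r, sm (fun v : HeightOneSpectrum (𝓞 M) =>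
          max 0 (ord v (X - algebraMap k M e) : ℝ)) ≤
          ∑ e ∈ r, logHeight₁ (X - algebraMap k M e) :=
        Finset.sum_le_sum fun e _ => zeros_le _
      rw [ht_ext, ← hn, hdE] at h1
      have h4 : n * ((((r.card : ℝ) + 1) / 2 - ε) * logHeight₁ X) ≤ n * (DD M +
          (sm (fun v => po (-ord v X)) + 1 / 2 * ∑ e ∈ r, logHeight₁ (X - algebraMap k M e)) +
          Module.finrank ℚ M * (C + 3 * Real.log 2 + Real.log N)) := by
        have h5 := mul_le_mul_of_nonneg_left h3 (by linarith : (0 : ℝ) ≤ n)
        have h5' := mul_le_mul_of_nonneg_left h3' (by linarith : (0 : ℝ) ≤ n)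
        have e3 : n * ((((r.card : ℝ) + 1) / 2 - ε) * logHeight₁ X) =
          (((r.card : ℝ) + 1) / 2 - ε) * (n * logHeight₁ X) := by ring
        rw [e3]
        refine h1.trans ?_
        have e4 : DD E = Real.log |(discr E : ℝ)| := rfl
        have e5 : DD M = Real.log |(discr M : ℝ)| := rfl
        rw [e4, e5]
        nlinarith
      exact le_of_mul_le_mul_left h4 (by linarith)
  have h5 : ∑ e ∈ r, logHeight₁ (X - algebraMap k M e) ≤ r.card * logHeight₁ X +
      Module.finrank ℚ M * ∑ e ∈ r, Ce e := by
    rw [Finset.mul_sum]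
    have h6 : (r.card : ℝ) * logHeight₁ X = ∑ _e ∈ r, logHeight₁ X := by
      rw [Finset.sum_const, nsmul_eq_mul]
    rw [h6, ← Finset.sum_add_distrib]
    exact Finset.sum_le_sum fun e _ => (hCe e M X).2
  have e1 : (1 / 2 - ε) * logHeight₁ X = ((r.card + 1) / 2 - ε) * logHeight₁ X -
      1 / 2 * (r.card * logHeight₁ X) := by ring
  have e2 : (Module.finrank ℚ M : ℝ) * (C + 3 * Real.log 2 + Real.log N +
      1 / 2 * ∑ e ∈ r, Ce e) = Module.finrank ℚ M * (C + 3 * Real.log 2 + Real.log N) +
      1 / 2 * (Module.finrank ℚ M * ∑ e ∈ r, Ce e) := by ring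
  rw [e1, e2]
  linarith

end Pool.Agent.H431.OC
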