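import Pool.Agent.H431.OC.Log1

/-!
# Elliptic curves with the divisor at infinity
-/

set_option autoImplicit false

namespace Pool.Agent.H431.OC

open NumberField IsDedekindDomain Height Pool.Agent.Q290.NF IntermediateField

theorem po_mul_le {e : ℕ} (he : e ≠ 0) (n : ℤ) : po (e * n) ≤ po n := by
  have he' : (0 : ℤ) < e := by exact_mod_cast Nat.pos_of_ne_zero he
  rcases lt_or_ge 0 n with h | h
  · rw [po_pos h]
    exact po_le _
  · rw [po_nonpos (n := e * n) (mul_nonpos_of_nonneg_of_nonpos he'.le h)]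
    exact po_nonneg _

variable {k : Type} [Field k] [NumberField k]

/-- **the third step**: all points of the line -/
theorem L2 {e1 e2 e3 : k}
    (h : ∀ (ν : ℕ) (ε : ℝ), 0 < ε → ∃ C : ℝ, 0 ≤ C ∧
    ∀ (M : Type) [Field M] [NumberField M] [Algebra k M], Module.finrank ℚ M ≤ ν → ∀ x w : M,
      (x - algebraMap k M e1) * (x - algebraMap k M e2) * (x - algebraMap k M e3) = w ^ 2 →
      (1 / 2 - ε) * logHeight₁ x ≤ DD M + sm (fun v => po (-ord v x)) +
        Module.finrank ℚ M * C) :
    ∀ (ν : ℕ) (ε : ℝ), 0 < ε → ∃ C : ℝ, 0 ≤ C ∧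
    ∀ (M : Type) [Field M] [NumberField M] [Algebra k M], Module.finrank ℚ M ≤ ν → ∀ x : M,
      (1 / 2 - ε) * logHeight₁ x ≤ DD M + sm (fun v => po (-ord v x) +
        om 2 (ord v (x - algebraMap k M e1)) + om 2 (ord v (x - algebraMap k M e2)) +
        om 2 (ord v (x - algebraMap k M e3))) + Module.finrank ℚ M * C := by
  classical
  intro ν ε hε
  obtain ⟨C, hC, H⟩ := h (ν * 2) ε hε
  obtain ⟨N, hN, HN⟩ := exists_bad ({e1, e2, e3} : Finset k)
  have hl : 0 ≤ Real.log 2 := Real.log_nonneg (by norm_num)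
  have hlN : 0 ≤ Real.log N := Real.log_natCast_nonneg _
  refine ⟨C + Real.log N + 3 * Real.log 2, by positivity, ?_⟩
  intro M _ _ _ hM x
  have hd : (0 : ℝ) ≤ Module.finrank ℚ M := Nat.cast_nonneg _
  obtain ⟨a1, ha1⟩ : ∃ a1 : M, a1 = algebraMap k M e1 := ⟨_, rfl⟩
  obtain ⟨a2, ha2⟩ : ∃ a2 : M, a2 = algebraMap k M e2 := ⟨_, rfl⟩
  obtain ⟨a3, ha3⟩ : ∃ a3 : M, a3 = algebraMap k M e3 := ⟨_, rfl⟩
  rw [← ha1, ← ha2, ← ha3]
  obtain ⟨g0, hg0⟩ : ∃ g0 : HeightOneSpectrum (𝓞 M) → ℝ, g0 = fun v => po (-ord v x) +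
        om 2 (ord v (x - a1)) + om 2 (ord v (x - a2)) + om 2 (ord v (x - a3)) := ⟨_, rfl⟩
  rw [← hg0]
  have hg0s : (Function.support g0).Finite := by
    rw [hg0]
    exact supp_add (supp_add (supp_add (supp_po' x) (supp_om 2 _)) (supp_om 2 _)) (supp_om 2 _)
  have hg04 : ∀ v, po (-ord v x) ≤ g0 v := by
    intro v
    rw [hg0]
    have r1 := om_nonneg two_ne_zero (ord v (x - a1))
    have r2 := om_nonneg two_ne_zero (ord v (x - a2))
    have r3 := om_nonneg two_ne_zero (ord v (x - a3))
    show _ ≤ po (-ord v x) + om 2 (ord v (x - a1)) + om 2 (ord v (x - a2)) +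
      om 2 (ord v (x - a3))
    linarith
  have hg00 : ∀ v, 0 ≤ g0 v := fun v => (po_nonneg _).trans (hg04 v)
  obtain ⟨a, ha⟩ : ∃ a : M, a = (x - a1) * (x - a2) * (x - a3) := ⟨_, rfl⟩
  have q1 : 0 ≤ Module.finrank ℚ M * C := mul_nonneg hd hC
  have q2 : 0 ≤ Module.finrank ℚ M * Real.log N := mul_nonneg hd hlN
  have q3 : 0 ≤ Module.finrank ℚ M * Real.log 2 := mul_nonneg hd hl
  by_cases ha0 : a = 0
  · have h1 := H M (hM.trans (Nat.le_mul_of_pos_right _ (by norm_num))) x 0 (by
      rw [← ha1, ← ha2, ← ha3, ← ha, ha0]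
      ring)
    have h2 : sm (fun v : HeightOneSpectrum (𝓞 M) => po (-ord v x)) ≤ sm g0 :=
      sm_mono (supp_po' x) hg0s hg04
    have e : (Module.finrank ℚ M : ℝ) * (C + Real.log N + 3 * Real.log 2) =
      Module.finrank ℚ M * C + Module.finrank ℚ M * Real.log N +
      3 * (Module.finrank ℚ M * Real.log 2) := by ring
    rw [e]
    linarith
  obtain ⟨E, i1, i2, i3, z, hz, hdeg, hadj⟩ := exists_quad M a
  let _ : Algebra k E := ((algebraMap M E).comp (algebraMap k M)).toAlgebra
  have htow : ∀ u : k, algebraMap k E u = algebraMap M E (algebraMap k M u) := fun u => rfl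
  obtain ⟨n, hn⟩ : ∃ n : ℝ, n = (Module.finrank M E : ℝ) := ⟨_, rfl⟩
  have hn1 : 1 ≤ n := by
    rw [hn]
    exact_mod_cast Module.finrank_pos (R := M) (M := E)
  have hdE : (Module.finrank ℚ E : ℝ) = Module.finrank ℚ M * n := by
    rw [hn]
    exact_mod_cast (Module.finrank_mul_finrank ℚ M E).symm
  have hνE : Module.finrank ℚ E ≤ ν * 2 := by
    rw [← Module.finrank_mul_finrank ℚ M E]
    exact Nat.mul_le_mul hM hdeg
  have h1 := H E hνE (algebraMap M E x) z (by
    rw [hz, ha, ha1, ha2, ha3, htow, htow, htow, ← map_sub, ← map_sub, ← map_sub, ← map_mul,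
      ← map_mul])
  have hp1 : x - a1 ≠ 0 := by
    intro h0
    apply ha0
    rw [ha, h0]
    ring
  have hp2 : x - a2 ≠ 0 := by
    intro h0
    apply ha0
    rw [ha, h0]
    ring
  have hp3 : x - a3 ≠ 0 := by
    intro h0
    apply ha0
    rw [ha, h0]
    ring
  have horda : ∀ v : HeightOneSpectrum (𝓞 M), ord v a = ord v (x - a1) + ord v (x - a2) +
      ord v (x - a3) := by
    intro v
    rw [ha, ord_mul v (mul_ne_zero hp1 hp2) hp3, ord_mul v hp1 hp2]
  have hNs := supp_zeros (K := M) (N : M)
  have h2 := quad_ineq (k := M) (F := E) z a ha0 hz hadj (B := 1) zero_le_one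
    (fun w => po (-ord w (algebraMap M E x)))
    (fun v => g0 v + max 0 (ord v (N : M) : ℝ)) (supp_po' _) (supp_add hg0s hNs)
    (fun w => po_nonneg _) (fun w => po_le _)
    (fun v => add_nonneg (hg00 v) (le_max_left _ _)) (by
      intro v w e he hv2 hvw
      have hmx := le_max_left (0 : ℝ) (ord v (N : M) : ℝ)
      have ew : -ord w (algebraMap M E x) = (e : ℤ) * (-ord v x) := by
        rw [hvw]
        ring
      have he1 : (1 : ℝ) ≤ e := by exact_mod_cast Nat.one_le_iff_ne_zero.2 he
      refine ⟨fun _ => ?_, fun ho he2 => ?_⟩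
      · rw [ew]
        have h3 := po_mul_le he (-ord v x)
        have h4 := hg04 v
        have h5 := hg00 v
        nlinarith
      · by_cases hvN : ord v (N : M) = 0
        · have hb := HN M v hvN
          have b1 := hb e1 (by simp)
          have b2 := hb e2 (by simp)
          have b3 := hb e3 (by simp)
          rw [← ha1] at b1
          rw [← ha2] at b2
          rw [← ha3] at b3
          rw [horda] at ho
          have r1 := om_nonneg two_ne_zero (ord v (x - a1))
          have r2 := om_nonneg two_ne_zero (ord v (x - a2))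
          have r3 := om_nonneg two_ne_zero (ord v (x - a3))
          have r4 := po_nonneg (-ord v x)
          have hgv : g0 v = po (-ord v x) + om 2 (ord v (x - a1)) + om 2 (ord v (x - a2)) +
            om 2 (ord v (x - a3)) := by rw [hg0]
          rw [ew, he2]
          rcases lt_or_ge (ord v x) 0 with hneg | hge
          · have hx0 : x ≠ 0 := by
              rintro rfl
              rw [ord_zero] at hneg
              exact lt_irrefl _ hneg
            have hsub : ∀ b : M, ord v b = 0 → ord v (x - b) = ord v x := fun b hb' =>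
              (ord_sub_eq v hx0 (Or.inr (by rw [hb']; exact hneg))).1
            rw [hsub _ b1, hsub _ b2, hsub _ b3] at ho
            have ho' : Odd (-ord v x) := by
              rw [Int.odd_iff] at ho ⊢
              omega
            have h5 := po_le (((2 : ℕ) : ℤ) * -ord v x)
            have h6 : po (-ord v x) = 1 := po_pos (by omega)
            linarith
          · have hsub : ∀ b : M, ord v b = 0 → 0 ≤ ord v (x - b) := fun b hb' =>
              sub_nonneg' v hge hb'.ge
            have g1 := hsub _ b1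
            have g2 := hsub _ b2
            have g3 := hsub _ b3
            have h6 : po (((2 : ℕ) : ℤ) * -ord v x) = 0 := po_nonpos (by omega)
            rw [h6]
            have h7 : Odd (ord v (x - a1)) ∨ Odd (ord v (x - a2)) ∨ Odd (ord v (x - a3)) := by
              rw [Int.odd_iff] at ho
              rw [Int.odd_iff, Int.odd_iff, Int.odd_iff]
              omega
            rcases h7 with h7 | h7 | h7
            · have h8 : 0 < ord v (x - a1) := by
                rcases h7 with ⟨m, hm⟩
                omega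
              have := om_two_odd h8 h7
              linarith
            · have h8 : 0 < ord v (x - a2) := by
                rcases h7 with ⟨m, hm⟩
                omega
              have := om_two_odd h8 h7
              linarith
            · have h8 : 0 < ord v (x - a3) := by
                rcases h7 with ⟨m, hm⟩
                omega
              have := om_two_odd h8 h7
              linarith
        · have h5 : (1 : ℝ) ≤ ord v (N : M) := by
            have h6 := nat_nonneg v N
            have h7 : 1 ≤ ord v (N : M) := by omega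
            exact_mod_cast h7
          have h6 : (1 : ℝ) ≤ max 0 (ord v (N : M) : ℝ) := le_max_of_le_right h5
          have h7 := po_le (-ord w (algebraMap M E x))
          have h8 := hg00 v
          linarith)
  rw [sm_add hg0s hNs, ← hn] at h2
  have h3 := (zeros_le (K := M) (N : M)).trans (height_nat hN)
  rw [ht_ext, ← hn, hdE] at h1
  have h4 : n * ((1 / 2 - ε) * logHeight₁ x) ≤ n * (DD M + sm g0 +
      Module.finrank ℚ M * (C + Real.log N + 3 * Real.log 2)) := by
    have h5 := mul_le_mul_of_nonneg_left h3 (by linarith : (0 : ℝ) ≤ n)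
    have e3 : n * ((1 / 2 - ε) * logHeight₁ x) = (1 / 2 - ε) * (n * logHeight₁ x) := by ring
    rw [e3]
    refine h1.trans ?_
    have e4 : DD E = Real.log |(discr E : ℝ)| := rfl
    have e5 : DD M = Real.log |(discr M : ℝ)| := rfl
    rw [e4, e5]
    nlinarith
  exact le_of_mul_le_mul_left h4 (by linarith)


section loc

variable {M : Type} [Field M] [NumberField M] (v : HeightOneSpectrum (𝓞 M))

/-- the weights of the second step -/
noncomputable def zl (e1 e2 e3 x : M) (v : HeightOneSpectrum (𝓞 M)) : ℝ :=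
  po (-ord v x) + om 2 (ord v (x - e1)) + om 2 (ord v (x - e2)) + om 2 (ord v (x - e3))

/-- the weights of the third step -/
noncomputable def fl (e1 e2 e3 x : M) (v : HeightOneSpectrum (𝓞 M)) : ℝ :=
  po (-ord v x) + po (ord v (x - e1)) + po (ord v (x - e2)) + po (ord v (x - e3))

theorem supp_zl (e1 e2 e3 x : M) : (Function.support (zl e1 e2 e3 x)).Finite :=
  supp_add (supp_add (supp_add (supp_po' x) (supp_om 2 _)) (supp_om 2 _)) (supp_om 2 _)

theorem supp_fl (e1 e2 e3 x : M) : (Function.support (fl e1 e2 e3 x)).Finite :=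
  supp_add (supp_add (supp_add (supp_po' x) (supp_po _)) (supp_po _)) (supp_po _)

theorem zl_le (e1 e2 e3 x : M) : zl e1 e2 e3 x v ≤ 4 := by
  have r0 := po_le (-ord v x)
  have r1 := om_le_one 2 (ord v (x - e1))
  have r2 := om_le_one 2 (ord v (x - e2))
  have r3 := om_le_one 2 (ord v (x - e3))
  unfold zl
  linarith

theorem fl_nonneg (e1 e2 e3 x : M) : 0 ≤ fl e1 e2 e3 x v := by
  have r0 := po_nonneg (-ord v x)
  have r1 := po_nonneg (ord v (x - e1))
  have r2 := po_nonneg (ord v (x - e2))
  have r3 := po_nonneg (ord v (x - e3))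
  unfold fl
  linarith

/-- the weight at a pole -/
theorem zl_pole {e1 e2 e3 D e : M} (h1 : 0 ≤ ord v e1) (h2 : 0 ≤ ord v e2) (h3 : 0 ≤ ord v e3)
    (he : 0 ≤ ord v e) (h : ord v (D - e) < 0) :
    zl e1 e2 e3 D v = po (-ord v (D - e)) := by
  have h0 : D - e ≠ 0 := by
    intro h'
    rw [h', ord_zero] at h
    exact lt_irrefl _ h
  have hD := ord_add_eq v (x := D - e) (y := e) h0 (Or.inr (lt_of_lt_of_le h he))
  rw [sub_add_cancel] at hD
  have hs : ∀ b : M, 0 ≤ ord v b → ord v (D - b) < 0 := by
    intro b hb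
    rw [(ord_sub_eq v (y := b) hD.2 (Or.inr (by rw [hD.1]; exact lt_of_lt_of_le h hb))).1, hD.1]
    exact h
  unfold zl
  rw [om_nonpos 2 (hs e1 h1).le, om_nonpos 2 (hs e2 h2).le, om_nonpos 2 (hs e3 h3).le, hD.1]
  ring

/-- **the local inequality for the duplication map** -/
theorem loc_dupl {e1 e2 e3 x D : M} (h2 : ord v (2 : M) = 0) (h1' : 0 ≤ ord v e1)
    (h2' : 0 ≤ ord v e2) (h3' : 0 ≤ ord v e3)
    (n12 : e2 - e1 ≠ 0) (n13 : e3 - e1 ≠ 0) (n23 : e3 - e2 ≠ 0)
    (u12 : ord v (e2 - e1) = 0) (u13 : ord v (e3 - e1) = 0) (u23 : ord v (e3 - e2) = 0)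
    (m1 : x - e1 ≠ 0) (m2 : x - e2 ≠ 0) (m3 : x - e3 ≠ 0)
    (hD1 : 4 * ((x - e1) * (x - e2) * (x - e3)) * (D - e1) =
      ((x - e1) ^ 2 - (e2 - e1) * (e3 - e1)) ^ 2) :
    zl e1 e2 e3 D v ≤ fl e1 e2 e3 x v := by
  have hD2 : 4 * ((x - e1) * (x - e2) * (x - e3)) * (D - e2) =
      ((x - e2) ^ 2 - (-(e2 - e1)) * (e3 - e2)) ^ 2 := by
    linear_combination hD1
  have hD3 : 4 * ((x - e1) * (x - e2) * (x - e3)) * (D - e3) =
      ((x - e3) ^ 2 - (e3 - e1) * (e3 - e2)) ^ 2 := by
    linear_combination hD1
  have h4 : ord v (4 : M) = 0 := by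
    have e : (4 : M) = 2 ^ 2 := by norm_num
    rw [e, ord_pow, h2, mul_zero]
  have h40 : (4 : M) ≠ 0 := by norm_num
  have hc0 : (x - e1) * (x - e2) * (x - e3) ≠ 0 := mul_ne_zero (mul_ne_zero m1 m2) m3
  have hco : ord v ((x - e1) * (x - e2) * (x - e3)) = ord v (x - e1) + ord v (x - e2) +
      ord v (x - e3) := by
    rw [ord_mul v (mul_ne_zero m1 m2) m3, ord_mul v m1 m2]
  -- the order of `D - e`
  have key : ∀ (e Q : M), 4 * ((x - e1) * (x - e2) * (x - e3)) * (D - e) = Q ^ 2 → Q ≠ 0 →
      D - e ≠ 0 ∧ ord v (D - e) = 2 * ord v Q -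
        (ord v (x - e1) + ord v (x - e2) + ord v (x - e3)) := by
    intro e Q hQ hQ0
    have hDe : D - e ≠ 0 := by
      intro h
      rw [h, mul_zero] at hQ
      exact pow_ne_zero 2 hQ0 hQ.symm
    refine ⟨hDe, ?_⟩
    have h5 : ord v (4 * ((x - e1) * (x - e2) * (x - e3)) * (D - e)) = ord v (Q ^ 2) := by rw [hQ]
    rw [ord_mul v (mul_ne_zero h40 hc0) hDe, ord_mul v h40 hc0, h4, hco, ord_pow] at h5
    push_cast at h5
    omega
  have f0 := po_nonneg (-ord v x)
  have f1 := po_nonneg (ord v (x - e1))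
  have f2 := po_nonneg (ord v (x - e2))
  have f3 := po_nonneg (ord v (x - e3))
  rcases lt_or_ge (ord v x) 0 with hneg | hge
  · -- a pole of `x`
    have hx0 : x ≠ 0 := by
      rintro rfl
      rw [ord_zero] at hneg
      exact lt_irrefl _ hneg
    have hsub : ∀ b : M, 0 ≤ ord v b → ord v (x - b) = ord v x := fun b hb' =>
      (ord_sub_eq v hx0 (Or.inr (lt_of_lt_of_le hneg hb'))).1
    have k1 := q_pole v (T := x - e1) (b := 0) (c := -((e2 - e1) * (e3 - e1)))
      (by rw [ord_zero]) (by rw [ord_neg, ord_mul v n12 n13, u12, u13]; rfl)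
      (by rw [hsub e1 h1']; exact hneg)
    have e : (x - e1) ^ 2 - 0 * (x - e1) + -((e2 - e1) * (e3 - e1)) =
      (x - e1) ^ 2 - (e2 - e1) * (e3 - e1) := by ring
    rw [e] at k1
    have k2 := (key e1 _ hD1 k1.2).2
    rw [k1.1, hsub e1 h1', hsub e2 h2', hsub e3 h3'] at k2
    have k3 : ord v (D - e1) = ord v x := by omega
    have k4 := zl_pole v h1' h2' h3' h1' (by rw [k3]; exact hneg)
    rw [k4, k3]
    unfold fl
    linarith
  · have hsub : ∀ b : M, 0 ≤ ord v b → 0 ≤ ord v (x - b) := fun b hb' => sub_nonneg' v hge hb'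
    have g1 := hsub e1 h1'
    have g2 := hsub e2 h2'
    have g3 := hsub e3 h3'
    have flip : ∀ a b : M, a ≠ b → ord v (b - a) = 0 → 0 < ord v (x - a) →
        ord v (x - b) = 0 := by
      intro a b hab hu hp
      have h5 := ord_sub_eq v (x := b - a) (y := x - a) (sub_ne_zero.2 hab.symm)
        (Or.inr (by rw [hu]; exact hp))
      have e : b - a - (x - a) = b - x := by ring
      rw [e, hu] at h5
      rw [ord_sub_comm]
      exact h5.1
    have d12 : e1 ≠ e2 := fun h => n12 (by rw [h, sub_self])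
    have d13 : e1 ≠ e3 := fun h => n13 (by rw [h, sub_self])
    have d23 : e2 ≠ e3 := fun h => n23 (by rw [h, sub_self])
    rcases lt_or_ge 0 (ord v (x - e1)) with p1 | p1
    · have z2 := flip e1 e2 d12 u12 p1
      have z3 := flip e1 e3 d13 u13 p1
      have k1 := q_unit v (T := x - e1) (c := (e2 - e1) * (e3 - e1)) (mul_ne_zero n12 n13)
        (by rw [ord_mul v n12 n13, u12, u13]; rfl) p1
      have k2 := (key e1 _ hD1 k1.2).2
      rw [k1.1, z2, z3] at k2
      have k3 : ord v (D - e1) = -ord v (x - e1) := by omega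
      have k4 := zl_pole v h1' h2' h3' h1' (by rw [k3]; omega)
      rw [k4, k3, neg_neg]
      unfold fl
      linarith
    · have z1 : ord v (x - e1) = 0 := le_antisymm p1 g1
      rcases lt_or_ge 0 (ord v (x - e2)) with p2 | p2
      · have z3 := flip e2 e3 d23 u23 p2
        have k1 := q_unit v (T := x - e2) (c := -(e2 - e1) * (e3 - e2))
          (mul_ne_zero (neg_ne_zero.2 n12) n23)
          (by rw [ord_mul v (neg_ne_zero.2 n12) n23, ord_neg, u12, u23]; rfl) p2
        have k2 := (key e2 _ hD2 k1.2).2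
        rw [k1.1, z1, z3] at k2
        have k3 : ord v (D - e2) = -ord v (x - e2) := by omega
        have k4 := zl_pole v h1' h2' h3' h2' (by rw [k3]; omega)
        rw [k4, k3, neg_neg]
        unfold fl
        linarith
      · have z2 : ord v (x - e2) = 0 := le_antisymm p2 g2
        rcases lt_or_ge 0 (ord v (x - e3)) with p3 | p3
        · have k1 := q_unit v (T := x - e3) (c := (e3 - e1) * (e3 - e2))
            (mul_ne_zero n13 n23) (by rw [ord_mul v n13 n23, u13, u23]; rfl) p3
          have k2 := (key e3 _ hD3 k1.2).2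
          rw [k1.1, z1, z2] at k2
          have k3 : ord v (D - e3) = -ord v (x - e3) := by omega
          have k4 := zl_pole v h1' h2' h3' h3' (by rw [k3]; omega)
          rw [k4, k3, neg_neg]
          unfold fl
          linarith
        · have z3 : ord v (x - e3) = 0 := le_antisymm p3 g3
          -- no zero
          have even : ∀ (e Q : M), 4 * ((x - e1) * (x - e2) * (x - e3)) * (D - e) = Q ^ 2 →
              0 ≤ ord v Q → Even (ord v (D - e)) ∧ 0 ≤ ord v (D - e) := by
            intro e Q hQ hQo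
            by_cases hQ0 : Q = 0
            · have h5 : D - e = 0 := by
                rw [hQ0] at hQ
                have h6 : 4 * ((x - e1) * (x - e2) * (x - e3)) * (D - e) = 0 := by
                  rw [hQ]
                  ring
                exact (mul_eq_zero.1 h6).resolve_left (mul_ne_zero h40 hc0)
              rw [h5, ord_zero]
              exact ⟨by decide, le_rfl⟩
            · have h5 := (key e Q hQ hQ0).2
              rw [z1, z2, z3] at h5
              rw [h5]
              refine ⟨⟨ord v Q, by ring⟩, by omega⟩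
          have int0 : ∀ b c : M, 0 ≤ ord v b → 0 ≤ ord v c → ∀ T : M, 0 ≤ ord v T →
              0 ≤ ord v (T ^ 2 - b * c) := fun b c hb hc T hT =>
            sub_nonneg' v (pow_nonneg' v hT 2) (mul_nonneg' v hb hc)
          have w1 := even e1 _ hD1 (int0 _ _ u12.ge u13.ge _ g1)
          have w2 := even e2 _ hD2 (int0 _ _ (by rw [ord_neg]; exact u12.ge) u23.ge _ g2)
          have w3 := even e3 _ hD3 (int0 _ _ u13.ge u23.ge _ g3)
          have hDo : 0 ≤ ord v D := by
            have := add_nonneg' v w1.2 h1'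
            rwa [sub_add_cancel] at this
          have : zl e1 e2 e3 D v = 0 := by
            unfold zl
            rw [om_two_even w1.1, om_two_even w2.1, om_two_even w3.1, po_nonpos (by omega)]
            ring
          rw [this]
          exact fl_nonneg v _ _ _ _

end loc

end Pool.Agent.H431.OC
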