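import Pool.Agent.H431.OC.Log2

/-!
# The line with three points
-/

set_option autoImplicit false

namespace Pool.Agent.H431.OC

open NumberField IsDedekindDomain Height Pool.Agent.Q290.NF IntermediateField

section w3

variable {M : Type} [Field M] [NumberField M]

/-- the weights of the three points `0`, `1`, `∞` -/
noncomputable def w3 (t : M) (v : HeightOneSpectrum (𝓞 M)) : ℝ :=
  po (ord v t) + po (ord v (t - 1)) + po (-ord v t)

theorem supp_w3 (t : M) : (Function.support (w3 t)).Finite :=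
  supp_add (supp_add (supp_po t) (supp_po (t - 1))) (supp_po' t)

theorem w3_nonneg (t : M) (v : HeightOneSpectrum (𝓞 M)) : 0 ≤ w3 t v := by
  have h1 := po_nonneg (ord v t)
  have h2 := po_nonneg (ord v (t - 1))
  have h3 := po_nonneg (-ord v t)
  unfold w3
  linarith

end w3

variable {k : Type} [Field k] [NumberField k]

/-- **the third step**: the line with four points -/
theorem L3 {e1 e2 e3 : k} (h12 : e1 ≠ e2) (h13 : e1 ≠ e3) (h23 : e2 ≠ e3)
    (h : ∀ (ν : ℕ) (ε : ℝ), 0 < ε → ∃ C : ℝ, 0 ≤ C ∧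
    ∀ (M : Type) [Field M] [NumberField M] [Algebra k M], Module.finrank ℚ M ≤ ν → ∀ x : M,
      (1 / 2 - ε) * logHeight₁ x ≤ DD M + sm (fun v => po (-ord v x) +
        om 2 (ord v (x - algebraMap k M e1)) + om 2 (ord v (x - algebraMap k M e2)) +
        om 2 (ord v (x - algebraMap k M e3))) + Module.finrank ℚ M * C) :
    ∀ (ν : ℕ) (ε : ℝ), 0 < ε → ∃ C : ℝ, 0 ≤ C ∧
    ∀ (M : Type) [Field M] [NumberField M] [Algebra k M], Module.finrank ℚ M ≤ ν → ∀ x : M,
      (2 - ε) * logHeight₁ x ≤ DD M + sm (fl (algebraMap k M e1) (algebraMap k M e2)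
        (algebraMap k M e3) x) + Module.finrank ℚ M * C := by
  classical
  intro ν ε hε
  by_cases hε1 : 2 ≤ ε
  · refine ⟨0, le_rfl, fun M _ _ _ hM x => ?_⟩
    have h1 := DD_nonneg M
    have h2 : 0 ≤ sm (fl (algebraMap k M e1) (algebraMap k M e2) (algebraMap k M e3) x) :=
      sm_nonneg fun v => fl_nonneg v _ _ _ _
    have h3 : (2 - ε) * logHeight₁ x ≤ 0 :=
      mul_nonpos_of_nonpos_of_nonneg (by linarith) (ht_nonneg x)
    linarith
  rw [not_le] at hε1
  obtain ⟨C, hC, H⟩ := h ν (ε / 4) (by positivity)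
  obtain ⟨N, hN, HN⟩ := exists_bad ({2, e1, e2, e3, e2 - e1, e3 - e1, e3 - e2} : Finset k)
  obtain ⟨Cd, hCd, Hd⟩ := ht_dup h12 h13 h23
  obtain ⟨K1, hK1, HK1⟩ := height_const e1
  obtain ⟨K2, hK2, HK2⟩ := height_const e2
  obtain ⟨K3, hK3, HK3⟩ := height_const e3
  have hlN : 0 ≤ Real.log N := Real.log_natCast_nonneg _
  refine ⟨C + 4 * Real.log N + Cd + 2 * K1 + 2 * K2 + 2 * K3, by positivity, ?_⟩
  intro M _ _ _ hM x
  have hd : (0 : ℝ) ≤ Module.finrank ℚ M := Nat.cast_nonneg _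
  have hDD := DD_nonneg M
  have hsplit : (Module.finrank ℚ M : ℝ) * (C + 4 * Real.log N + Cd + 2 * K1 + 2 * K2 + 2 * K3) =
      Module.finrank ℚ M * C + Module.finrank ℚ M * (4 * Real.log N) + Module.finrank ℚ M * Cd +
      2 * (Module.finrank ℚ M * K1) + 2 * (Module.finrank ℚ M * K2) +
      2 * (Module.finrank ℚ M * K3) := by ring
  rw [hsplit]
  have q1 : 0 ≤ Module.finrank ℚ M * C := mul_nonneg hd hC
  have q2 : 0 ≤ (Module.finrank ℚ M : ℝ) * (4 * Real.log N) := by positivity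
  have q3 : 0 ≤ Module.finrank ℚ M * Cd := mul_nonneg hd hCd
  have q4 : 0 ≤ Module.finrank ℚ M * K1 := mul_nonneg hd hK1
  have q5 : 0 ≤ Module.finrank ℚ M * K2 := mul_nonneg hd hK2
  have q6 : 0 ≤ Module.finrank ℚ M * K3 := mul_nonneg hd hK3
  have hhx := ht_nonneg x
  have hle : (2 - ε) * logHeight₁ x ≤ 2 * logHeight₁ x :=
    mul_le_mul_of_nonneg_right (by linarith) hhx
  have hk1 := HK1 M
  have hk2 := HK2 M
  have hk3 := HK3 M
  have hbd := HN M
  have hdp := Hd M x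
  have hH := H M hM
  obtain ⟨a1, ha1⟩ : ∃ a1 : M, a1 = algebraMap k M e1 := ⟨_, rfl⟩
  obtain ⟨a2, ha2⟩ : ∃ a2 : M, a2 = algebraMap k M e2 := ⟨_, rfl⟩
  obtain ⟨a3, ha3⟩ : ∃ a3 : M, a3 = algebraMap k M e3 := ⟨_, rfl⟩
  rw [← ha1, ← ha2, ← ha3] at hdp hH
  rw [← ha1, ← ha2, ← ha3]
  rw [← ha1] at hk1
  rw [← ha2] at hk2
  rw [← ha3] at hk3
  have hsm0 : 0 ≤ sm (fl a1 a2 a3 x) := sm_nonneg fun v => fl_nonneg v _ _ _ _
  by_cases hx1 : x = a1
  · rw [← hx1] at hk1
    linarith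
  by_cases hx2 : x = a2
  · rw [← hx2] at hk2
    linarith
  by_cases hx3 : x = a3
  · rw [← hx3] at hk3
    linarith
  have m1 : x - a1 ≠ 0 := sub_ne_zero.2 hx1
  have m2 : x - a2 ≠ 0 := sub_ne_zero.2 hx2
  have m3 : x - a3 ≠ 0 := sub_ne_zero.2 hx3
  have hc0 : (x - a1) * (x - a2) * (x - a3) ≠ 0 := mul_ne_zero (mul_ne_zero m1 m2) m3
  obtain ⟨D, hD⟩ : ∃ D, D = a1 + ((x - a1) ^ 2 - (a2 - a1) * (a3 - a1)) ^ 2 /
    (4 * ((x - a1) * (x - a2) * (x - a3))) := ⟨_, rfl⟩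
  have hD1 : 4 * ((x - a1) * (x - a2) * (x - a3)) * (D - a1) =
      ((x - a1) ^ 2 - (a2 - a1) * (a3 - a1)) ^ 2 := by
    rw [hD, add_sub_cancel_left]
    exact mul_div_cancel₀ _ (mul_ne_zero (by norm_num) hc0)
  have P1 := hdp D m1 m2 m3 hD1
  have P2 := hH D
  have P3 : sm (zl a1 a2 a3 D) ≤ sm (fl a1 a2 a3 x) + Module.finrank ℚ M * (4 * Real.log N) := by
    refine sm_le_bad hN (by norm_num) (supp_zl _ _ _ _) (supp_fl _ _ _ _) (fun v hv => ?_)
      (fun v => zl_le v _ _ _ _) (fun v => fl_nonneg v _ _ _ _)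
    have hb := hbd v hv
    have b2 := hb 2 (by simp)
    have c1 := hb e1 (by simp)
    have c2 := hb e2 (by simp)
    have c3 := hb e3 (by simp)
    have c12 := hb (e2 - e1) (by simp)
    have c13 := hb (e3 - e1) (by simp)
    have c23 := hb (e3 - e2) (by simp)
    rw [map_ofNat] at b2
    rw [map_sub, ← ha2, ← ha1] at c12
    rw [map_sub, ← ha3, ← ha1] at c13
    rw [map_sub, ← ha3, ← ha2] at c23
    rw [← ha1] at c1
    rw [← ha2] at c2
    rw [← ha3] at c3
    have n12 : a2 - a1 ≠ 0 := by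
      rw [ha2, ha1, ← map_sub]
      exact (map_ne_zero _).2 (sub_ne_zero.2 h12.symm)
    have n13 : a3 - a1 ≠ 0 := by
      rw [ha3, ha1, ← map_sub]
      exact (map_ne_zero _).2 (sub_ne_zero.2 h13.symm)
    have n23 : a3 - a2 ≠ 0 := by
      rw [ha3, ha2, ← map_sub]
      exact (map_ne_zero _).2 (sub_ne_zero.2 h23.symm)
    exact loc_dupl v b2 c1.ge c2.ge c3.ge n12 n13 n23 c12 c13 c23 m1 m2 m3 hD1
  have P4 : sm (fun v => po (-ord v D) + om 2 (ord v (D - a1)) + om 2 (ord v (D - a2)) +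
      om 2 (ord v (D - a3))) = sm (zl a1 a2 a3 D) := rfl
  rw [P4] at P2
  have F1 : (1 / 2 - ε / 4) * (4 * logHeight₁ x) ≤
      (1 / 2 - ε / 4) * (logHeight₁ D + Module.finrank ℚ M * Cd) :=
    mul_le_mul_of_nonneg_left P1 (by linarith)
  have F2 : (1 / 2 - ε / 4) * (Module.finrank ℚ M * Cd) ≤ 1 * (Module.finrank ℚ M * Cd) :=
    mul_le_mul_of_nonneg_right (by linarith) q3
  have F3 : (2 - ε) * logHeight₁ x = (1 / 2 - ε / 4) * (4 * logHeight₁ x) := by ring
  rw [F3]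
  linarith

/-- **the line with three points** -/
theorem L4 {e1 e2 e3 : k} (h12 : e1 ≠ e2)
    (h : ∀ (ν : ℕ) (ε : ℝ), 0 < ε → ∃ C : ℝ, 0 ≤ C ∧
    ∀ (M : Type) [Field M] [NumberField M] [Algebra k M], Module.finrank ℚ M ≤ ν → ∀ x : M,
      (2 - ε) * logHeight₁ x ≤ DD M + sm (fl (algebraMap k M e1) (algebraMap k M e2)
        (algebraMap k M e3) x) + Module.finrank ℚ M * C) :
    ∀ (ν : ℕ) (ε : ℝ), 0 < ε → ∃ C : ℝ, 0 ≤ C ∧
    ∀ (M : Type) [Field M] [NumberField M] [Algebra k M], Module.finrank ℚ M ≤ ν → ∀ t : M,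
      (1 - ε) * logHeight₁ t ≤ DD M + sm (w3 t) + Module.finrank ℚ M * C := by
  classical
  intro ν ε hε
  obtain ⟨C, hC, H⟩ := h ν ε hε
  obtain ⟨N, hN, HN⟩ := exists_bad ({e1, e2, e2 - e1} : Finset k)
  have hne : e2 - e1 ≠ 0 := sub_ne_zero.2 h12.symm
  obtain ⟨C1, hC1, H1⟩ := ht_shift e1
  obtain ⟨C3, hC3, H3⟩ := ht_shift e3
  obtain ⟨C2, hC2, H2⟩ := ht_scale (e2 - e1) hne
  have hlN : 0 ≤ Real.log N := Real.log_natCast_nonneg _
  obtain ⟨κ, hκ⟩ : ∃ κ : ℝ, κ = 1 - ε := ⟨_, rfl⟩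
  refine ⟨C + C3 + 3 * Real.log N + |κ| * (C1 + C2), by positivity, fun M _ _ _ hM t => ?_⟩
  have hd : (0 : ℝ) ≤ Module.finrank ℚ M := Nat.cast_nonneg _
  have hH := H M hM
  have hbd := HN M
  have h1M := H1 M
  have h2M := H2 M t
  have h3M := H3 M
  obtain ⟨a1, ha1⟩ : ∃ a1 : M, a1 = algebraMap k M e1 := ⟨_, rfl⟩
  obtain ⟨a2, ha2⟩ : ∃ a2 : M, a2 = algebraMap k M e2 := ⟨_, rfl⟩
  obtain ⟨a3, ha3⟩ : ∃ a3 : M, a3 = algebraMap k M e3 := ⟨_, rfl⟩
  rw [← ha1, ← ha2, ← ha3] at hH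
  rw [map_sub, ← ha1, ← ha2] at h2M
  rw [← ha1] at h1M
  rw [← ha3] at h3M
  have hn' : a2 - a1 ≠ 0 := by
    rw [ha2, ha1, ← map_sub]
    exact (map_ne_zero _).2 hne
  obtain ⟨x, hx⟩ : ∃ x, x = a1 + (a2 - a1) * t := ⟨_, rfl⟩
  have x1 : x - a1 = (a2 - a1) * t := by rw [hx]; ring
  have x2 : x - a2 = (a2 - a1) * (t - 1) := by rw [hx]; ring
  have P1 := hH x
  have P2 := h1M x
  rw [x1] at P2
  -- drop the third point
  have S1 : sm (fl a1 a2 a3 x) ≤ sm (fun v : HeightOneSpectrum (𝓞 M) => po (-ord v x) +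
      po (ord v (x - a1)) + po (ord v (x - a2))) + 1 * logHeight₁ (x - a3) := by
    have s1 : (Function.support fun v : HeightOneSpectrum (𝓞 M) => po (-ord v x) +
      po (ord v (x - a1)) + po (ord v (x - a2))).Finite :=
      supp_add (supp_add (supp_po' x) (supp_po _)) (supp_po _)
    have h4 : sm (fl a1 a2 a3 x) ≤ sm fun v : HeightOneSpectrum (𝓞 M) => (po (-ord v x) +
      po (ord v (x - a1)) + po (ord v (x - a2))) +
        1 * max 0 (ord v (x - a3) : ℝ) := by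
      refine sm_mono (supp_fl _ _ _ _) (supp_add s1 (supp_smul _ (supp_zeros _))) fun v => ?_
      have := po_le_max (ord v (x - a3))
      unfold fl
      linarith
    rw [sm_add s1 (supp_smul _ (supp_zeros _)), sm_smul] at h4
    have := zeros_le (x - a3)
    linarith
  have S2 : sm (fun v : HeightOneSpectrum (𝓞 M) => po (-ord v x) +
      po (ord v (x - a1)) + po (ord v (x - a2))) ≤ sm (w3 t) +
      Module.finrank ℚ M * (3 * Real.log N) := by
    refine sm_le_bad hN (by norm_num)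
      (supp_add (supp_add (supp_po' x) (supp_po _)) (supp_po _)) (supp_w3 _)
      (fun v hv => ?_) (fun v => ?_)
      (fun v => w3_nonneg _ v)
    · have hb := hbd v hv
      have c1 := hb e1 (by simp)
      have c12 := hb (e2 - e1) (by simp)
      rw [map_sub, ← ha2, ← ha1] at c12
      rw [← ha1] at c1
      have om1 : ∀ u : M, ord v ((a2 - a1) * u) = ord v u := by
        intro u
        by_cases hu : u = 0
        · rw [hu, mul_zero]
        · rw [ord_mul v hn' hu, c12, zero_add]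
      have hpole : po (-ord v x) ≤ po (-ord v t) := by
        rcases lt_or_ge (ord v x) 0 with hneg | hge
        · have hx0 : x ≠ 0 := by
            rintro h0
            rw [h0, ord_zero] at hneg
            exact lt_irrefl _ hneg
          have h5 := (ord_sub_eq v (y := a1) hx0 (Or.inr (by rw [c1]; exact hneg))).1
          rw [x1, om1] at h5
          rw [h5]
        · rw [po_nonpos (n := -ord v x) (by omega)]
          exact po_nonneg _
      rw [x1, x2, om1, om1]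
      unfold w3
      linarith
    · have r0 := po_le (-ord v x)
      have r1 := po_le (ord v (x - a1))
      have r2 := po_le (ord v (x - a2))
      linarith
  have P3 := (h3M x).2
  have F : κ * logHeight₁ t ≤ κ * logHeight₁ x + |κ| * (Module.finrank ℚ M * (C1 + C2)) := by
    refine abs_shift ?_ ?_ <;> linarith [P2.1, P2.2, h2M.1, h2M.2]
  rw [← hκ]
  have e2' : (2 - ε) * logHeight₁ x = κ * logHeight₁ x + 1 * logHeight₁ x := by
    rw [hκ]
    ring
  rw [e2'] at P1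
  have q1 : 0 ≤ Module.finrank ℚ M * C3 := mul_nonneg hd hC3
  have e3' : (Module.finrank ℚ M : ℝ) * (C + C3 + 3 * Real.log N + |κ| * (C1 + C2)) =
      Module.finrank ℚ M * C + Module.finrank ℚ M * C3 + Module.finrank ℚ M * (3 * Real.log N) +
      |κ| * (Module.finrank ℚ M * (C1 + C2)) := by ring
  rw [e3']
  linarith

end Pool.Agent.H431.OC
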