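import Pool.Agent.H431.OC.Log4

/-!
# From one (hyper)elliptic curve to the three point inequality
-/

set_option autoImplicit false

namespace Pool.Agent.H431.OC

open NumberField IsDedekindDomain Height Pool.Agent.Q290.NF IntermediateField Polynomial

theorem LHyp_three {k : Type} [Field k] [NumberField k] {c : k} (hc : c ≠ 0) {s : Finset k}
    (h3 : 3 ≤ s.card) (h : LHyp k c s (((s.card : ℝ) - 2) / 2)) (ν : ℕ) {ε : ℝ} (hε : 0 < ε) :
    ∃ C : ℝ, 0 ≤ C ∧
    ∀ (M : Type) [Field M] [NumberField M], Module.finrank ℚ M ≤ ν → ∀ t : M,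
      (1 - ε) * logHeight₁ t ≤ DD M + sm (w3 t) + Module.finrank ℚ M * C := by
  classical
  obtain ⟨t, hts, ht3⟩ := Finset.exists_subset_card_eq h3
  obtain ⟨e1, e2, e3, h12, h13, h23, rfl⟩ := Finset.card_eq_three.1 ht3
  obtain ⟨r, hr⟩ : ∃ r, r = s \ {e1, e2, e3} := ⟨_, rfl⟩
  have hrc : r.card = s.card - 3 := by
    rw [hr, Finset.card_sdiff_of_subset hts, ht3]
  have h' : LHyp k c s (((r.card : ℝ) + 1) / 2) := by
    have e : ((r.card : ℝ) + 1) / 2 = ((s.card : ℝ) - 2) / 2 := by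
      rw [hrc, Nat.cast_sub h3]
      push_cast
      ring
    rw [e]
    exact h
  have hprod : ∀ (M : Type) [Field M] [Algebra k M] (X : M),
      ∏ e ∈ s, (X - algebraMap k M e) =
        (X - algebraMap k M e1) * ((X - algebraMap k M e2) *
        ((X - algebraMap k M e3) * ∏ e ∈ r, (X - algebraMap k M e))) := by
    intro M _ _ X
    rw [← Finset.prod_sdiff hts, ← hr, Finset.prod_insert (by simp [h12, h13]),
      Finset.prod_insert (by simp [h23]), Finset.prod_singleton]
    ring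
  have r1 := L1 hc hprod h'
  have r2 := L2 r1
  exact L6 (L4 h12 (L3 h12 h13 h23 r2)) ν hε

/-- The truncated inequality with the divisor at infinity, for the curve `y ^ 2 = f(x)`. -/
def LOne (k : Type) [Field k] [NumberField k] (f : k[X]) : Prop :=
  ∀ (ν : ℕ) (ε : ℝ), 0 < ε → ∃ C : ℝ, 0 ≤ C ∧
    ∀ (M : Type) [Field M] [NumberField M] [Algebra k M], Module.finrank ℚ M ≤ ν → ∀ x y : M,
      y ^ 2 = aeval x f →
      (((f.natDegree : ℝ) - 2) / 2 - ε) * logHeight₁ x ≤
        DD M + sm (fun v => po (-ord v x)) + Module.finrank ℚ M * C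

theorem LOne_three {k : Type} [Field k] [NumberField k] {f : k[X]} (hf : Squarefree f)
    (h3 : 3 ≤ f.natDegree) (h : LOne k f) (ν : ℕ) {ε : ℝ} (hε : 0 < ε) :
    ∃ C : ℝ, 0 ≤ C ∧
    ∀ (M : Type) [Field M] [NumberField M], Module.finrank ℚ M ≤ ν → ∀ t : M,
      (1 - ε) * logHeight₁ t ≤ DD M + sm (w3 t) + Module.finrank ℚ M * C := by
  have hsep : f.Separable := PerfectField.separable_iff_squarefree.2 hf
  have hf0 : f ≠ 0 := by
    rintro rfl
    simp at h3
  obtain ⟨R, hR, hprod⟩ := prod_of_roots (F := f.SplittingField) f hsep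
    (SplittingField.splits f)
  have nF : NumberField f.SplittingField := NumberField.of_module_finite k f.SplittingField
  have hlc : algebraMap k f.SplittingField f.leadingCoeff ≠ 0 :=
    (_root_.map_ne_zero _).2 (leadingCoeff_ne_zero.2 hf0)
  refine LHyp_three (k := f.SplittingField) hlc (s := R) (by rwa [hR]) ?_ ν hε
  intro ν ε hε
  obtain ⟨C, hC, H⟩ := h ν ε hε
  refine ⟨C, hC, fun M _ _ _ hM x y hxy => ?_⟩
  let _ : Algebra k M := ((algebraMap f.SplittingField M).comp
    (algebraMap k f.SplittingField)).toAlgebra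
  have : IsScalarTower k f.SplittingField M := IsScalarTower.of_algebraMap_eq fun _ => rfl
  have h1 := H M hM x y (by rw [hxy, hprod M])
  rw [hR]
  exact h1

/-- the three point inequality of the library -/
theorem thin_of_three (h : ∀ (ν : ℕ) (ε : ℝ), 0 < ε → ∃ C : ℝ, 0 ≤ C ∧
    ∀ (M : Type) [Field M] [NumberField M], Module.finrank ℚ M ≤ ν → ∀ t : M,
      (1 - ε) * logHeight₁ t ≤ DD M + sm (w3 t) + Module.finrank ℚ M * C) (r : ℕ) :
    Pool.Agent.Results.MP_44a246_nt.ThinSetsSuffice.ThinInequality r 0 := by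
  intro ε hε
  obtain ⟨C, hC, H⟩ := h r ε hε
  have hl : 0 ≤ Real.log 2 := Real.log_nonneg (by norm_num)
  refine ⟨C + 3 * Real.log 2 + |1 - ε| * (2 * Real.log 2), ?_⟩
  intro L _ _ hL t ht ht1 ht2
  have ht0 : t ≠ 0 := by
    rintro rfl
    obtain ⟨u, hu⟩ := ht
    rw [zero_mul] at hu
    exact zero_ne_one hu
  rw [Pool.Agent.Results.MP_44a246_nt.ThinSetsSuffice.counting_eq]
  unfold Pool.Agent.Results.MP_44a246_nt.ThinSetsSuffice.height
    Pool.Agent.Results.MP_44a246_nt.ThinSetsSuffice.logDisc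
  have hd : (0 : ℝ) < Module.finrank ℚ L := by exact_mod_cast Module.finrank_pos
  have h1 := H L hL (2 * t / (1 + t))
  have h2 := near_ineq t ht0 ht1 ht2
  have n2 : 1 + t ≠ 0 := fun h => ht2 (by linear_combination h)
  -- heights
  have e1 : (2 * t / (1 + t))⁻¹ = (1 + t⁻¹) / 2 := by
    field_simp
    ring
  have e2 : 2 * (2 * t / (1 + t))⁻¹ - 1 = t⁻¹ := by
    field_simp
    ring
  have h3 := ht_half_add t⁻¹
  rw [← e1, logHeight₁_inv, logHeight₁_inv] at h3
  have h4 := ht_two_mul_sub (2 * t / (1 + t))⁻¹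
  rw [e2, logHeight₁_inv, logHeight₁_inv] at h4
  have h5 : (1 - ε) * logHeight₁ t ≤ (1 - ε) * logHeight₁ (2 * t / (1 + t)) +
      |1 - ε| * (Module.finrank ℚ L * (2 * Real.log 2)) := abs_shift h4 h3
  have h6 : (1 - ε) * logHeight₁ t ≤ wt (fun v => Near t v) +
      Real.log |(discr L : ℝ)| + Module.finrank ℚ L * (C + 3 * Real.log 2 +
      |1 - ε| * (2 * Real.log 2)) := by
    have e3 : DD L = Real.log |(discr L : ℝ)| := rfl
    rw [e3] at h1
    have e4 : (Module.finrank ℚ L : ℝ) * (C + 3 * Real.log 2 + |1 - ε| * (2 * Real.log 2)) =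
      Module.finrank ℚ L * C + Module.finrank ℚ L * (3 * Real.log 2) +
      |1 - ε| * (Module.finrank ℚ L * (2 * Real.log 2)) := by ring
    rw [e4]
    linarith
  have h7 := div_le_div_of_nonneg_right h6 hd.le
  refine le_trans (le_of_eq ?_) (h7.trans (le_of_eq ?_))
  · ring
  · field_simp

end Pool.Agent.H431.OC
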