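import Pool.Agent.H431.OC.Base

/-!
# Orbifold inequalities for the line with three points
-/

set_option autoImplicit false

namespace Pool.Agent.H431.OC

open NumberField IsDedekindDomain Height Pool.Agent.Q290.NF IntermediateField

section om

/-- the contribution of a point of order `n` to the discriminant of a cover of index `m` -/
noncomputable def om (m : ℕ) (n : ℤ) : ℝ := if 0 < n then 1 - (Int.gcd m n : ℝ) / m else 0

theorem om_nonpos (m : ℕ) {n : ℤ} (h : n ≤ 0) : om m n = 0 := if_neg (not_lt.2 h)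

theorem om_pos (m : ℕ) {n : ℤ} (h : 0 < n) : om m n = 1 - (Int.gcd m n : ℝ) / m := if_pos h

theorem gcd_le {m : ℕ} (hm : m ≠ 0) (n : ℤ) : (Int.gcd m n : ℝ) ≤ m := by
  have h : Int.gcd m n ∣ m := by
    have := Int.gcd_dvd_left (m : ℤ) n
    exact_mod_cast this
  exact_mod_cast Nat.le_of_dvd (Nat.pos_of_ne_zero hm) h

theorem om_nonneg {m : ℕ} (hm : m ≠ 0) (n : ℤ) : 0 ≤ om m n := by
  have hm' : (0 : ℝ) < m := by exact_mod_cast Nat.pos_of_ne_zero hm
  by_cases h : 0 < n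
  · rw [om_pos m h, sub_nonneg, div_le_one hm']
    exact gcd_le hm n
  · rw [om_nonpos m (not_lt.1 h)]

theorem om_le_one (m : ℕ) (n : ℤ) : om m n ≤ 1 := by
  by_cases h : 0 < n
  · rw [om_pos m h]
    have : (0 : ℝ) ≤ (Int.gcd m n : ℝ) / m := by positivity
    linarith
  · rw [om_nonpos m (not_lt.1 h)]
    exact zero_le_one

theorem om_mono {m d : ℕ} (hm : m ≠ 0) (hd : d ≠ 0) (n : ℤ) :
    om m n ≤ om (m * d) n := by
  by_cases h : 0 < n
  · rw [om_pos _ h, om_pos _ h]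
    have hm' : (0 : ℝ) < m := by exact_mod_cast Nat.pos_of_ne_zero hm
    have hd' : (0 : ℝ) < d := by exact_mod_cast Nat.pos_of_ne_zero hd
    have h1 : Int.gcd ((m * d : ℕ) : ℤ) n ∣ Int.gcd m n * d := by
      have h2 : Int.gcd ((m * d : ℕ) : ℤ) n = Nat.gcd (m * d) n.natAbs := rfl
      have h3 : Int.gcd (m : ℤ) n = Nat.gcd m n.natAbs := rfl
      rw [h2, h3]
      have h4 : Nat.gcd (m * d) n.natAbs ∣ Nat.gcd (m * d) (n.natAbs * d) :=
        Nat.gcd_dvd_gcd_of_dvd_right _ (Dvd.intro _ rfl)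
      rwa [Nat.gcd_mul_right] at h4
    have h2 : (Int.gcd ((m * d : ℕ) : ℤ) n : ℝ) ≤ Int.gcd m n * d := by
      have h3 : 0 < Int.gcd m n * d := by
        refine Nat.mul_pos ?_ (Nat.pos_of_ne_zero hd)
        exact Int.gcd_pos_of_ne_zero_left _ (by exact_mod_cast hm)
      exact_mod_cast Nat.le_of_dvd h3 h1
    have h3 : (Int.gcd ((m * d : ℕ) : ℤ) n : ℝ) / ((m * d : ℕ) : ℝ) ≤ Int.gcd m n / m := by
      push_cast
      rw [div_le_div_iff₀ (mul_pos hm' hd') hm']
      push_cast at h2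
      nlinarith
    linarith
  · rw [om_nonpos _ (not_lt.1 h), om_nonpos _ (not_lt.1 h)]

/-- the comparison of the indices `m d` and `m` -/
theorem om_drop {m d : ℕ} (hm : m ≠ 0) (hd : d ≠ 0) (n : ℤ) :
    om (m * d) n ≤ om m n + (1 / m - 1 / (m * d)) * max 0 (n : ℝ) := by
  by_cases h : 0 < n
  · rw [om_pos _ h, om_pos _ h]
    have hn : (0 : ℝ) < n := by exact_mod_cast h
    rw [max_eq_right hn.le]
    have hm' : (0 : ℝ) < m := by exact_mod_cast Nat.pos_of_ne_zero hm
    have hd' : (1 : ℝ) ≤ d := by exact_mod_cast Nat.one_le_iff_ne_zero.2 hd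
    have h1 : Int.gcd (m : ℤ) n ∣ Int.gcd ((m * d : ℕ) : ℤ) n := by
      have h2 : Int.gcd ((m * d : ℕ) : ℤ) n = Nat.gcd (m * d) n.natAbs := rfl
      have h3 : Int.gcd (m : ℤ) n = Nat.gcd m n.natAbs := rfl
      rw [h2, h3]
      exact Nat.gcd_dvd_gcd_of_dvd_left _ (Dvd.intro _ rfl)
    have h2 : (Int.gcd (m : ℤ) n : ℝ) ≤ Int.gcd ((m * d : ℕ) : ℤ) n := by
      have h3 : 0 < Int.gcd ((m * d : ℕ) : ℤ) n :=
        Int.gcd_pos_of_ne_zero_left _ (by exact_mod_cast mul_ne_zero hm hd)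
      exact_mod_cast Nat.le_of_dvd h3 h1
    have h3 : (Int.gcd (m : ℤ) n : ℝ) ≤ n := by
      have h4 : Int.gcd (m : ℤ) n ∣ n.natAbs := Int.gcd_dvd_natAbs_right _ _
      have h5 := Nat.le_of_dvd (Int.natAbs_pos.2 h.ne') h4
      have h6 : ((n.natAbs : ℕ) : ℤ) = n := Int.natAbs_of_nonneg h.le
      have h7 : ((Int.gcd (m : ℤ) n : ℕ) : ℤ) ≤ n := by
        rw [← h6]
        exact_mod_cast h5
      exact_mod_cast h7
    obtain ⟨g, hg⟩ : ∃ g : ℝ, g = (Int.gcd (m : ℤ) n : ℝ) := ⟨_, rfl⟩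
    obtain ⟨g', hg'⟩ : ∃ g' : ℝ, g' = (Int.gcd ((m * d : ℕ) : ℤ) n : ℝ) := ⟨_, rfl⟩
    rw [← hg] at h2 h3 ⊢
    rw [← hg'] at h2 ⊢
    have h4 : g / m - g' / (m * d) ≤ (1 / m - 1 / (m * d)) * n := by
      have e1 : g / m - g' / (m * d) = (g * d - g') / (m * d) := by field_simp
      have e2 : (1 / (m : ℝ) - 1 / ((m : ℝ) * d)) * (n : ℝ) = ((d - 1) * n) / (m * d) := by
        field_simp
      rw [e1, e2]
      refine div_le_div_of_nonneg_right ?_ (by positivity)
      nlinarith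
    push_cast
    linarith
  · rw [om_nonpos _ (not_lt.1 h), om_nonpos _ (not_lt.1 h)]
    have : (n : ℝ) ≤ 0 := by exact_mod_cast not_lt.1 h
    rw [max_eq_left this]
    simp

theorem om_double {r : ℕ} (hr : r ≠ 0) (n : ℤ) : om (2 * r) (2 * n) = om r n := by
  by_cases h : 0 < n
  · rw [om_pos _ h, om_pos _ (by omega)]
    have e : Int.gcd ((2 * r : ℕ) : ℤ) (2 * n) = 2 * Int.gcd r n := by
      push_cast
      rw [Int.gcd_mul_left]
      rfl
    rw [e]
    have hr' : (r : ℝ) ≠ 0 := by exact_mod_cast hr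
    push_cast
    congr 1
    field_simp
  · rw [om_nonpos _ (not_lt.1 h), om_nonpos _ (by omega)]

theorem om_two_even {n : ℤ} (h : Even n) : om 2 n = 0 := by
  by_cases h0 : 0 < n
  · rw [om_pos _ h0]
    have e : Int.gcd ((2 : ℕ) : ℤ) n = 2 := by
      have h1 : Int.gcd ((2 : ℕ) : ℤ) n = Nat.gcd 2 n.natAbs := rfl
      rw [h1]
      refine Nat.gcd_eq_left ?_
      have h2 := Int.natAbs_dvd_natAbs.2 h.two_dvd
      exact h2
    rw [e]
    norm_num
  · exact om_nonpos _ (not_lt.1 h0)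

theorem om_two_odd {n : ℤ} (h0 : 0 < n) (h : Odd n) : om 2 n = 1 / 2 := by
  rw [om_pos _ h0]
  have e : Int.gcd ((2 : ℕ) : ℤ) n = 1 := by
    rw [← Int.isCoprime_iff_gcd_eq_one]
    exact Int.isCoprime_two_left.2 h
  rw [e]
  norm_num

theorem om_mul_le {r e : ℕ} (hr : r ≠ 0) (he : e ≠ 0) (n : ℤ) : om r (e * n) ≤ om r n := by
  by_cases h : 0 < n
  · have he' : (0 : ℤ) < e := by exact_mod_cast Nat.pos_of_ne_zero he
    rw [om_pos _ h, om_pos _ (mul_pos he' h)]
    have h1 : Int.gcd (r : ℤ) n ∣ Int.gcd (r : ℤ) (e * n) :=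
      Int.gcd_dvd_gcd_of_dvd_right _ (Dvd.intro_left _ rfl)
    have h2 : (Int.gcd (r : ℤ) n : ℝ) ≤ Int.gcd (r : ℤ) (e * n) := by
      have h3 : 0 < Int.gcd (r : ℤ) (e * n) :=
        Int.gcd_pos_of_ne_zero_left _ (by exact_mod_cast hr)
      exact_mod_cast Nat.le_of_dvd h3 h1
    have h3 : (Int.gcd (r : ℤ) n : ℝ) / r ≤ Int.gcd (r : ℤ) (e * n) / r :=
      div_le_div_of_nonneg_right h2 (Nat.cast_nonneg _)
    linarith
  · have h' : n ≤ 0 := not_lt.1 h
    rw [om_nonpos _ h', om_nonpos _ (mul_nonpos_of_nonneg_of_nonpos (Nat.cast_nonneg _) h')]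

theorem om_odd {r : ℕ} (hr : r ≠ 0) {n : ℤ} (h0 : 0 < n) (h : Odd n) :
    1 + om r n ≤ 2 * om (2 * r) n := by
  rw [om_pos _ h0, om_pos _ h0]
  have e : Int.gcd ((2 * r : ℕ) : ℤ) n = Int.gcd r n := by
    have hc : Nat.Coprime 2 n.natAbs := by
      have := Int.isCoprime_iff_gcd_eq_one.1 (Int.isCoprime_two_left.2 h)
      exact this
    have h2 : Int.gcd ((2 * r : ℕ) : ℤ) n = Nat.gcd (2 * r) n.natAbs := rfl
    have h3 : Int.gcd (r : ℤ) n = Nat.gcd r n.natAbs := rfl
    rw [h2, h3]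
    exact Nat.Coprime.gcd_mul_left_cancel r hc
  rw [e]
  have hr' : (r : ℝ) ≠ 0 := by exact_mod_cast hr
  push_cast
  have : 2 * (1 - (Int.gcd (r : ℤ) n : ℝ) / (2 * r)) = 1 + (1 - (Int.gcd (r : ℤ) n : ℝ) / r) := by
    field_simp
    ring
  rw [this]

theorem om_self {l : ℕ} (hl : l ≠ 0) (n : ℤ) : om l (l * n) = 0 := by
  by_cases h : 0 < (l * n : ℤ)
  · rw [om_pos _ h]
    have e : Int.gcd (l : ℤ) (l * n) = l := by
      have h1 : Int.gcd (l : ℤ) (l * n) = Nat.gcd l (l * n : ℤ).natAbs := rfl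
      rw [h1]
      refine Nat.gcd_eq_left ?_
      have h2 := Int.natAbs_dvd_natAbs.2 (Dvd.intro n rfl : (l : ℤ) ∣ l * n)
      exact h2
    rw [e]
    have hl' : (l : ℝ) ≠ 0 := by exact_mod_cast hl
    rw [div_self hl', sub_self]
  · exact om_nonpos _ (not_lt.1 h)

end om

section weights

variable {M : Type} [Field M] [NumberField M]

theorem supp_om (m : ℕ) (x : M) :
    (Function.support fun v : HeightOneSpectrum (𝓞 M) => om m (ord v x)).Finite := by
  by_cases hx : x = 0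
  · refine Set.finite_empty.subset fun v hv => ?_
    rw [Function.mem_support, hx, ord_zero, om_nonpos _ le_rfl] at hv
    exact hv rfl
  · refine (fin_ord hx).subset fun v hv h => ?_
    rw [Function.mem_support, h, om_nonpos _ le_rfl] at hv
    exact hv rfl

theorem supp_om' (m : ℕ) (x : M) :
    (Function.support fun v : HeightOneSpectrum (𝓞 M) => om m (-ord v x)).Finite := by
  have h := supp_om m x⁻¹
  refine h.subset fun v hv => ?_
  rw [Function.mem_support] at hv ⊢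
  rwa [ord_inv]

/-- the weights of the three points `0`, `1`, `∞` -/
noncomputable def wgt (a b c : ℕ) (t : M) (v : HeightOneSpectrum (𝓞 M)) : ℝ :=
  om a (ord v t) + om b (ord v (t - 1)) + om c (-ord v t)

theorem supp_wgt (a b c : ℕ) (t : M) : (Function.support (wgt a b c t)).Finite :=
  supp_add (supp_add (supp_om a t) (supp_om b (t - 1))) (supp_om' c t)

theorem wgt_nonneg {a b c : ℕ} (ha : a ≠ 0) (hb : b ≠ 0) (hc : c ≠ 0) (t : M)
    (v : HeightOneSpectrum (𝓞 M)) : 0 ≤ wgt a b c t v := by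
  have h1 := om_nonneg ha (ord v t)
  have h2 := om_nonneg hb (ord v (t - 1))
  have h3 := om_nonneg hc (-ord v t)
  unfold wgt
  linarith

theorem wgt_le (a b c : ℕ) (t : M) (v : HeightOneSpectrum (𝓞 M)) : wgt a b c t v ≤ 3 := by
  have h1 := om_le_one a (ord v t)
  have h2 := om_le_one b (ord v (t - 1))
  have h3 := om_le_one c (-ord v t)
  unfold wgt
  linarith

end weights

/-- The orbifold inequality for the line with the indices `a`, `b`, `c` at the points `0`, `1`, `∞`,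
for the points of bounded degree over the fields that contain `k`. -/
def W (k : Type) [Field k] [NumberField k] (a b c : ℕ) : Prop :=
  ∀ (ν : ℕ) (ε : ℝ), 0 < ε → ∃ C : ℝ, 0 ≤ C ∧
    ∀ (M : Type) [Field M] [NumberField M] [Algebra k M], Module.finrank ℚ M ≤ ν → ∀ t : M,
      (1 - 1 / (a : ℝ) - 1 / (b : ℝ) - 1 / (c : ℝ) - ε) * logHeight₁ t ≤
        DD M + sm (wgt a b c t) + Module.finrank ℚ M * C

variable {k : Type} [Field k] [NumberField k]

theorem W_triv {M : Type} [Field M] [NumberField M] {a b c : ℕ} (ha : a ≠ 0) (hb : b ≠ 0)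
    (hc : c ≠ 0) {κ C : ℝ} (hC : 0 ≤ C) {t : M} (ht : κ * logHeight₁ t ≤ 0) :
    κ * logHeight₁ t ≤ DD M + sm (wgt a b c t) + Module.finrank ℚ M * C := by
  have h1 := DD_nonneg M
  have h2 := sm_nonneg (wgt_nonneg (M := M) ha hb hc t)
  have h3 : 0 ≤ (Module.finrank ℚ M : ℝ) * C := mul_nonneg (Nat.cast_nonneg _) hC
  linarith

/-- exchange of `0` and `∞` -/
theorem W_inv {a b c : ℕ} (ha : a ≠ 0) (hb : b ≠ 0) (hc : c ≠ 0) (h : W k a b c) : W k c b a := by
  intro ν ε hε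
  obtain ⟨C, hC, H⟩ := h ν ε hε
  refine ⟨C, hC, fun M _ _ _ hM t => ?_⟩
  by_cases h0 : t = 0
  · refine W_triv hc hb ha hC ?_
    rw [h0, logHeight₁_zero, mul_zero]
  by_cases h1 : t = 1
  · refine W_triv hc hb ha hC ?_
    rw [h1, logHeight₁_one, mul_zero]
  have h2 := H M hM t⁻¹
  rw [logHeight₁_inv] at h2
  have h3 : sm (wgt a b c t⁻¹) ≤ sm (wgt c b a t) := by
    refine sm_mono (supp_wgt _ _ _ _) (supp_wgt _ _ _ _) fun v => ?_
    unfold wgt
    rw [ord_inv, neg_neg]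
    have e : t⁻¹ - 1 = -(t - 1) / t := by
      field_simp
      ring
    have h10 : t - 1 ≠ 0 := sub_ne_zero.2 h1
    rw [e, ord_div v (neg_ne_zero.2 h10) h0, ord_neg]
    have h4 : om b (ord v (t - 1) - ord v t) ≤ om b (ord v (t - 1)) := by
      by_cases h5 : 0 < ord v (t - 1) - ord v t
      · have h6 : ord v t = 0 := by
          by_contra h7
          rcases lt_or_gt_of_ne h7 with h8 | h8
          · have := (ord_sub_eq v (y := 1) h0 (Or.inr (by rw [ord_one]; exact h8))).1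
            omega
          · have h9 : ord v (t - 1) = 0 := by
              have := (ord_sub_eq v (x := 1) (y := t) one_ne_zero
                (Or.inr (by rw [ord_one]; exact h8))).1
              rw [ord_sub_comm, this, ord_one]
            omega
        rw [h6, sub_zero]
      · rw [om_nonpos _ (not_lt.1 h5)]
        exact om_nonneg hb _
    linarith
  refine le_trans (le_of_eq ?_) (h2.trans (by linarith))
  ring

/-- exchange of `0` and `1` -/
theorem W_sub {a b c : ℕ} (hc : c ≠ 0) (h : W k a b c) : W k b a c := by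
  intro ν ε hε
  obtain ⟨C, hC, H⟩ := h ν ε hε
  obtain ⟨κ, hκ⟩ : ∃ κ : ℝ, κ = 1 - 1 / (a : ℝ) - 1 / (b : ℝ) - 1 / (c : ℝ) - ε := ⟨_, rfl⟩
  have hl : 0 ≤ Real.log 2 := Real.log_nonneg (by norm_num)
  refine ⟨C + |κ| * Real.log 2, by positivity, fun M _ _ _ hM t => ?_⟩
  have h2 := H M hM (1 - t)
  rw [← hκ] at h2
  have h3 : sm (wgt a b c (1 - t)) ≤ sm (wgt b a c t) := by
    refine sm_mono (supp_wgt _ _ _ _) (supp_wgt _ _ _ _) fun v => ?_
    unfold wgt
    have e : 1 - t - 1 = -t := by ring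
    rw [e, ord_neg, ord_sub_comm v 1 t]
    have h4 : om c (-ord v (t - 1)) ≤ om c (-ord v t) := by
      by_cases h5 : 0 < -ord v (t - 1)
      · by_cases h0 : t = 0
        · rw [h0, zero_sub, ord_neg, ord_one] at h5
          exact absurd h5 (by norm_num)
        · have h6 : ord v t < 0 := by
            by_contra h7
            have := sub_nonneg' v (not_lt.1 h7) (y := 1) (by rw [ord_one])
            omega
          have := (ord_sub_eq v (y := 1) h0 (Or.inr (by rw [ord_one]; exact h6))).1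
          rw [this]
      · rw [om_nonpos _ (not_lt.1 h5)]
        exact om_nonneg hc _
    linarith
  have e1 : 1 - 1 / (b : ℝ) - 1 / (a : ℝ) - 1 / (c : ℝ) - ε = κ := by
    rw [hκ]
    ring
  rw [e1]
  have hd : (0 : ℝ) ≤ Module.finrank ℚ M := Nat.cast_nonneg _
  have h5 := ht_sub (1 : M) t
  rw [logHeight₁_one, zero_add] at h5
  have h6 := ht_sub (1 : M) (1 - t)
  rw [logHeight₁_one, zero_add] at h6
  have e2 : (1 : M) - (1 - t) = t := by ring
  rw [e2] at h6
  have h7 : κ * logHeight₁ t ≤ κ * logHeight₁ (1 - t) + |κ| * (Module.finrank ℚ M * Real.log 2) := by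
    have h8 : |logHeight₁ t - logHeight₁ (1 - t)| ≤ Module.finrank ℚ M * Real.log 2 := by
      rw [abs_le]
      constructor <;> linarith
    have h9 : κ * (logHeight₁ t - logHeight₁ (1 - t)) ≤
        |κ| * |logHeight₁ t - logHeight₁ (1 - t)| := by
      rw [← abs_mul]
      exact le_abs_self _
    have h10 := mul_le_mul_of_nonneg_left h8 (abs_nonneg κ)
    linarith
  have h8 : (Module.finrank ℚ M : ℝ) * (C + |κ| * Real.log 2) =
      Module.finrank ℚ M * C + |κ| * (Module.finrank ℚ M * Real.log 2) := by ring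
  rw [h8]
  linarith

/-- smaller indices -/
theorem W_drop {a b c d : ℕ} (ha : a ≠ 0) (hd : d ≠ 0) (h : W k (a * d) b c) : W k a b c := by
  intro ν ε hε
  obtain ⟨C, hC, H⟩ := h ν ε hε
  refine ⟨C, hC, fun M _ _ _ hM t => ?_⟩
  have h2 := H M hM t
  have h3 : sm (wgt (a * d) b c t) ≤ sm (wgt a b c t) +
      (1 / a - 1 / (a * d)) * logHeight₁ t := by
    have h4 : sm (wgt (a * d) b c t) ≤ sm fun v : HeightOneSpectrum (𝓞 M) => wgt a b c t v +
        (1 / a - 1 / (a * d)) * max 0 (ord v t : ℝ) := by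
      refine sm_mono (supp_wgt _ _ _ _) (supp_add (supp_wgt _ _ _ _)
        (supp_smul _ (supp_zeros t))) fun v => ?_
      have := om_drop ha hd (ord v t)
      unfold wgt
      linarith
    rw [sm_add (supp_wgt _ _ _ _) (supp_smul _ (supp_zeros t)), sm_smul] at h4
    refine h4.trans (add_le_add_right (mul_le_mul_of_nonneg_left (zeros_le t) ?_) _)
    have ha' : (0 : ℝ) < a := by exact_mod_cast Nat.pos_of_ne_zero ha
    have hd' : (1 : ℝ) ≤ d := by exact_mod_cast Nat.one_le_iff_ne_zero.2 hd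
    rw [sub_nonneg]
    refine div_le_div_of_nonneg_left zero_le_one ha' ?_
    nlinarith
  push_cast at h2
  have e : (1 - 1 / (a : ℝ) - 1 / (b : ℝ) - 1 / (c : ℝ) - ε) * logHeight₁ t =
      (1 - 1 / ((a : ℝ) * d) - 1 / (b : ℝ) - 1 / (c : ℝ) - ε) * logHeight₁ t -
      (1 / a - 1 / (a * d)) * logHeight₁ t := by ring
  rw [e]
  linarith

end Pool.Agent.H431.OC
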