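import Pool.Graph.R_pool_sql_team_seeded_2aa45f1a.Results.MP_71c16a_nt.FermatCurvesSuffice

/-!
# Orders at the primes of a number field, and weighted sums over the primes
-/

set_option autoImplicit false

namespace Pool.Agent.H431.OC

open NumberField IsDedekindDomain Height Pool.Agent.Q290.NF

section ord

variable {K : Type} [Field K] [NumberField K]

/-- the order at the prime `v` (`0` for `x = 0`) -/
noncomputable def ord (v : HeightOneSpectrum (𝓞 K)) (x : K) : ℤ :=
  -(WithZero.log (v.valuation K x))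

variable (v : HeightOneSpectrum (𝓞 K))

theorem val_ne {x : K} (hx : x ≠ 0) : v.valuation K x ≠ 0 := (Valuation.ne_zero_iff _).2 hx

theorem ord_mul {x y : K} (hx : x ≠ 0) (hy : y ≠ 0) : ord v (x * y) = ord v x + ord v y := by
  unfold ord
  rw [map_mul, WithZero.log_mul (val_ne v hx) (val_ne v hy)]
  ring

theorem ord_inv (x : K) : ord v x⁻¹ = - ord v x := by
  unfold ord
  rw [map_inv₀, WithZero.log_inv]

theorem ord_div {x y : K} (hx : x ≠ 0) (hy : y ≠ 0) : ord v (x / y) = ord v x - ord v y := by
  rw [div_eq_mul_inv, ord_mul v hx (inv_ne_zero hy), ord_inv]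
  ring

theorem ord_pow (x : K) (n : ℕ) : ord v (x ^ n) = n * ord v x := by
  unfold ord
  rw [map_pow, WithZero.log_pow]
  simp

theorem ord_one : ord v (1 : K) = 0 := by
  unfold ord
  rw [map_one, WithZero.log_one, neg_zero]

theorem ord_zero : ord v (0 : K) = 0 := by
  unfold ord
  rw [map_zero, WithZero.log_zero, neg_zero]

theorem ord_neg (x : K) : ord v (-x) = ord v x := by
  unfold ord
  rw [Valuation.map_neg]

theorem ord_sub_comm (x y : K) : ord v (x - y) = ord v (y - x) := by
  rw [← ord_neg, neg_sub]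

theorem ord_nonneg_iff (x : K) : 0 ≤ ord v x ↔ v.valuation K x ≤ 1 := by
  by_cases hx : x = 0
  · subst hx
    rw [ord_zero, map_zero]
    simp
  · unfold ord
    rw [neg_nonneg, ← WithZero.log_one (M := ℤ), WithZero.log_le_log (val_ne v hx) one_ne_zero]

theorem ord_neg_iff (x : K) : ord v x < 0 ↔ 1 < v.valuation K x := by
  rw [← not_le, ord_nonneg_iff, not_le]

theorem ord_pos_iff {x : K} (hx : x ≠ 0) : 0 < ord v x ↔ v.valuation K x < 1 := by
  unfold ord
  rw [neg_pos, ← WithZero.log_one (M := ℤ), WithZero.log_lt_log (val_ne v hx) one_ne_zero]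

theorem ord_eq_zero_iff {x : K} (hx : x ≠ 0) : ord v x = 0 ↔ v.valuation K x = 1 := by
  constructor
  · intro h
    refine le_antisymm ((ord_nonneg_iff v x).1 h.ge) ?_
    by_contra hc
    rw [not_le] at hc
    have := (ord_pos_iff v hx).2 hc
    omega
  · intro h
    have h1 := (ord_nonneg_iff v x).2 h.le
    have h2 : ¬ 0 < ord v x := fun h3 => by
      have := (ord_pos_iff v hx).1 h3
      rw [h] at this
      exact lt_irrefl _ this
    omega

theorem ord_le_iff {x y : K} (hx : x ≠ 0) (hy : y ≠ 0) :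
    ord v x ≤ ord v y ↔ v.valuation K y ≤ v.valuation K x := by
  unfold ord
  rw [neg_le_neg_iff, WithZero.log_le_log (val_ne v hy) (val_ne v hx)]

theorem ord_lt_iff {x y : K} (hx : x ≠ 0) (hy : y ≠ 0) :
    ord v x < ord v y ↔ v.valuation K y < v.valuation K x := by
  unfold ord
  rw [neg_lt_neg_iff, WithZero.log_lt_log (val_ne v hy) (val_ne v hx)]

theorem add_nonneg' {x y : K} (hx : 0 ≤ ord v x) (hy : 0 ≤ ord v y) : 0 ≤ ord v (x + y) := by
  rw [ord_nonneg_iff] at *
  exact Valuation.map_add_le _ hx hy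

theorem sub_nonneg' {x y : K} (hx : 0 ≤ ord v x) (hy : 0 ≤ ord v y) : 0 ≤ ord v (x - y) := by
  rw [ord_nonneg_iff] at *
  exact Valuation.map_sub_le _ hx hy

theorem mul_nonneg' {x y : K} (hx : 0 ≤ ord v x) (hy : 0 ≤ ord v y) : 0 ≤ ord v (x * y) := by
  rw [ord_nonneg_iff] at *
  rw [map_mul]
  exact mul_le_one' hx hy

theorem pow_nonneg' {x : K} (hx : 0 ≤ ord v x) (n : ℕ) : 0 ≤ ord v (x ^ n) := by
  rw [ord_pow]
  positivity

theorem int_nonneg (n : ℤ) : 0 ≤ ord v (n : K) := by
  rw [ord_nonneg_iff]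
  have h : v.valuation K (algebraMap (𝓞 K) K (n : 𝓞 K)) ≤ 1 := v.valuation_le_one (K := K) _
  rwa [map_intCast] at h

theorem nat_nonneg (n : ℕ) : 0 ≤ ord v (n : K) := by
  have := int_nonneg v n
  exact_mod_cast this

/-- `ord (x + y) ≥ m` -/
theorem le_ord_add {m : ℤ} {x y : K} (hx : x = 0 ∨ m ≤ ord v x) (hy : y = 0 ∨ m ≤ ord v y) :
    x + y = 0 ∨ m ≤ ord v (x + y) := by
  by_cases h0 : x + y = 0
  · exact Or.inl h0
  right
  by_cases hx0 : x = 0
  · subst hx0
    rw [zero_add] at h0 ⊢
    exact hy.resolve_left h0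
  by_cases hy0 : y = 0
  · subst hy0
    rw [add_zero]
    exact hx.resolve_left hx0
  have hx' := hx.resolve_left hx0
  have hy' := hy.resolve_left hy0
  have h1 : v.valuation K (x + y) ≤ max (v.valuation K x) (v.valuation K y) :=
    Valuation.map_add _ x y
  rcases le_total (v.valuation K x) (v.valuation K y) with h | h
  · rw [max_eq_right h] at h1
    exact hy'.trans ((ord_le_iff v hy0 h0).2 h1)
  · rw [max_eq_left h] at h1
    exact hx'.trans ((ord_le_iff v hx0 h0).2 h1)

/-- the order of a sum of two elements of different order -/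
theorem ord_add_eq {x y : K} (hx : x ≠ 0) (h : y = 0 ∨ ord v x < ord v y) :
    ord v (x + y) = ord v x ∧ x + y ≠ 0 := by
  by_cases hy : y = 0
  · subst hy
    rw [add_zero]
    exact ⟨rfl, hx⟩
  have h1 := h.resolve_left hy
  rw [ord_lt_iff v hx hy] at h1
  have h2 : v.valuation K (x + y) = v.valuation K x := Valuation.map_add_eq_of_lt_left _ h1
  refine ⟨?_, ?_⟩
  · unfold ord
    rw [h2]
  · intro h0
    rw [h0, map_zero] at h2
    exact val_ne v hx h2.symm

theorem ord_sub_eq {x y : K} (hx : x ≠ 0) (h : y = 0 ∨ ord v x < ord v y) :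
    ord v (x - y) = ord v x ∧ x - y ≠ 0 := by
  rw [sub_eq_add_neg]
  refine ord_add_eq v hx ?_
  rcases h with h | h
  · left
    rw [h, neg_zero]
  · right
    rwa [ord_neg]

end ord

section sums

variable {K : Type} [Field K] [NumberField K]

/-- the weighted sum over the primes -/
noncomputable def sm (g : HeightOneSpectrum (𝓞 K) → ℝ) : ℝ := ∑ᶠ v, g v * ell v

theorem supp_mul {g : HeightOneSpectrum (𝓞 K) → ℝ} (hg : (Function.support g).Finite) :
    (Function.support fun v => g v * ell v).Finite := by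
  refine hg.subset fun v hv => ?_
  rw [Function.mem_support] at hv ⊢
  exact left_ne_zero_of_mul hv

theorem sm_mono {g h : HeightOneSpectrum (𝓞 K) → ℝ} (hg : (Function.support g).Finite)
    (hh : (Function.support h).Finite) (H : ∀ v, g v ≤ h v) : sm g ≤ sm h :=
  finsum_le_finsum' (supp_mul hg) (supp_mul hh) fun v =>
    mul_le_mul_of_nonneg_right (H v) (ell_pos v).le

theorem sm_add {g h : HeightOneSpectrum (𝓞 K) → ℝ} (hg : (Function.support g).Finite)
    (hh : (Function.support h).Finite) : sm (fun v => g v + h v) = sm g + sm h := by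
  unfold sm
  rw [← finsum_add_distrib (supp_mul hg) (supp_mul hh)]
  refine finsum_congr fun v => ?_
  ring

theorem sm_smul (c : ℝ) (g : HeightOneSpectrum (𝓞 K) → ℝ) :
    sm (fun v => c * g v) = c * sm g := by
  unfold sm
  rw [smul_eq_mul c (∑ᶠ v, g v * ell v) |>.symm, smul_finsum]
  refine finsum_congr fun v => ?_
  rw [smul_eq_mul]
  ring

theorem sm_nonneg {g : HeightOneSpectrum (𝓞 K) → ℝ} (H : ∀ v, 0 ≤ g v) : 0 ≤ sm g :=
  finsum_nonneg fun v => mul_nonneg (H v) (ell_pos v).le

theorem supp_add {g h : HeightOneSpectrum (𝓞 K) → ℝ} (hg : (Function.support g).Finite)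
    (hh : (Function.support h).Finite) : (Function.support fun v => g v + h v).Finite := by
  refine (hg.union hh).subset fun v hv => ?_
  by_contra hc
  rw [Set.mem_union, not_or, Function.mem_support, Function.mem_support, not_not, not_not] at hc
  rw [Function.mem_support, hc.1, hc.2, add_zero] at hv
  exact hv rfl

theorem supp_smul (c : ℝ) {g : HeightOneSpectrum (𝓞 K) → ℝ} (hg : (Function.support g).Finite) :
    (Function.support fun v => c * g v).Finite := by
  refine hg.subset fun v hv => ?_
  rw [Function.mem_support] at hv ⊢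
  exact right_ne_zero_of_mul hv

/-- the primes at which `x` is not a unit -/
theorem fin_ord {x : K} (hx : x ≠ 0) : {v : HeightOneSpectrum (𝓞 K) | ord v x ≠ 0}.Finite := by
  refine ((fin_pole x).union (fin_zero hx)).subset fun v hv => ?_
  rcases lt_or_gt_of_ne (show ord v x ≠ 0 from hv) with h | h
  · exact Or.inl ((ord_neg_iff v x).1 h)
  · exact Or.inr ((ord_pos_iff v hx).1 h)

theorem log_mk (v : HeightOneSpectrum (𝓞 K)) {x : K} (hx : x ≠ 0) :
    Real.log (FinitePlace.mk v x) = -(ord v x : ℝ) * ell v := by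
  rw [fin_mk, WithZeroMulInt.toNNReal_neg_apply _ (val_ne v hx)]
  push_cast
  rw [Real.log_zpow]
  have h1 : (WithZero.unzero (val_ne v hx)).toAdd = WithZero.log (v.valuation K x) :=
    WithZero.toAdd_unzero_eq_log _
  unfold ord ell
  rw [← h1]
  push_cast
  ring

/-- the sum of the orders of the poles is at most the height -/
theorem poles_le (x : K) :
    sm (fun v : HeightOneSpectrum (𝓞 K) => max 0 (-(ord v x : ℝ))) ≤ logHeight₁ x := by
  by_cases hx : x = 0
  · subst hx
    have : ∀ v : HeightOneSpectrum (𝓞 K), max 0 (-(ord v (0 : K) : ℝ)) = 0 := by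
      intro v
      rw [ord_zero]
      simp
    unfold sm
    simp only [this, zero_mul, finsum_zero]
    exact zero_le_logHeight₁ _
  rw [NumberField.logHeight₁_eq]
  have h1 : 0 ≤ ∑ w : InfinitePlace K, (w.mult : ℝ) * Real.posLog (w x) :=
    Finset.sum_nonneg fun w _ => mul_nonneg (Nat.cast_nonneg _) Real.posLog_nonneg
  have h2 : ∑ᶠ w : FinitePlace K, Real.posLog (w x) =
      ∑ᶠ v : HeightOneSpectrum (𝓞 K), Real.posLog (FinitePlace.mk v x) :=
    (finsum_comp_equiv FinitePlace.equivHeightOneSpectrum.symm).symm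
  have h3 : sm (fun v : HeightOneSpectrum (𝓞 K) => max 0 (-(ord v x : ℝ))) =
      ∑ᶠ v : HeightOneSpectrum (𝓞 K), Real.posLog (FinitePlace.mk v x) := by
    unfold sm
    refine finsum_congr fun v => ?_
    change max 0 (-(ord v x : ℝ)) * ell v = max 0 (Real.log (FinitePlace.mk v x))
    rw [log_mk v hx, max_mul_of_nonneg _ _ (ell_pos v).le, zero_mul]
  rw [h2, h3]
  linarith

theorem supp_poles (x : K) :
    (Function.support fun v : HeightOneSpectrum (𝓞 K) => max 0 (-(ord v x : ℝ))).Finite := by
  by_cases hx : x = 0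
  · subst hx
    refine Set.finite_empty.subset fun v hv => ?_
    rw [Function.mem_support, ord_zero] at hv
    simp at hv
  · refine (fin_ord hx).subset fun v hv => ?_
    intro h
    rw [Function.mem_support, h] at hv
    simp at hv

/-- the sum of the orders of the zeros is at most the height -/
theorem zeros_le (x : K) :
    sm (fun v : HeightOneSpectrum (𝓞 K) => max 0 (ord v x : ℝ)) ≤ logHeight₁ x := by
  have h := poles_le x⁻¹
  rw [logHeight₁_inv] at h
  refine le_trans (le_of_eq ?_) h
  congr 1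
  funext v
  rw [ord_inv]
  push_cast
  rw [neg_neg]

theorem supp_zeros (x : K) :
    (Function.support fun v : HeightOneSpectrum (𝓞 K) => max 0 (ord v x : ℝ)).Finite := by
  have h := supp_poles x⁻¹
  refine h.subset fun v hv => ?_
  rw [Function.mem_support] at hv ⊢
  rw [ord_inv]
  push_cast
  rwa [neg_neg]

/-- the primes dividing an integer, with weights bounded by `B` -/
theorem sm_bad {n : ℕ} (hn : n ≠ 0) {B : ℝ} (hB : 0 ≤ B) {g : HeightOneSpectrum (𝓞 K) → ℝ}
    (hg : (Function.support g).Finite) (h0 : ∀ v, ord v (n : K) = 0 → g v ≤ 0)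
    (h1 : ∀ v, g v ≤ B) : sm g ≤ Module.finrank ℚ K * (B * Real.log n) := by
  have h2 := zeros_le (K := K) (n : K)
  have h3 := height_nat (K := K) hn
  have h4 : sm g ≤ sm fun v => B * max 0 (ord v (n : K) : ℝ) := by
    refine sm_mono hg (supp_smul B (supp_zeros (K := K) n)) fun v => ?_
    by_cases h : ord v (n : K) = 0
    · rw [h]
      have := h0 v h
      simpa using this
    · have h5 : (1 : ℝ) ≤ ord v (n : K) := by
        have h6 := nat_nonneg v n
        have h7 : 1 ≤ ord v (n : K) := by omega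
        exact_mod_cast h7
      have h8 : (1 : ℝ) ≤ max 0 (ord v (n : K) : ℝ) := le_max_of_le_right h5
      calc g v ≤ B := h1 v
        _ = B * 1 := (mul_one B).symm
        _ ≤ _ := mul_le_mul_of_nonneg_left h8 hB
  rw [sm_smul] at h4
  have h5 := mul_le_mul_of_nonneg_left (h2.trans h3) hB
  calc sm g ≤ _ := h4
    _ ≤ _ := h5
    _ = _ := by ring

end sums

end Pool.Agent.H431.OC
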