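import Pool.Agent.H431.OC.Ord

/-!
# Quadratic extensions: discriminants and weighted sums over the primes
-/

set_option autoImplicit false

namespace Pool.Agent.H431.OC

open NumberField IsDedekindDomain Height Pool.Agent.Q290.NF IntermediateField

section

variable {k F : Type} [Field k] [NumberField k] [Field F] [NumberField F] [Algebra k F]

theorem exists_unif (v : HeightOneSpectrum (𝓞 k)) : ∃ p : k, p ≠ 0 ∧ ord v p = 1 := by
  obtain ⟨p, hp⟩ := v.valuation_exists_uniformizer k
  refine ⟨p, ?_, ?_⟩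
  · rintro rfl
    rw [map_zero] at hp
    exact absurd hp.symm (by simp)
  · unfold ord
    rw [hp]
    simp

/-- square roots of elements of even order -/
theorem unram (x : F) (a : k) (ha : a ≠ 0) (hx : x ^ 2 = algebraMap k F a)
    (hadj : k⟮x⟯ = ⊤) (v : HeightOneSpectrum (𝓞 k)) (P : HeightOneSpectrum (𝓞 F))
    (hP : P.asIdeal.comap (algebraMap (𝓞 k) (𝓞 F)) = v.asIdeal)
    (h2 : ord v (2 : k) = 0) (he : Even (ord v a)) :
    ¬ P.asIdeal ∣ differentIdeal (𝓞 k) (𝓞 F) := by
  obtain ⟨p, hp0, hp⟩ := exists_unif v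
  obtain ⟨m, hm⟩ := he
  obtain ⟨c, hc⟩ : ∃ c : k, c = p ^ (-m) := ⟨_, rfl⟩
  have hc0 : c ≠ 0 := by rw [hc]; exact zpow_ne_zero _ hp0
  have hoc : ord v c = -m := by
    rw [hc]
    unfold ord at hp ⊢
    rw [map_zpow₀, WithZero.log_zpow]
    rw [neg_eq_iff_eq_neg] at hp
    rw [hp]
    simp
  have hcF : algebraMap k F c ≠ 0 := (map_ne_zero _).2 hc0
  refine kummer_unram (l := 2) (by norm_num) (algebraMap k F c * x) (c ^ 2 * a) ?_ ?_ v P hP ?_ ?_
  · rw [mul_pow, hx, map_mul, map_pow]
  · rw [← hadj]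
    apply le_antisymm
    · rw [adjoin_simple_le_iff]
      exact mul_mem (_root_.algebraMap_mem _ _) (mem_adjoin_simple_self k x)
    · rw [adjoin_simple_le_iff]
      have h1 : x = (algebraMap k F c)⁻¹ * (algebraMap k F c * x) := by
        rw [inv_mul_cancel_left₀ hcF]
      have h3 : (algebraMap k F c)⁻¹ * (algebraMap k F c * x) ∈ k⟮algebraMap k F c * x⟯ :=
        mul_mem (inv_mem (_root_.algebraMap_mem _ _)) (mem_adjoin_simple_self k _)
      rwa [← h1] at h3
  · push_cast
    exact (ord_eq_zero_iff v two_ne_zero).1 h2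
  · refine (ord_eq_zero_iff v (mul_ne_zero (pow_ne_zero _ hc0) ha)).1 ?_
    rw [ord_mul v (pow_ne_zero _ hc0) ha, ord_pow, hoc, hm]
    push_cast
    ring

/-- the order above -/
theorem ord_above (v : HeightOneSpectrum (𝓞 k)) (w : HeightOneSpectrum (𝓞 F))
    (hw : w.asIdeal.LiesOver v.asIdeal) (x : k) :
    ord w (algebraMap k F x) = (v.asIdeal.ramificationIdx' w.asIdeal : ℤ) * ord v x := by
  unfold ord
  rw [← HeightOneSpectrum.valuation_liesOver F v w, WithZero.log_pow]
  simp

theorem ell_above (v : HeightOneSpectrum (𝓞 k)) (w : HeightOneSpectrum (𝓞 F))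
    (hw : w.asIdeal.LiesOver v.asIdeal) :
    ell w = (v.asIdeal.inertiaDeg' w.asIdeal : ℝ) * ell v := by
  unfold ell
  rw [Ideal.absNorm_eq_pow_inertiaDeg'_of_liesOver w.asIdeal v.asIdeal v.isPrime v.ne_bot]
  push_cast
  rw [Real.log_pow]

theorem ram_ne (v : HeightOneSpectrum (𝓞 k)) (w : HeightOneSpectrum (𝓞 F))
    (hw : w.asIdeal.LiesOver v.asIdeal) : v.asIdeal.ramificationIdx' w.asIdeal ≠ 0 :=
  Ideal.IsDedekindDomain.ramificationIdx'_ne_zero_of_liesOver w.asIdeal v.ne_bot

theorem inert_ne (v : HeightOneSpectrum (𝓞 k)) (w : HeightOneSpectrum (𝓞 F))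
    (hw : w.asIdeal.LiesOver v.asIdeal) : v.asIdeal.inertiaDeg' w.asIdeal ≠ 0 := by
  intro h
  have h1 := ell_above v w hw
  rw [h] at h1
  have h2 := ell_pos w
  rw [h1] at h2
  simp at h2

theorem sum_local (v : HeightOneSpectrum (𝓞 k)) (W : Finset (HeightOneSpectrum (𝓞 F)))
    (hW : ∀ w ∈ W, w.asIdeal.LiesOver v.asIdeal) :
    (∑ w ∈ W, (v.asIdeal.ramificationIdx' w.asIdeal : ℝ) *
      (v.asIdeal.inertiaDeg' w.asIdeal : ℝ)) ≤ Module.finrank k F := by
  classical
  have hmax : v.asIdeal.IsMaximal := v.isMaximal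
  have h1 := Ideal.sum_ramification_inertia (𝓞 F) k F (p := v.asIdeal) v.ne_bot
  have h2 : ∑ w ∈ W, v.asIdeal.ramificationIdx' w.asIdeal * v.asIdeal.inertiaDeg' w.asIdeal ≤
      Module.finrank k F := by
    rw [← h1]
    have e1 : ∑ w ∈ W, v.asIdeal.ramificationIdx' w.asIdeal * v.asIdeal.inertiaDeg' w.asIdeal =
        ∑ P ∈ W.image HeightOneSpectrum.asIdeal,
        v.asIdeal.ramificationIdx' P * v.asIdeal.inertiaDeg' P := by
      rw [Finset.sum_image]
      intro a _ b _ hab
      exact HeightOneSpectrum.ext hab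
    rw [e1]
    refine Finset.sum_le_sum_of_subset ?_
    intro P hP
    obtain ⟨w, hw, rfl⟩ := Finset.mem_image.1 hP
    exact (IsDedekindDomain.mem_primesOverFinset_iff v.ne_bot _).2 ⟨w.isPrime, hW w hw⟩
  exact_mod_cast h2

theorem local_bound (v : HeightOneSpectrum (𝓞 k)) (W : Finset (HeightOneSpectrum (𝓞 F)))
    (hW : ∀ w ∈ W, w.asIdeal.LiesOver v.asIdeal) (f : HeightOneSpectrum (𝓞 F) → ℝ) {c : ℝ}
    (hc : 0 ≤ c) (h : ∀ w ∈ W, f w ≤ (v.asIdeal.ramificationIdx' w.asIdeal : ℝ) * c) :
    ∑ w ∈ W, f w * ell w ≤ Module.finrank k F * (c * ell v) := by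
  have h1 : ∑ w ∈ W, f w * ell w ≤ ∑ w ∈ W, ((v.asIdeal.ramificationIdx' w.asIdeal : ℝ) *
      (v.asIdeal.inertiaDeg' w.asIdeal : ℝ)) * (c * ell v) := by
    refine Finset.sum_le_sum fun w hw => ?_
    rw [ell_above v w (hW w hw)]
    have h2 := h w hw
    have h3 : (0 : ℝ) ≤ (v.asIdeal.inertiaDeg' w.asIdeal : ℝ) * ell v :=
      mul_nonneg (Nat.cast_nonneg _) (ell_pos v).le
    calc _ ≤ ((v.asIdeal.ramificationIdx' w.asIdeal : ℝ) * c) *
        ((v.asIdeal.inertiaDeg' w.asIdeal : ℝ) * ell v) := mul_le_mul_of_nonneg_right h2 h3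
      _ = _ := by ring
  rw [← Finset.sum_mul] at h1
  exact h1.trans (mul_le_mul_of_nonneg_right (sum_local v W hW) (mul_nonneg hc (ell_pos v).le))

theorem quad_ineq (x : F) (a : k) (ha : a ≠ 0) (hx : x ^ 2 = algebraMap k F a) (hadj : k⟮x⟯ = ⊤)
    {B : ℝ} (hB : 0 ≤ B) (f : HeightOneSpectrum (𝓞 F) → ℝ) (g : HeightOneSpectrum (𝓞 k) → ℝ)
    (hf : (Function.support f).Finite) (hg : (Function.support g).Finite)
    (hf0 : ∀ w, 0 ≤ f w) (hfB : ∀ w, f w ≤ B) (hg0 : ∀ v, 0 ≤ g v)
    (H : ∀ (v : HeightOneSpectrum (𝓞 k)) (w : HeightOneSpectrum (𝓞 F)) (e : ℕ), e ≠ 0 →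
      ord v (2 : k) = 0 → (∀ z : k, ord w (algebraMap k F z) = e * ord v z) →
      (Even (ord v a) → f w ≤ e * g v) ∧ (Odd (ord v a) → e = 2 → 1 + f w ≤ 2 * g v)) :
    Real.log |(discr F : ℝ)| + sm f ≤ Module.finrank k F * (Real.log |(discr k : ℝ)| + sm g +
      Module.finrank ℚ k * ((B + 2) * Real.log 2)) := by
  classical
  obtain ⟨n, hn⟩ : ∃ n : ℕ, n = Module.finrank k F := ⟨_, rfl⟩
  have hn1 : 1 ≤ n := by rw [hn]; exact Module.finrank_pos
  have hn2 : n ≤ 2 := by
    obtain ⟨-, h⟩ := finrank_simple (l := 2) (by norm_num) x a hx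
    rw [hadj, finrank_top'] at h
    rw [hn]
    exact h
  have hn1' : (1 : ℝ) ≤ n := by exact_mod_cast hn1
  have hn2' : (n : ℝ) ≤ 2 := by exact_mod_cast hn2
  -- the ramified primes
  have hVfin : ({v : HeightOneSpectrum (𝓞 k) | ord v (2 : k) ≠ 0 ∨ Odd (ord v a)}).Finite := by
    refine ((fin_ord (two_ne_zero (α := k))).union (fin_ord ha)).subset fun v hv => ?_
    rcases hv with h | h
    · exact Or.inl h
    · right
      intro h0
      rw [h0] at h
      exact absurd h (by decide)
  obtain ⟨V, hV⟩ : ∃ V, V = hVfin.toFinset := ⟨_, rfl⟩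
  have memV : ∀ v, v ∈ V ↔ (ord v (2 : k) ≠ 0 ∨ Odd (ord v a)) := by
    intro v
    rw [hV, Set.Finite.mem_toFinset]
    rfl
  have hdisc := Pool.Agent.Y729.DB.disc_le (k := k) (F := F) V (fun P hP => by
    refine ⟨P.under (𝓞 k), ?_, rfl⟩
    rw [memV]
    by_contra hc
    rw [not_or, not_not, Int.not_odd_iff_even] at hc
    exact unram x a ha hx hadj (P.under (𝓞 k)) P rfl hc.1 hc.2 hP)
  rw [← hn] at hdisc ⊢
  have hfac : Real.log ((n.factorial : ℕ) : ℝ) ≤ Real.log 2 := by
    have h1 : n.factorial ≤ 2 := by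
      have := Nat.factorial_le hn2
      simpa using this
    refine Real.log_le_log (by exact_mod_cast Nat.factorial_pos _) (by exact_mod_cast h1)
  have hd0 : (0 : ℝ) ≤ Module.finrank ℚ k := Nat.cast_nonneg _
  -- the finite sets
  obtain ⟨W, hW⟩ : ∃ W, W = hf.toFinset := ⟨_, rfl⟩
  obtain ⟨R, hR⟩ : ∃ R, R = V ∪ W.image (fun w => w.under (𝓞 k)) ∪ hg.toFinset := ⟨_, rfl⟩
  have hsf : sm f = ∑ w ∈ W, f w * ell w := by
    unfold sm
    refine finsum_eq_sum_of_support_subset _ fun w hw => ?_
    rw [hW, Set.Finite.coe_toFinset]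
    exact left_ne_zero_of_mul hw
  have hsg : sm g = ∑ v ∈ R, g v * ell v := by
    unfold sm
    refine finsum_eq_sum_of_support_subset _ fun v hv => ?_
    have h1 : v ∈ Function.support g := left_ne_zero_of_mul hv
    rw [hR, Finset.mem_coe, Finset.mem_union, Set.Finite.mem_toFinset]
    exact Or.inr h1
  have hfib : ∑ w ∈ W, f w * ell w = ∑ v ∈ R, ∑ w ∈ W with w.under (𝓞 k) = v, f w * ell w := by
    have hmaps : ∀ w ∈ W, w.under (𝓞 k) ∈ R := by
      intro w hw
      rw [hR, Finset.mem_union, Finset.mem_union]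
      exact Or.inl (Or.inr (Finset.mem_image_of_mem _ hw))
    exact (Finset.sum_fiberwise_of_maps_to hmaps (fun w => f w * ell w)).symm
  have hVR : V ⊆ R := by
    rw [hR]
    exact Finset.subset_union_left.trans Finset.subset_union_left
  have hsV : ∑ v ∈ V, Real.log (Ideal.absNorm v.asIdeal : ℝ) =
      ∑ v ∈ R, (if v ∈ V then ell v else 0) := by
    rw [Finset.sum_ite_mem, Finset.inter_eq_right.2 hVR]
    rfl
  -- the local inequality
  have key : ∀ v ∈ R, ((n : ℝ) - 1) * (if v ∈ V then ell v else 0) +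
      ∑ w ∈ W with w.under (𝓞 k) = v, f w * ell w ≤
      n * (g v * ell v) + n * ((B + 1) * (max 0 (ord v (2 : k) : ℝ) * ell v)) := by
    intro v _
    have hlv := ell_pos v
    have hlie : ∀ w ∈ W.filter (fun w => w.under (𝓞 k) = v), w.asIdeal.LiesOver v.asIdeal := by
      intro w hw
      rw [Finset.mem_filter] at hw
      rw [← hw.2]
      exact ⟨rfl⟩
    by_cases h2 : ord v (2 : k) = 0
    · have hpos : 0 ≤ n * ((B + 1) * (max 0 (ord v (2 : k) : ℝ) * ell v)) := by positivity
      rcases Int.even_or_odd (ord v a) with he | ho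
      · have hvV : v ∉ V := by
          rw [memV, not_or, not_not, Int.not_odd_iff_even]
          exact ⟨h2, he⟩
        rw [if_neg hvV, mul_zero, zero_add]
        have h3 := local_bound v _ hlie f (hg0 v) (fun w hw => by
          have hl := hlie w hw
          exact (H v w _ (ram_ne v w hl) h2 (fun z => ord_above v w hl z)).1 he)
        rw [← hn] at h3
        linarith
      · have hvV : v ∈ V := by
          rw [memV]
          exact Or.inr ho
        rw [if_pos hvV]
        have hram : ∀ w : HeightOneSpectrum (𝓞 F), w.asIdeal.LiesOver v.asIdeal →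
            v.asIdeal.ramificationIdx' w.asIdeal = 2 ∧ n = 2 ∧ 1 + f w ≤ 2 * g v := by
          intro w hl
          have e1 := ord_above v w hl a
          rw [← hx, ord_pow] at e1
          have hle := sum_local v {w} (by
            intro w' hw'
            rw [Finset.mem_singleton] at hw'
            rw [hw']
            exact hl)
          rw [Finset.sum_singleton, ← hn] at hle
          have hle' : v.asIdeal.ramificationIdx' w.asIdeal * v.asIdeal.inertiaDeg' w.asIdeal ≤
              n := by exact_mod_cast hle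
          have hr0 := ram_ne v w hl
          have hi0 := inert_ne v w hl
          have hr2 : v.asIdeal.ramificationIdx' w.asIdeal ≤ n := by
            refine le_trans ?_ hle'
            exact Nat.le_mul_of_pos_right _ (Nat.pos_of_ne_zero hi0)
          have hev : Even (v.asIdeal.ramificationIdx' w.asIdeal) := by
            have h5 : Even ((v.asIdeal.ramificationIdx' w.asIdeal : ℤ) * ord v a) := by
              rw [← e1]
              push_cast
              exact even_two_mul _
            rcases Int.even_mul.1 h5 with h6 | h6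
            · exact_mod_cast h6
            · exact absurd ho (Int.not_odd_iff_even.2 h6)
          have e2 : v.asIdeal.ramificationIdx' w.asIdeal = 2 := by
            obtain ⟨m, hm⟩ := hev
            omega
          refine ⟨e2, by omega, ?_⟩
          exact (H v w _ hr0 h2 (fun z => ord_above v w hl z)).2 ho e2
        obtain ⟨w0, hw0⟩ := Pool.Agent.Y729.DB.exists_above (F := F) v
        obtain ⟨-, hn2e, hg1⟩ := hram w0 ⟨hw0.symm⟩
        have hf00 := hf0 w0
        have h3 := local_bound v _ hlie f (c := (2 * g v - 1) / 2) (by linarith) (fun w hw => by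
          obtain ⟨e2, -, h4⟩ := hram w (hlie w hw)
          rw [e2]
          push_cast
          linarith)
        rw [← hn, hn2e] at h3
        rw [hn2e]
        push_cast at h3 ⊢
        have hpos' : 0 ≤ (2 : ℝ) * ((B + 1) * (max 0 (ord v (2 : k) : ℝ) * ell v)) := by
          positivity
        nlinarith
    · have h5 : (1 : ℝ) ≤ max 0 (ord v (2 : k) : ℝ) := by
        have h6 : 0 ≤ ord v (2 : k) := by
          have := nat_nonneg v 2
          exact_mod_cast this
        have h7 : 1 ≤ ord v (2 : k) := by omega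
        exact le_max_of_le_right (by exact_mod_cast h7)
      have h3 := local_bound v _ hlie f hB (fun w hw => by
        have h8 : (1 : ℝ) ≤ (v.asIdeal.ramificationIdx' w.asIdeal : ℝ) := by
          exact_mod_cast Nat.one_le_iff_ne_zero.2 (ram_ne v w (hlie w hw))
        have := hfB w
        nlinarith)
      rw [← hn] at h3
      have h9 : (if v ∈ V then ell v else 0) ≤ ell v := by
        split_ifs
        · exact le_rfl
        · exact hlv.le
      have h10 : 0 ≤ g v * ell v := mul_nonneg (hg0 v) hlv.le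
      have h11 : ell v ≤ max 0 (ord v (2 : k) : ℝ) * ell v := by nlinarith
      have h12 : ((n : ℝ) - 1) * (if v ∈ V then ell v else 0) ≤ (n - 1) * ell v :=
        mul_le_mul_of_nonneg_left h9 (by linarith)
      have h13 : (B + 1) * ell v ≤ (B + 1) * (max 0 (ord v (2 : k) : ℝ) * ell v) :=
        mul_le_mul_of_nonneg_left h11 (by linarith)
      have h14 : (n : ℝ) * ((B + 1) * ell v) ≤
          n * ((B + 1) * (max 0 (ord v (2 : k) : ℝ) * ell v)) :=
        mul_le_mul_of_nonneg_left h13 (by linarith)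
      have h15 : 0 ≤ (n : ℝ) * (g v * ell v) := by positivity
      nlinarith
  have hsum := Finset.sum_le_sum key
  rw [Finset.sum_add_distrib, Finset.sum_add_distrib, ← Finset.mul_sum, ← Finset.mul_sum,
    ← Finset.mul_sum, ← Finset.mul_sum, ← hsV, ← hfib, ← hsg, ← hsf] at hsum
  have h2s : ∑ v ∈ R, max 0 (ord v (2 : k) : ℝ) * ell v ≤ Module.finrank ℚ k * Real.log 2 := by
    have h1 := zeros_le (K := k) (2 : k)
    have h2 := height_two' k
    refine le_trans ?_ (h1.trans h2)
    unfold sm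
    have h3 : ∑ v ∈ R, max 0 (ord v (2 : k) : ℝ) * ell v ≤
        ∑ v ∈ R ∪ (supp_mul (supp_zeros (K := k) 2)).toFinset,
          max 0 (ord v (2 : k) : ℝ) * ell v := by
      refine Finset.sum_le_sum_of_subset_of_nonneg Finset.subset_union_left ?_
      intro v _ _
      exact mul_nonneg (le_max_left _ _) (ell_pos v).le
    refine h3.trans (le_of_eq (finsum_eq_sum_of_support_subset _ ?_).symm)
    intro v hv
    rw [Finset.coe_union, Set.Finite.coe_toFinset]
    exact Or.inr hv
  have h3 : (n : ℝ) * ((B + 1) * ∑ v ∈ R, max 0 (ord v (2 : k) : ℝ) * ell v) ≤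
      n * ((B + 1) * (Module.finrank ℚ k * Real.log 2)) :=
    mul_le_mul_of_nonneg_left (mul_le_mul_of_nonneg_left h2s (by linarith)) (by linarith)
  have h4 : (n : ℝ) * (Module.finrank ℚ k * Real.log ((n.factorial : ℕ) : ℝ)) ≤
      n * (Module.finrank ℚ k * Real.log 2) :=
    mul_le_mul_of_nonneg_left (mul_le_mul_of_nonneg_left hfac hd0) (by linarith)
  nlinarith

end

end Pool.Agent.H431.OC
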