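import Pool.Agent.H431.OC.Ell4

/-!
# From one hyperelliptic curve to the orbifold line
-/

set_option autoImplicit false

namespace Pool.Agent.H431.OC

open NumberField IsDedekindDomain Height Pool.Agent.Q290.NF IntermediateField Polynomial

theorem Hyp_up {k1 k2 : Type} [Field k1] [NumberField k1] [Field k2] [NumberField k2]
    [Algebra k1 k2] [DecidableEq k2] {c : k1} {s : Finset k1} {κ : ℝ} (h : Hyp k1 c s κ) :
    Hyp k2 (algebraMap k1 k2 c) (s.image (algebraMap k1 k2)) κ := by
  intro ν ε hε
  obtain ⟨C, hC, H⟩ := h ν ε hε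
  refine ⟨C, hC, fun M _ _ _ hM x y hxy => ?_⟩
  let _ : Algebra k1 M := ((algebraMap k2 M).comp (algebraMap k1 k2)).toAlgebra
  refine H M hM x y ?_
  rw [hxy, Finset.prod_image (algebraMap k1 k2).injective.injOn]
  rfl

/-- **the orbifold line from a hyperelliptic curve** -/
theorem W_of_Hyp {k : Type} [Field k] [NumberField k] {c : k} (hc : c ≠ 0) {s : Finset k}
    (hodd : Odd s.card) (h5 : 5 ≤ s.card) (h : Hyp k c s (((s.card : ℝ) - 3) / 2)) :
    ∃ (F : Type) (_ : Field F) (_ : NumberField F), W F 4 4 4 := by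
  classical
  obtain ⟨t, hts, ht4⟩ := Finset.exists_subset_card_eq (show 4 ≤ s.card by omega)
  obtain ⟨mu, t', hmu, rfl, ht3⟩ := Finset.card_eq_succ.1 ht4
  obtain ⟨e1, e2, e3, h12, h13, h23, rfl⟩ := Finset.card_eq_three.1 ht3
  obtain ⟨r, hr⟩ : ∃ r, r = s \ insert mu {e1, e2, e3} := ⟨_, rfl⟩
  have hrc : r.card = s.card - 4 := by
    rw [hr, Finset.card_sdiff_of_subset hts, ht4]
  have hrodd : Odd r.card := by
    rw [hrc]
    obtain ⟨m, hm⟩ := hodd
    exact ⟨m - 2, by omega⟩
  have hmr : mu ∉ r := by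
    rw [hr, Finset.mem_sdiff, not_and, not_not]
    intro _
    exact Finset.mem_insert_self _ _
  have hm1 : mu ≠ e1 := fun h => hmu (by rw [h]; simp)
  have hm2 : mu ≠ e2 := fun h => hmu (by rw [h]; simp)
  have hm3 : mu ≠ e3 := fun h => hmu (by rw [h]; simp)
  obtain ⟨F, iF, nF, aF, sig, hsig, -, -⟩ :=
    exists_quad k ((mu - e1) * (mu - e2) * (mu - e3))
  refine ⟨F, iF, nF, ?_⟩
  have inj := (algebraMap k F).injective
  have hs0 : sig ≠ 0 := by
    rintro rfl
    have h1 : algebraMap k F ((mu - e1) * (mu - e2) * (mu - e3)) = 0 := by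
      rw [← hsig]
      ring
    rw [map_eq_zero] at h1
    exact mul_ne_zero (mul_ne_zero (sub_ne_zero.2 hm1) (sub_ne_zero.2 hm2))
      (sub_ne_zero.2 hm3) h1
  have h' : Hyp F (algebraMap k F c) (s.image (algebraMap k F))
      ((((r.image (algebraMap k F)).card : ℝ) + 1) / 2) := by
    have e : (((r.image (algebraMap k F)).card : ℝ) + 1) / 2 = ((s.card : ℝ) - 3) / 2 := by
      rw [Finset.card_image_of_injective _ inj, hrc, Nat.cast_sub (by omega)]
      push_cast
      ring
    rw [e]
    exact Hyp_up h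
  have hprod : ∀ (M : Type) [Field M] [Algebra F M] (X : M),
      ∏ e ∈ s.image (algebraMap k F), (X - algebraMap F M e) =
        (X - algebraMap F M (algebraMap k F e1)) * ((X - algebraMap F M (algebraMap k F e2)) *
        ((X - algebraMap F M (algebraMap k F e3)) * ((X - algebraMap F M (algebraMap k F mu)) *
          ∏ e ∈ r.image (algebraMap k F), (X - algebraMap F M e)))) := by
    intro M _ _ X
    rw [Finset.prod_image inj.injOn, Finset.prod_image inj.injOn, ← Finset.prod_sdiff hts, ← hr,
      Finset.prod_insert hmu, Finset.prod_insert (by simp [h12, h13]),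
      Finset.prod_insert (by simp [h23]), Finset.prod_singleton]
    ring
  have r1 := R1 (k := F) (c := algebraMap k F c) (e1 := algebraMap k F e1)
    (e2 := algebraMap k F e2) (e3 := algebraMap k F e3) (mu := algebraMap k F mu)
    ((_root_.map_ne_zero _).2 hc) (r := r.image (algebraMap k F))
    (by rwa [Finset.card_image_of_injective _ inj])
    (by
      rw [Finset.mem_image]
      rintro ⟨b, hb, hb'⟩
      exact hmr (inj hb' ▸ hb)) hprod h'
  have r2 := E1 (k := F) (sig := sig) (by rw [hsig]; simp only [map_mul, map_sub]) hs0 r1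
  have r3 := E2 r2
  have d12 : algebraMap k F e1 ≠ algebraMap k F e2 := fun h => h12 (inj h)
  have d13 : algebraMap k F e1 ≠ algebraMap k F e3 := fun h => h13 (inj h)
  have d23 : algebraMap k F e2 ≠ algebraMap k F e3 := fun h => h23 (inj h)
  exact E4 d12 (E3 d12 d13 d23 r3)

/-- The inequality of the problem, `D = 0`, for the hyperelliptic curve `y ^ 2 = f(x)`. -/
def One (k : Type) [Field k] [NumberField k] (f : k[X]) : Prop :=
  ∀ (ν : ℕ) (ε : ℝ), 0 < ε → ∃ C : ℝ, 0 ≤ C ∧
    ∀ (M : Type) [Field M] [NumberField M] [Algebra k M], Module.finrank ℚ M ≤ ν → ∀ x y : M,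
      y ^ 2 = aeval x f →
      ((((f.natDegree - 1) / 2 : ℕ) : ℝ) - 1 - ε) * logHeight₁ x ≤ DD M + Module.finrank ℚ M * C

theorem prod_of_roots {k F : Type} [Field k] [Field F] [Algebra k F] (f : k[X])
    (hf : f.Separable) (hs : (f.map (algebraMap k F)).Splits) :
    ∃ R : Finset F, R.card = f.natDegree ∧ ∀ (M : Type) [Field M] [Algebra k M] [Algebra F M]
      [IsScalarTower k F M] (x : M), aeval x f =
        algebraMap F M (algebraMap k F f.leadingCoeff) * ∏ e ∈ R, (x - algebraMap F M e) := by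
  have hnd : (f.map (algebraMap k F)).roots.Nodup := nodup_roots (hf.map)
  refine ⟨⟨(f.map (algebraMap k F)).roots, hnd⟩, ?_, ?_⟩
  · rw [Finset.card_mk, splits_iff_card_roots.1 hs, natDegree_map]
  · intro M _ _ _ _ x
    have h1 := hs.eq_prod_roots
    have h2 : aeval x f = eval₂ (algebraMap F M) x (f.map (algebraMap k F)) := by
      rw [eval₂_map, ← IsScalarTower.algebraMap_eq, aeval_def]
    have h3 := congrArg (eval₂ (algebraMap F M) x) h1
    rw [h2, h3, eval₂_mul, eval₂_C, leadingCoeff_map]
    congr 1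
    rw [← coe_eval₂RingHom, map_multiset_prod, Multiset.map_map]
    show _ = (Multiset.map (fun e => x - algebraMap F M e) (f.map (algebraMap k F)).roots).prod
    congr 1
    refine Multiset.map_congr rfl fun a _ => ?_
    simp

/-- **a curve with a point at infinity which is a branch point** -/
theorem Hyp_of_One {k : Type} [Field k] [NumberField k] {f : k[X]} (hf : Squarefree f)
    (h5 : 5 ≤ f.natDegree) (h : One k f) :
    ∃ (F : Type) (_ : Field F) (_ : NumberField F) (c : F) (s : Finset F), c ≠ 0 ∧ Odd s.card ∧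
      5 ≤ s.card ∧ Hyp F c s (((s.card : ℝ) - 3) / 2) := by
  classical
  have hsep : f.Separable := PerfectField.separable_iff_squarefree.2 hf
  have hf0 : f ≠ 0 := by
    rintro rfl
    simp at h5
  obtain ⟨R, hR, hprod⟩ := prod_of_roots (F := f.SplittingField) f hsep
    (SplittingField.splits f)
  have nF : NumberField f.SplittingField := NumberField.of_module_finite k f.SplittingField
  have hlc : algebraMap k f.SplittingField f.leadingCoeff ≠ 0 :=
    (_root_.map_ne_zero _).2 (leadingCoeff_ne_zero.2 hf0)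
  rcases Nat.even_or_odd f.natDegree with hev | hodd
  · -- even degree
    obtain ⟨e0, he0⟩ : R.Nonempty := by
      rw [← Finset.card_pos, hR]
      omega
    have hinj : Set.InjOn (fun e : f.SplittingField => (e - e0)⁻¹) (R.erase e0) := by
      intro a _ b _ hab
      have h1 : (a - e0)⁻¹ = (b - e0)⁻¹ := hab
      have h2 := inv_injective h1
      linear_combination h2
    obtain ⟨s, hs⟩ : ∃ s, s = (R.erase e0).image (fun e => (e - e0)⁻¹) := ⟨_, rfl⟩
    have hsc : s.card = f.natDegree - 1 := by
      rw [hs, Finset.card_image_of_injOn hinj, Finset.card_erase_of_mem he0, hR]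
    obtain ⟨m, hm⟩ := hev
    have hc0 : ∏ e ∈ R.erase e0, (e0 - e) ≠ 0 := by
      rw [Finset.prod_ne_zero_iff]
      intro e he
      exact sub_ne_zero.2 (Finset.ne_of_mem_erase he).symm
    refine ⟨f.SplittingField, inferInstance, nF, algebraMap k f.SplittingField f.leadingCoeff *
      ∏ e ∈ R.erase e0, (e0 - e), s, mul_ne_zero hlc hc0, ⟨m - 1, by omega⟩, by omega, ?_⟩
    intro ν ε hε
    obtain ⟨C, hC, H⟩ := h ν ε hε
    obtain ⟨C0, hC0, H0⟩ := ht_shift e0
    obtain ⟨κ, hκ⟩ : ∃ κ : ℝ, κ = ((s.card : ℝ) - 3) / 2 - ε := ⟨_, rfl⟩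
    refine ⟨C + |κ| * C0, by positivity, fun M _ _ _ hM x y hxy => ?_⟩
    rw [← hκ]
    have hκ' : ((((f.natDegree - 1) / 2 : ℕ) : ℝ) - 1 - ε) = κ := by
      have e1 : (f.natDegree - 1) / 2 = m - 1 := by omega
      have e2 : s.card = 2 * (m - 1) + 1 := by omega
      rw [hκ, e1, e2]
      push_cast
      ring
    have hd : (0 : ℝ) ≤ Module.finrank ℚ M := Nat.cast_nonneg _
    have hDD := DD_nonneg M
    by_cases hx : x = 0
    · rw [hx, logHeight₁_zero, mul_zero]
      positivity
    let _ : Algebra k M := ((algebraMap f.SplittingField M).comp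
      (algebraMap k f.SplittingField)).toAlgebra
    have : IsScalarTower k f.SplittingField M := IsScalarTower.of_algebraMap_eq fun _ => rfl
    obtain ⟨E0, hE0⟩ : ∃ E0, E0 = algebraMap f.SplittingField M e0 := ⟨_, rfl⟩
    have hpe : aeval (E0 + x⁻¹) f = (y / x ^ m) ^ 2 := by
      rw [hprod M, ← Finset.mul_prod_erase R _ he0, div_pow, hxy, hs, Finset.prod_image hinj,
        map_mul, map_prod, ← hE0]
      have e1 : ∀ e ∈ R.erase e0, E0 + x⁻¹ - algebraMap f.SplittingField M e =
          algebraMap f.SplittingField M (e0 - e) *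
            (x - algebraMap f.SplittingField M ((e - e0)⁻¹)) * x⁻¹ := by
        intro e he
        have h1 : algebraMap f.SplittingField M e - E0 ≠ 0 := by
          rw [hE0, ← map_sub]
          exact (_root_.map_ne_zero _).2 (sub_ne_zero.2 (Finset.ne_of_mem_erase he))
        rw [map_inv₀, map_sub, map_sub, ← hE0]
        field_simp
        ring
      rw [Finset.prod_congr rfl e1, Finset.prod_mul_distrib, Finset.prod_mul_distrib,
        Finset.prod_const, Finset.card_erase_of_mem he0, hR]
      have e2 : E0 + x⁻¹ - E0 = x⁻¹ := by ring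
      have e3 : (x ^ m) ^ 2 = x ^ (f.natDegree - 1) * x := by
        rw [← pow_mul, ← pow_succ]
        congr 1
        omega
      rw [e2, e3, inv_pow]
      field_simp
    have h1 := H M hM (E0 + x⁻¹) (y / x ^ m) hpe.symm
    rw [hκ'] at h1
    have h2 := H0 M (E0 + x⁻¹)
    rw [← hE0, add_sub_cancel_left, logHeight₁_inv] at h2
    have h3 : κ * logHeight₁ x ≤ κ * logHeight₁ (E0 + x⁻¹) + |κ| * (Module.finrank ℚ M * C0) :=
      abs_shift h2.2 h2.1
    have h4 : (Module.finrank ℚ M : ℝ) * (C + |κ| * C0) = Module.finrank ℚ M * C +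
      |κ| * (Module.finrank ℚ M * C0) := by ring
    rw [h4]
    linarith
  · refine ⟨f.SplittingField, inferInstance, nF, algebraMap k f.SplittingField f.leadingCoeff, R,
      hlc, by rwa [hR], by omega, ?_⟩
    intro ν ε hε
    obtain ⟨C, hC, H⟩ := h ν ε hε
    refine ⟨C, hC, fun M _ _ _ hM x y hxy => ?_⟩
    let _ : Algebra k M := ((algebraMap f.SplittingField M).comp
      (algebraMap k f.SplittingField)).toAlgebra
    have : IsScalarTower k f.SplittingField M := IsScalarTower.of_algebraMap_eq fun _ => rfl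
    have h1 := H M hM x y (by rw [hxy, hprod M])
    obtain ⟨m, hm⟩ := hodd
    have e1 : (f.natDegree - 1) / 2 = m := by omega
    have e2 : (((R.card : ℝ) - 3) / 2 - ε) = ((((f.natDegree - 1) / 2 : ℕ) : ℝ) - 1 - ε) := by
      rw [e1, hR, hm]
      push_cast
      ring
    rw [e2]
    exact h1

end Pool.Agent.H431.OC
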